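import Pool.Agent.H77Lp.LinkJ

set_option autoImplicit false
set_option linter.unusedSimpArgs false
set_option linter.unusedVariables false
set_option maxHeartbeats 4000000
set_option maxRecDepth 100000

/-!
# Certificate with a penalty for the link graph with code 30 (generated file)
-/

namespace Pool.Agent.H77Lp.L30

open Pool.Agent.H6Turan Pool.Agent.H77Lp

def rmM : ℕ := 0xffffffffffffffffffffffffffffffffffffffff

def TM : ℕ := 0x8020080200802008020080200802008020080200802b4ad21b969ee7b99d969ee7b99d6e1ee7b99d802b4ad21b969ee7b99d969ee7b99d6e1ee7b99d8021b86f9e74e008026374e008026335daf6bdee8025a969d3a8a51945b88d9ee7b94c795f77ddca801ee7ba0094687a1e1b7ba008019d7b9e579609801ee7ba0094687a1e1b7ba008019d7b9e5796098019d676636e21b86efc5319d6765a80200802368025a969d38d9ee7b94ca8a51945b8795f77ddca801ee7ba007ba008019d94687a1e1b7b9e579609801ee7ba007ba008019d94687a1e1b7b9e5796098019d676635319d6765a6e21b86efc8020080236801b86e0d7795ee7ba00795ee7ba00c82489222d801ee7b9af7dde5796007dde579600922368da09801ee7b9af7dde5796007dde579600922368da098019d675ee72a098263672a09826368b60982651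

def off : ℕ := 512

def KN (_ _ _ : ℕ) : ℕ := off

/-- table for the two-vertex type, shifted by `off` -/
def MN (p q : ℕ) : ℕ := tb2 TM 10 1023 160 rmM p q

/-- the function of the codegree -/
def phi (d : ℕ) : ℕ := Nat.mul 45 d

def C0 : ℕ := 35220

def CC1 : ℕ := 1620

def CC : ℕ := 12960

/-- the codes of the graphs isomorphic to the graph with code 30 -/
def MASK : ℕ := 0x8200040000000

/-! ### positive semidefiniteness of `TM` -/

def idxM (i : ℕ) : ℕ := tb 0xdcb98754310 4 15 i

def MM (f f' : ℕ) : ℤ := (tb2 TM 10 1023 160 rmM f f' : ℤ) - 512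

def ZM (i j : ℕ) : ℤ := MM (idxM i) (idxM j)

def LTM : ℕ := 0xa188857174997b707e792480ae81808d7165aa13236f80809b8c74767f31867d4e808080ae8d6378448b5f8880808080ac4c299a7178b28080808080b0c56e867d4e808080808080d28b8b5f8880808080808080f17178b28080808080808080e4cfaa808080808080808080b68880808080808080808080c5

def LRM : ℕ := 0xffffffffffffffffffffff

def LM (i t : ℕ) : ℤ :=
  if i < t then 0 else (tb2 LTM 8 255 88 LRM i t : ℤ) - 128

def posM (f : ℕ) : ℕ := tb 0xfca2892071c6144103081040 6 63 f

def usM (f : ℕ) : List (ℕ × ℤ) :=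
  if posM f = 63 then [] else [(posM f, 1)]

theorem chkUM : allLt (fun f => allLt (fun f' =>
    decide (MM f f' = sp ZM (usM f) (usM f'))) 16) 16 = true := by decide +kernel

theorem chkIM : allLt (fun f => (usM f).all (fun p => decide (p.1 < 11))) 16 = true := by
  decide +kernel

theorem chkSM : allLt (fun f => allLt (fun f' => decide (ZM f f' = ZM f' f)) 11) 11 = true := by
  decide +kernel

theorem chkPM : psdChk 11 64 ZM LM = true := by decide +kernel

theorem psdM {ι : Type*} [Fintype ι] (F : ι → ℕ) (hF : ∀ u, F u < 16) :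
    0 ≤ ∑ u : ι, ∑ v : ι, MM (F u) (F v) := by
  refine sum_psd 11 ZM ?_ (Uf usM) MM F ?_
  · intro y
    refine psdChk_sound 11 64 (by norm_num) ZM LM ?_ ?_ chkPM y
    · intro i t h
      unfold LM
      rw [if_pos h]
    · intro i hi j hj
      exact of_decide_eq_true (allLt_spec (allLt_spec chkSM i hi) j hj)
  · intro u v
    rw [of_decide_eq_true (allLt_spec (allLt_spec chkUM (F u) (hF u)) (F v) (hF v))]
    refine (sum_sp 11 ZM _ _ (fun p hp => ?_) (fun p hp => ?_)).symm
    · exact of_decide_eq_true (List.all_eq_true.mp (allLt_spec chkIM (F u) (hF u)) p hp)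
    · exact of_decide_eq_true (List.all_eq_true.mp (allLt_spec chkIM (F v) (hF v)) p hp)

/-! ### the checks -/

theorem c01 : cK01 KN = true := cK01_const off

theorem c12 : cK12 KN = true := cK12_const off

theorem c23 : cK23 KN = true := cK23_const off

theorem c45 : cK45 KN = true := cK45_const off

theorem d01 : cM01 (MP MN phi) = true := by decide +kernel

theorem d23 : cM23 (MP MN phi) = true := by decide +kernel

theorem d45 : cM45 (MP MN phi) = true := by decide +kernel

theorem dpp : cMpp (MP MN phi) = true := by decide +kernel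

theorem hA : chkA 30 MASK 8 = true := by decide +kernel

theorem good : chk5 (goodP KN (MP MN phi) C0 CC (anyL MASK)) = true := by decide +kernel

theorem hphi (x y z t : ℕ) (hx : x = 0 ∨ x = 1) (hy : y = 0 ∨ y = 1) (hz : z = 0 ∨ z = 1)
    (ht : t = 0 ∨ t = 1) :
    (phi (x + y + (z + t)) : ℤ) = newt 0 45 0 0 0 x y z t := by
  rcases hx with rfl | rfl <;> rcases hy with rfl | rfl <;> rcases hz with rfl | rfl <;>
    rcases ht with rfl | rfl <;> rfl

variable {V : Type*} [Fintype V]

theorem hK (τ : ℕ) (F : V → ℕ) :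
    (off : ℤ) * (Fintype.card V : ℤ) ^ 2 ≤ ∑ u, ∑ v, (KN τ (F u) (F v) : ℤ) := by
  unfold KN
  simp only [Finset.sum_const, Finset.card_univ, nsmul_eq_mul]
  exact le_of_eq (by ring)

theorem hM (F : V × V → ℕ) (hF : ∀ u, F u < 16) :
    (off : ℤ) * (Fintype.card V : ℤ) ^ 4 ≤ ∑ u, ∑ v, (MN (F u) (F v) : ℤ) := by
  have h := psdM F hF
  have e : ∀ u v : V × V, (MN (F u) (F v) : ℤ) = MM (F u) (F v) + (off : ℤ) := by
    intro u v
    unfold MN MM off
    push_cast
    ring
  simp only [e, Finset.sum_add_distrib]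
  have hconst : ∑ _u : V × V, ∑ _v : V × V, (off : ℤ) = (off : ℤ) * (Fintype.card V : ℤ) ^ 4 := by
    simp only [Finset.sum_const, Finset.card_univ, nsmul_eq_mul, Fintype.card_prod]
    push_cast
    ring
  rw [hconst]
  linarith

/-- the density bound with the number of copies of the graph with code 30 in the links -/
theorem main (g : V → V → V → ℕ) (hb : ∀ a b c, g a b c = 0 ∨ g a b c = 1) (hg : Symm3 g)
    (h4 : ∀ a b c d, ix4 (g a b c) (g a b d) (g a c d) (g b c d) ≠ 15) :
    9 * ((Fintype.card V : ℤ) ^ 3 * (EE g : ℤ)) ≤ 5 * (Fintype.card V : ℤ) ^ 6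
      + 1296 * ((∑ x : Fin 6 → V, TL 30 g x : ℕ) : ℤ) := by
  refine mainP KN MN phi off C0 CC CC1 100 45 (anyL MASK) (TL 30 g) c01 c12 c23 c45 d01 d23 d45 dpp
    good hK hM hphi (by norm_num [C0, off]) (by norm_num) (by norm_num [CC1]) (by norm_num)
    g hb hg h4 ?_
  intro a b c d e f h
  have h1 := anyL_sound 30 MASK 8 hA g hb hg a b c d e f h
  have h2 : CC = CC1 * 8 := rfl
  rw [h2]
  exact Nat.mul_le_mul_left _ h1

end Pool.Agent.H77Lp.L30
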