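import Pool.Agent.H77Lp.DataP

set_option autoImplicit false
set_option linter.unusedSimpArgs false
set_option linter.unusedVariables false
set_option maxHeartbeats 4000000
set_option maxRecDepth 100000

/-!
# The checks for the certificate with the second six-vertex pattern (generated file)
-/

namespace Pool.Agent.H77Lp.P2

open Pool.Agent.H6Turan Pool.Agent.H77Lp

/-- the pattern: 12 triples have the value 1, 7 have the value 0, the triple `045` is free -/
def patB (b012 b013 b023 b123 b014 b024 b124 b034 b134 b234 b015 b025 b125 b035 b135 b235 b045 b145 b245 b345 : ℕ) : Bool :=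
  ((Nat.beq b012 0) && ((Nat.beq b013 0) && ((Nat.beq b023 1) && ((Nat.beq b123 1) && ((Nat.beq b014 1) && ((Nat.beq b024 1) && ((Nat.beq b124 1) && ((Nat.beq b034 1) && ((Nat.beq b134 1) && ((Nat.beq b234 0) && ((Nat.beq b015 1) && ((Nat.beq b025 1) && ((Nat.beq b125 1) && ((Nat.beq b035 1) && ((Nat.beq b135 1) && ((Nat.beq b235 0) && ((Nat.beq b145 0) && ((Nat.beq b245 0) && (Nat.beq b345 0)))))))))))))))))))

/-- the pattern occurs in one of the needed orders -/
def patAny (b012 b013 b023 b123 b014 b024 b124 b034 b134 b234 b015 b025 b125 b035 b135 b235 b045 b145 b245 b345 : ℕ) : Bool :=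
  (patB b012 b015 b025 b125 b013 b023 b123 b035 b135 b235 b014 b024 b124 b045 b145 b245 b034 b134 b234 b345) ||
  ((patB b013 b014 b034 b134 b012 b023 b123 b024 b124 b234 b015 b035 b135 b045 b145 b345 b025 b125 b235 b245) ||
  ((patB b012 b025 b015 b125 b023 b013 b123 b035 b235 b135 b024 b014 b124 b045 b245 b145 b034 b234 b134 b345) ||
  ((patB b015 b025 b012 b125 b035 b013 b135 b023 b235 b123 b045 b014 b145 b024 b245 b124 b034 b345 b134 b234) ||
  ((patB b234 b235 b245 b345 b023 b024 b034 b025 b035 b045 b123 b124 b134 b125 b135 b145 b012 b013 b014 b015) ||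
  ((patB b234 b245 b235 b345 b024 b023 b034 b025 b045 b035 b124 b123 b134 b125 b145 b135 b012 b014 b013 b015) ||
  ((patB b134 b234 b123 b124 b034 b013 b014 b023 b024 b012 b345 b135 b145 b235 b245 b125 b035 b045 b015 b025) ||
  ((patB b015 b035 b013 b135 b025 b012 b125 b023 b235 b123 b045 b014 b145 b034 b345 b134 b024 b245 b124 b234) ||
  ((patB b015 b045 b014 b145 b025 b012 b125 b024 b245 b124 b035 b013 b135 b034 b345 b134 b023 b235 b123 b234) ||
  ((patB b025 b035 b023 b235 b015 b012 b125 b013 b135 b123 b045 b024 b245 b034 b345 b234 b014 b145 b124 b134) ||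
  ((patB b025 b045 b024 b245 b015 b012 b125 b014 b145 b124 b035 b023 b235 b034 b345 b234 b013 b135 b123 b134) ||
  ((patB b035 b045 b034 b345 b015 b013 b135 b014 b145 b134 b025 b023 b235 b024 b245 b234 b012 b125 b123 b124) ||
  ((patB b013 b014 b134 b034 b012 b123 b023 b124 b024 b234 b015 b135 b035 b145 b045 b345 b125 b025 b235 b245) ||
  ((patB b012 b125 b015 b025 b123 b013 b023 b135 b235 b035 b124 b014 b024 b145 b245 b045 b134 b234 b034 b345) ||
  ((patB b234 b345 b235 b245 b034 b023 b024 b035 b045 b025 b134 b123 b124 b135 b145 b125 b013 b014 b012 b015) ||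
  ((patB b134 b234 b124 b123 b034 b014 b013 b024 b023 b012 b345 b145 b135 b245 b235 b125 b045 b035 b015 b025) ||
  (patB b015 b025 b125 b012 b035 b135 b013 b235 b023 b123 b045 b145 b014 b245 b024 b124 b345 b034 b134 b234))))))))))))))))

/-- indicator of the pattern -/
def TF {V : Type*} (g : V → V → V → ℕ) (x : Fin 6 → V) : ℕ :=
  cond (patB (g (x 0) (x 1) (x 2)) (g (x 0) (x 1) (x 3)) (g (x 0) (x 2) (x 3)) (g (x 1) (x 2) (x 3)) (g (x 0) (x 1) (x 4)) (g (x 0) (x 2) (x 4)) (g (x 1) (x 2) (x 4)) (g (x 0) (x 3) (x 4)) (g (x 1) (x 3) (x 4)) (g (x 2) (x 3) (x 4)) (g (x 0) (x 1) (x 5)) (g (x 0) (x 2) (x 5)) (g (x 1) (x 2) (x 5)) (g (x 0) (x 3) (x 5)) (g (x 1) (x 3) (x 5)) (g (x 2) (x 3) (x 5)) (g (x 0) (x 4) (x 5)) (g (x 1) (x 4) (x 5)) (g (x 2) (x 4) (x 5)) (g (x 3) (x 4) (x 5))) 1 0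

theorem c01 : cK01 KN = true := by decide +kernel

theorem c12 : cK12 KN = true := by decide +kernel

theorem c23 : cK23 KN = true := by decide +kernel

theorem c45 : cK45 KN = true := by decide +kernel

theorem d01 : cM01 (MP MN phi) = true := by decide +kernel

theorem d23 : cM23 (MP MN phi) = true := by decide +kernel

theorem d45 : cM45 (MP MN phi) = true := by decide +kernel

theorem dpp : cMpp (MP MN phi) = true := by decide +kernel

theorem good : chk5 (goodP KN (MP MN phi) C0 CC1 patAny) = true := by decide +kernel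

theorem hphi (x y z t : ℕ) (hx : x = 0 ∨ x = 1) (hy : y = 0 ∨ y = 1) (hz : z = 0 ∨ z = 1)
    (ht : t = 0 ∨ t = 1) :
    (phi (x + y + (z + t)) : ℤ) = newt 0 90000 0 0 0 x y z t := by
  rcases hx with rfl | rfl <;> rcases hy with rfl | rfl <;> rcases hz with rfl | rfl <;>
    rcases ht with rfl | rfl <;> rfl

variable {V : Type*}

theorem pat_0 (g : V → V → V → ℕ) (hg : Symm3 g) (a b c d e f : V)
    (h : patB (g a b c) (g a b f) (g a c f) (g b c f) (g a b d) (g a c d) (g b c d) (g a d f) (g b d f) (g c d f) (g a b e) (g a c e) (g b c e) (g a e f) (g b e f) (g c e f) (g a d e) (g b d e) (g c d e) (g d e f) = true) :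
    1 ≤ JP (TF g) ![a, b, c, d, e, f] := by
  refine JP_ge_one (TF g) _ ![0, 1, 2, 5, 3, 4] (by decide) ?_
  show cond (patB (g a b c) (g a b f) (g a c f) (g b c f) (g a b d) (g a c d) (g b c d) (g a f d) (g b f d) (g c f d) (g a b e) (g a c e) (g b c e) (g a f e) (g b f e) (g c f e) (g a d e) (g b d e) (g c d e) (g f d e)) 1 0 = 1
  have q0 : g a f d = g a d f := hg.s23 a d f
  have q1 : g b f d = g b d f := hg.s23 b d f
  have q2 : g c f d = g c d f := hg.s23 c d f
  have q3 : g a f e = g a e f := hg.s23 a e f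
  have q4 : g b f e = g b e f := hg.s23 b e f
  have q5 : g c f e = g c e f := hg.s23 c e f
  have q6 : g f d e = g d e f := (hg.s12 d f e).trans (hg.s23 d e f)
  rw [q0, q1, q2, q3, q4, q5, q6, h]
  rfl

theorem pat_1 (g : V → V → V → ℕ) (hg : Symm3 g) (a b c d e f : V)
    (h : patB (g a b d) (g a b e) (g a d e) (g b d e) (g a b c) (g a c d) (g b c d) (g a c e) (g b c e) (g c d e) (g a b f) (g a d f) (g b d f) (g a e f) (g b e f) (g d e f) (g a c f) (g b c f) (g c d f) (g c e f) = true) :
    1 ≤ JP (TF g) ![a, b, c, d, e, f] := by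
  refine JP_ge_one (TF g) _ ![0, 1, 3, 4, 2, 5] (by decide) ?_
  show cond (patB (g a b d) (g a b e) (g a d e) (g b d e) (g a b c) (g a d c) (g b d c) (g a e c) (g b e c) (g d e c) (g a b f) (g a d f) (g b d f) (g a e f) (g b e f) (g d e f) (g a c f) (g b c f) (g d c f) (g e c f)) 1 0 = 1
  have q0 : g a d c = g a c d := hg.s23 a c d
  have q1 : g b d c = g b c d := hg.s23 b c d
  have q2 : g a e c = g a c e := hg.s23 a c e
  have q3 : g b e c = g b c e := hg.s23 b c e
  have q4 : g d e c = g c d e := (hg.s23 d c e).trans (hg.s12 c d e)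
  have q5 : g d c f = g c d f := hg.s12 c d f
  have q6 : g e c f = g c e f := hg.s12 c e f
  rw [q0, q1, q2, q3, q4, q5, q6, h]
  rfl

theorem pat_2 (g : V → V → V → ℕ) (hg : Symm3 g) (a b c d e f : V)
    (h : patB (g a b c) (g a c f) (g a b f) (g b c f) (g a c d) (g a b d) (g b c d) (g a d f) (g c d f) (g b d f) (g a c e) (g a b e) (g b c e) (g a e f) (g c e f) (g b e f) (g a d e) (g c d e) (g b d e) (g d e f) = true) :
    1 ≤ JP (TF g) ![a, b, c, d, e, f] := by
  refine JP_ge_one (TF g) _ ![0, 2, 1, 5, 3, 4] (by decide) ?_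
  show cond (patB (g a c b) (g a c f) (g a b f) (g c b f) (g a c d) (g a b d) (g c b d) (g a f d) (g c f d) (g b f d) (g a c e) (g a b e) (g c b e) (g a f e) (g c f e) (g b f e) (g a d e) (g c d e) (g b d e) (g f d e)) 1 0 = 1
  have q0 : g a c b = g a b c := hg.s23 a b c
  have q1 : g c b f = g b c f := hg.s12 b c f
  have q2 : g c b d = g b c d := hg.s12 b c d
  have q3 : g a f d = g a d f := hg.s23 a d f
  have q4 : g c f d = g c d f := hg.s23 c d f
  have q5 : g b f d = g b d f := hg.s23 b d f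
  have q6 : g c b e = g b c e := hg.s12 b c e
  have q7 : g a f e = g a e f := hg.s23 a e f
  have q8 : g c f e = g c e f := hg.s23 c e f
  have q9 : g b f e = g b e f := hg.s23 b e f
  have q10 : g f d e = g d e f := (hg.s12 d f e).trans (hg.s23 d e f)
  rw [q0, q1, q2, q3, q4, q5, q6, q7, q8, q9, q10, h]
  rfl

theorem pat_3 (g : V → V → V → ℕ) (hg : Symm3 g) (a b c d e f : V)
    (h : patB (g a b f) (g a c f) (g a b c) (g b c f) (g a d f) (g a b d) (g b d f) (g a c d) (g c d f) (g b c d) (g a e f) (g a b e) (g b e f) (g a c e) (g c e f) (g b c e) (g a d e) (g d e f) (g b d e) (g c d e) = true) :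
    1 ≤ JP (TF g) ![a, b, c, d, e, f] := by
  refine JP_ge_one (TF g) _ ![0, 5, 1, 2, 3, 4] (by decide) ?_
  show cond (patB (g a f b) (g a f c) (g a b c) (g f b c) (g a f d) (g a b d) (g f b d) (g a c d) (g f c d) (g b c d) (g a f e) (g a b e) (g f b e) (g a c e) (g f c e) (g b c e) (g a d e) (g f d e) (g b d e) (g c d e)) 1 0 = 1
  have q0 : g a f b = g a b f := hg.s23 a b f
  have q1 : g a f c = g a c f := hg.s23 a c f
  have q2 : g f b c = g b c f := (hg.s12 b f c).trans (hg.s23 b c f)
  have q3 : g a f d = g a d f := hg.s23 a d f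
  have q4 : g f b d = g b d f := (hg.s12 b f d).trans (hg.s23 b d f)
  have q5 : g f c d = g c d f := (hg.s12 c f d).trans (hg.s23 c d f)
  have q6 : g a f e = g a e f := hg.s23 a e f
  have q7 : g f b e = g b e f := (hg.s12 b f e).trans (hg.s23 b e f)
  have q8 : g f c e = g c e f := (hg.s12 c f e).trans (hg.s23 c e f)
  have q9 : g f d e = g d e f := (hg.s12 d f e).trans (hg.s23 d e f)
  rw [q0, q1, q2, q3, q4, q5, q6, q7, q8, q9, h]
  rfl

theorem pat_4 (g : V → V → V → ℕ) (hg : Symm3 g) (a b c d e f : V)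
    (h : patB (g c d e) (g c d f) (g c e f) (g d e f) (g a c d) (g a c e) (g a d e) (g a c f) (g a d f) (g a e f) (g b c d) (g b c e) (g b d e) (g b c f) (g b d f) (g b e f) (g a b c) (g a b d) (g a b e) (g a b f) = true) :
    1 ≤ JP (TF g) ![a, b, c, d, e, f] := by
  refine JP_ge_one (TF g) _ ![2, 3, 4, 5, 0, 1] (by decide) ?_
  show cond (patB (g c d e) (g c d f) (g c e f) (g d e f) (g c d a) (g c e a) (g d e a) (g c f a) (g d f a) (g e f a) (g c d b) (g c e b) (g d e b) (g c f b) (g d f b) (g e f b) (g c a b) (g d a b) (g e a b) (g f a b)) 1 0 = 1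
  have q0 : g c d a = g a c d := (hg.s23 c a d).trans (hg.s12 a c d)
  have q1 : g c e a = g a c e := (hg.s23 c a e).trans (hg.s12 a c e)
  have q2 : g d e a = g a d e := (hg.s23 d a e).trans (hg.s12 a d e)
  have q3 : g c f a = g a c f := (hg.s23 c a f).trans (hg.s12 a c f)
  have q4 : g d f a = g a d f := (hg.s23 d a f).trans (hg.s12 a d f)
  have q5 : g e f a = g a e f := (hg.s23 e a f).trans (hg.s12 a e f)
  have q6 : g c d b = g b c d := (hg.s23 c b d).trans (hg.s12 b c d)
  have q7 : g c e b = g b c e := (hg.s23 c b e).trans (hg.s12 b c e)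
  have q8 : g d e b = g b d e := (hg.s23 d b e).trans (hg.s12 b d e)
  have q9 : g c f b = g b c f := (hg.s23 c b f).trans (hg.s12 b c f)
  have q10 : g d f b = g b d f := (hg.s23 d b f).trans (hg.s12 b d f)
  have q11 : g e f b = g b e f := (hg.s23 e b f).trans (hg.s12 b e f)
  have q12 : g c a b = g a b c := (hg.s12 a c b).trans (hg.s23 a b c)
  have q13 : g d a b = g a b d := (hg.s12 a d b).trans (hg.s23 a b d)
  have q14 : g e a b = g a b e := (hg.s12 a e b).trans (hg.s23 a b e)
  have q15 : g f a b = g a b f := (hg.s12 a f b).trans (hg.s23 a b f)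
  rw [q0, q1, q2, q3, q4, q5, q6, q7, q8, q9, q10, q11, q12, q13, q14, q15, h]
  rfl

theorem pat_5 (g : V → V → V → ℕ) (hg : Symm3 g) (a b c d e f : V)
    (h : patB (g c d e) (g c e f) (g c d f) (g d e f) (g a c e) (g a c d) (g a d e) (g a c f) (g a e f) (g a d f) (g b c e) (g b c d) (g b d e) (g b c f) (g b e f) (g b d f) (g a b c) (g a b e) (g a b d) (g a b f) = true) :
    1 ≤ JP (TF g) ![a, b, c, d, e, f] := by
  refine JP_ge_one (TF g) _ ![2, 4, 3, 5, 0, 1] (by decide) ?_
  show cond (patB (g c e d) (g c e f) (g c d f) (g e d f) (g c e a) (g c d a) (g e d a) (g c f a) (g e f a) (g d f a) (g c e b) (g c d b) (g e d b) (g c f b) (g e f b) (g d f b) (g c a b) (g e a b) (g d a b) (g f a b)) 1 0 = 1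
  have q0 : g c e d = g c d e := hg.s23 c d e
  have q1 : g e d f = g d e f := hg.s12 d e f
  have q2 : g c e a = g a c e := (hg.s23 c a e).trans (hg.s12 a c e)
  have q3 : g c d a = g a c d := (hg.s23 c a d).trans (hg.s12 a c d)
  have q4 : g e d a = g a d e := (hg.s12 d e a).trans ((hg.s23 d a e).trans (hg.s12 a d e))
  have q5 : g c f a = g a c f := (hg.s23 c a f).trans (hg.s12 a c f)
  have q6 : g e f a = g a e f := (hg.s23 e a f).trans (hg.s12 a e f)
  have q7 : g d f a = g a d f := (hg.s23 d a f).trans (hg.s12 a d f)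
  have q8 : g c e b = g b c e := (hg.s23 c b e).trans (hg.s12 b c e)
  have q9 : g c d b = g b c d := (hg.s23 c b d).trans (hg.s12 b c d)
  have q10 : g e d b = g b d e := (hg.s12 d e b).trans ((hg.s23 d b e).trans (hg.s12 b d e))
  have q11 : g c f b = g b c f := (hg.s23 c b f).trans (hg.s12 b c f)
  have q12 : g e f b = g b e f := (hg.s23 e b f).trans (hg.s12 b e f)
  have q13 : g d f b = g b d f := (hg.s23 d b f).trans (hg.s12 b d f)
  have q14 : g c a b = g a b c := (hg.s12 a c b).trans (hg.s23 a b c)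
  have q15 : g e a b = g a b e := (hg.s12 a e b).trans (hg.s23 a b e)
  have q16 : g d a b = g a b d := (hg.s12 a d b).trans (hg.s23 a b d)
  have q17 : g f a b = g a b f := (hg.s12 a f b).trans (hg.s23 a b f)
  rw [q0, q1, q2, q3, q4, q5, q6, q7, q8, q9, q10, q11, q12, q13, q14, q15, q16, q17, h]
  rfl

theorem pat_6 (g : V → V → V → ℕ) (hg : Symm3 g) (a b c d e f : V)
    (h : patB (g b d e) (g c d e) (g b c d) (g b c e) (g a d e) (g a b d) (g a b e) (g a c d) (g a c e) (g a b c) (g d e f) (g b d f) (g b e f) (g c d f) (g c e f) (g b c f) (g a d f) (g a e f) (g a b f) (g a c f) = true) :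
    1 ≤ JP (TF g) ![a, b, c, d, e, f] := by
  refine JP_ge_one (TF g) _ ![3, 4, 1, 2, 0, 5] (by decide) ?_
  show cond (patB (g d e b) (g d e c) (g d b c) (g e b c) (g d e a) (g d b a) (g e b a) (g d c a) (g e c a) (g b c a) (g d e f) (g d b f) (g e b f) (g d c f) (g e c f) (g b c f) (g d a f) (g e a f) (g b a f) (g c a f)) 1 0 = 1
  have q0 : g d e b = g b d e := (hg.s23 d b e).trans (hg.s12 b d e)
  have q1 : g d e c = g c d e := (hg.s23 d c e).trans (hg.s12 c d e)
  have q2 : g d b c = g b c d := (hg.s12 b d c).trans (hg.s23 b c d)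
  have q3 : g e b c = g b c e := (hg.s12 b e c).trans (hg.s23 b c e)
  have q4 : g d e a = g a d e := (hg.s23 d a e).trans (hg.s12 a d e)
  have q5 : g d b a = g a b d := (hg.s12 b d a).trans ((hg.s23 b a d).trans (hg.s12 a b d))
  have q6 : g e b a = g a b e := (hg.s12 b e a).trans ((hg.s23 b a e).trans (hg.s12 a b e))
  have q7 : g d c a = g a c d := (hg.s12 c d a).trans ((hg.s23 c a d).trans (hg.s12 a c d))
  have q8 : g e c a = g a c e := (hg.s12 c e a).trans ((hg.s23 c a e).trans (hg.s12 a c e))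
  have q9 : g b c a = g a b c := (hg.s23 b a c).trans (hg.s12 a b c)
  have q10 : g d b f = g b d f := hg.s12 b d f
  have q11 : g e b f = g b e f := hg.s12 b e f
  have q12 : g d c f = g c d f := hg.s12 c d f
  have q13 : g e c f = g c e f := hg.s12 c e f
  have q14 : g d a f = g a d f := hg.s12 a d f
  have q15 : g e a f = g a e f := hg.s12 a e f
  have q16 : g b a f = g a b f := hg.s12 a b f
  have q17 : g c a f = g a c f := hg.s12 a c f
  rw [q0, q1, q2, q3, q4, q5, q6, q7, q8, q9, q10, q11, q12, q13, q14, q15, q16, q17, h]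
  rfl

theorem pat_7 (g : V → V → V → ℕ) (hg : Symm3 g) (a b c d e f : V)
    (h : patB (g a b f) (g a d f) (g a b d) (g b d f) (g a c f) (g a b c) (g b c f) (g a c d) (g c d f) (g b c d) (g a e f) (g a b e) (g b e f) (g a d e) (g d e f) (g b d e) (g a c e) (g c e f) (g b c e) (g c d e) = true) :
    1 ≤ JP (TF g) ![a, b, c, d, e, f] := by
  refine JP_ge_one (TF g) _ ![0, 5, 1, 3, 2, 4] (by decide) ?_
  show cond (patB (g a f b) (g a f d) (g a b d) (g f b d) (g a f c) (g a b c) (g f b c) (g a d c) (g f d c) (g b d c) (g a f e) (g a b e) (g f b e) (g a d e) (g f d e) (g b d e) (g a c e) (g f c e) (g b c e) (g d c e)) 1 0 = 1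
  have q0 : g a f b = g a b f := hg.s23 a b f
  have q1 : g a f d = g a d f := hg.s23 a d f
  have q2 : g f b d = g b d f := (hg.s12 b f d).trans (hg.s23 b d f)
  have q3 : g a f c = g a c f := hg.s23 a c f
  have q4 : g f b c = g b c f := (hg.s12 b f c).trans (hg.s23 b c f)
  have q5 : g a d c = g a c d := hg.s23 a c d
  have q6 : g f d c = g c d f := (hg.s12 d f c).trans ((hg.s23 d c f).trans (hg.s12 c d f))
  have q7 : g b d c = g b c d := hg.s23 b c d
  have q8 : g a f e = g a e f := hg.s23 a e f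
  have q9 : g f b e = g b e f := (hg.s12 b f e).trans (hg.s23 b e f)
  have q10 : g f d e = g d e f := (hg.s12 d f e).trans (hg.s23 d e f)
  have q11 : g f c e = g c e f := (hg.s12 c f e).trans (hg.s23 c e f)
  have q12 : g d c e = g c d e := hg.s12 c d e
  rw [q0, q1, q2, q3, q4, q5, q6, q7, q8, q9, q10, q11, q12, h]
  rfl

theorem pat_8 (g : V → V → V → ℕ) (hg : Symm3 g) (a b c d e f : V)
    (h : patB (g a b f) (g a e f) (g a b e) (g b e f) (g a c f) (g a b c) (g b c f) (g a c e) (g c e f) (g b c e) (g a d f) (g a b d) (g b d f) (g a d e) (g d e f) (g b d e) (g a c d) (g c d f) (g b c d) (g c d e) = true) :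
    1 ≤ JP (TF g) ![a, b, c, d, e, f] := by
  refine JP_ge_one (TF g) _ ![0, 5, 1, 4, 2, 3] (by decide) ?_
  show cond (patB (g a f b) (g a f e) (g a b e) (g f b e) (g a f c) (g a b c) (g f b c) (g a e c) (g f e c) (g b e c) (g a f d) (g a b d) (g f b d) (g a e d) (g f e d) (g b e d) (g a c d) (g f c d) (g b c d) (g e c d)) 1 0 = 1
  have q0 : g a f b = g a b f := hg.s23 a b f
  have q1 : g a f e = g a e f := hg.s23 a e f
  have q2 : g f b e = g b e f := (hg.s12 b f e).trans (hg.s23 b e f)
  have q3 : g a f c = g a c f := hg.s23 a c f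
  have q4 : g f b c = g b c f := (hg.s12 b f c).trans (hg.s23 b c f)
  have q5 : g a e c = g a c e := hg.s23 a c e
  have q6 : g f e c = g c e f := (hg.s12 e f c).trans ((hg.s23 e c f).trans (hg.s12 c e f))
  have q7 : g b e c = g b c e := hg.s23 b c e
  have q8 : g a f d = g a d f := hg.s23 a d f
  have q9 : g f b d = g b d f := (hg.s12 b f d).trans (hg.s23 b d f)
  have q10 : g a e d = g a d e := hg.s23 a d e
  have q11 : g f e d = g d e f := (hg.s12 e f d).trans ((hg.s23 e d f).trans (hg.s12 d e f))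
  have q12 : g b e d = g b d e := hg.s23 b d e
  have q13 : g f c d = g c d f := (hg.s12 c f d).trans (hg.s23 c d f)
  have q14 : g e c d = g c d e := (hg.s12 c e d).trans (hg.s23 c d e)
  rw [q0, q1, q2, q3, q4, q5, q6, q7, q8, q9, q10, q11, q12, q13, q14, h]
  rfl

theorem pat_9 (g : V → V → V → ℕ) (hg : Symm3 g) (a b c d e f : V)
    (h : patB (g a c f) (g a d f) (g a c d) (g c d f) (g a b f) (g a b c) (g b c f) (g a b d) (g b d f) (g b c d) (g a e f) (g a c e) (g c e f) (g a d e) (g d e f) (g c d e) (g a b e) (g b e f) (g b c e) (g b d e) = true) :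
    1 ≤ JP (TF g) ![a, b, c, d, e, f] := by
  refine JP_ge_one (TF g) _ ![0, 5, 2, 3, 1, 4] (by decide) ?_
  show cond (patB (g a f c) (g a f d) (g a c d) (g f c d) (g a f b) (g a c b) (g f c b) (g a d b) (g f d b) (g c d b) (g a f e) (g a c e) (g f c e) (g a d e) (g f d e) (g c d e) (g a b e) (g f b e) (g c b e) (g d b e)) 1 0 = 1
  have q0 : g a f c = g a c f := hg.s23 a c f
  have q1 : g a f d = g a d f := hg.s23 a d f
  have q2 : g f c d = g c d f := (hg.s12 c f d).trans (hg.s23 c d f)
  have q3 : g a f b = g a b f := hg.s23 a b f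
  have q4 : g a c b = g a b c := hg.s23 a b c
  have q5 : g f c b = g b c f := (hg.s12 c f b).trans ((hg.s23 c b f).trans (hg.s12 b c f))
  have q6 : g a d b = g a b d := hg.s23 a b d
  have q7 : g f d b = g b d f := (hg.s12 d f b).trans ((hg.s23 d b f).trans (hg.s12 b d f))
  have q8 : g c d b = g b c d := (hg.s23 c b d).trans (hg.s12 b c d)
  have q9 : g a f e = g a e f := hg.s23 a e f
  have q10 : g f c e = g c e f := (hg.s12 c f e).trans (hg.s23 c e f)
  have q11 : g f d e = g d e f := (hg.s12 d f e).trans (hg.s23 d e f)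
  have q12 : g f b e = g b e f := (hg.s12 b f e).trans (hg.s23 b e f)
  have q13 : g c b e = g b c e := hg.s12 b c e
  have q14 : g d b e = g b d e := hg.s12 b d e
  rw [q0, q1, q2, q3, q4, q5, q6, q7, q8, q9, q10, q11, q12, q13, q14, h]
  rfl

theorem pat_10 (g : V → V → V → ℕ) (hg : Symm3 g) (a b c d e f : V)
    (h : patB (g a c f) (g a e f) (g a c e) (g c e f) (g a b f) (g a b c) (g b c f) (g a b e) (g b e f) (g b c e) (g a d f) (g a c d) (g c d f) (g a d e) (g d e f) (g c d e) (g a b d) (g b d f) (g b c d) (g b d e) = true) :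
    1 ≤ JP (TF g) ![a, b, c, d, e, f] := by
  refine JP_ge_one (TF g) _ ![0, 5, 2, 4, 1, 3] (by decide) ?_
  show cond (patB (g a f c) (g a f e) (g a c e) (g f c e) (g a f b) (g a c b) (g f c b) (g a e b) (g f e b) (g c e b) (g a f d) (g a c d) (g f c d) (g a e d) (g f e d) (g c e d) (g a b d) (g f b d) (g c b d) (g e b d)) 1 0 = 1
  have q0 : g a f c = g a c f := hg.s23 a c f
  have q1 : g a f e = g a e f := hg.s23 a e f
  have q2 : g f c e = g c e f := (hg.s12 c f e).trans (hg.s23 c e f)
  have q3 : g a f b = g a b f := hg.s23 a b f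
  have q4 : g a c b = g a b c := hg.s23 a b c
  have q5 : g f c b = g b c f := (hg.s12 c f b).trans ((hg.s23 c b f).trans (hg.s12 b c f))
  have q6 : g a e b = g a b e := hg.s23 a b e
  have q7 : g f e b = g b e f := (hg.s12 e f b).trans ((hg.s23 e b f).trans (hg.s12 b e f))
  have q8 : g c e b = g b c e := (hg.s23 c b e).trans (hg.s12 b c e)
  have q9 : g a f d = g a d f := hg.s23 a d f
  have q10 : g f c d = g c d f := (hg.s12 c f d).trans (hg.s23 c d f)
  have q11 : g a e d = g a d e := hg.s23 a d e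
  have q12 : g f e d = g d e f := (hg.s12 e f d).trans ((hg.s23 e d f).trans (hg.s12 d e f))
  have q13 : g c e d = g c d e := hg.s23 c d e
  have q14 : g f b d = g b d f := (hg.s12 b f d).trans (hg.s23 b d f)
  have q15 : g c b d = g b c d := hg.s12 b c d
  have q16 : g e b d = g b d e := (hg.s12 b e d).trans (hg.s23 b d e)
  rw [q0, q1, q2, q3, q4, q5, q6, q7, q8, q9, q10, q11, q12, q13, q14, q15, q16, h]
  rfl

theorem pat_11 (g : V → V → V → ℕ) (hg : Symm3 g) (a b c d e f : V)
    (h : patB (g a d f) (g a e f) (g a d e) (g d e f) (g a b f) (g a b d) (g b d f) (g a b e) (g b e f) (g b d e) (g a c f) (g a c d) (g c d f) (g a c e) (g c e f) (g c d e) (g a b c) (g b c f) (g b c d) (g b c e) = true) :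
    1 ≤ JP (TF g) ![a, b, c, d, e, f] := by
  refine JP_ge_one (TF g) _ ![0, 5, 3, 4, 1, 2] (by decide) ?_
  show cond (patB (g a f d) (g a f e) (g a d e) (g f d e) (g a f b) (g a d b) (g f d b) (g a e b) (g f e b) (g d e b) (g a f c) (g a d c) (g f d c) (g a e c) (g f e c) (g d e c) (g a b c) (g f b c) (g d b c) (g e b c)) 1 0 = 1
  have q0 : g a f d = g a d f := hg.s23 a d f
  have q1 : g a f e = g a e f := hg.s23 a e f
  have q2 : g f d e = g d e f := (hg.s12 d f e).trans (hg.s23 d e f)
  have q3 : g a f b = g a b f := hg.s23 a b f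
  have q4 : g a d b = g a b d := hg.s23 a b d
  have q5 : g f d b = g b d f := (hg.s12 d f b).trans ((hg.s23 d b f).trans (hg.s12 b d f))
  have q6 : g a e b = g a b e := hg.s23 a b e
  have q7 : g f e b = g b e f := (hg.s12 e f b).trans ((hg.s23 e b f).trans (hg.s12 b e f))
  have q8 : g d e b = g b d e := (hg.s23 d b e).trans (hg.s12 b d e)
  have q9 : g a f c = g a c f := hg.s23 a c f
  have q10 : g a d c = g a c d := hg.s23 a c d
  have q11 : g f d c = g c d f := (hg.s12 d f c).trans ((hg.s23 d c f).trans (hg.s12 c d f))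
  have q12 : g a e c = g a c e := hg.s23 a c e
  have q13 : g f e c = g c e f := (hg.s12 e f c).trans ((hg.s23 e c f).trans (hg.s12 c e f))
  have q14 : g d e c = g c d e := (hg.s23 d c e).trans (hg.s12 c d e)
  have q15 : g f b c = g b c f := (hg.s12 b f c).trans (hg.s23 b c f)
  have q16 : g d b c = g b c d := (hg.s12 b d c).trans (hg.s23 b c d)
  have q17 : g e b c = g b c e := (hg.s12 b e c).trans (hg.s23 b c e)
  rw [q0, q1, q2, q3, q4, q5, q6, q7, q8, q9, q10, q11, q12, q13, q14, q15, q16, q17, h]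
  rfl

theorem pat_12 (g : V → V → V → ℕ) (hg : Symm3 g) (a b c d e f : V)
    (h : patB (g a b d) (g a b e) (g b d e) (g a d e) (g a b c) (g b c d) (g a c d) (g b c e) (g a c e) (g c d e) (g a b f) (g b d f) (g a d f) (g b e f) (g a e f) (g d e f) (g b c f) (g a c f) (g c d f) (g c e f) = true) :
    1 ≤ JP (TF g) ![a, b, c, d, e, f] := by
  refine JP_ge_one (TF g) _ ![1, 0, 3, 4, 2, 5] (by decide) ?_
  show cond (patB (g b a d) (g b a e) (g b d e) (g a d e) (g b a c) (g b d c) (g a d c) (g b e c) (g a e c) (g d e c) (g b a f) (g b d f) (g a d f) (g b e f) (g a e f) (g d e f) (g b c f) (g a c f) (g d c f) (g e c f)) 1 0 = 1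
  have q0 : g b a d = g a b d := hg.s12 a b d
  have q1 : g b a e = g a b e := hg.s12 a b e
  have q2 : g b a c = g a b c := hg.s12 a b c
  have q3 : g b d c = g b c d := hg.s23 b c d
  have q4 : g a d c = g a c d := hg.s23 a c d
  have q5 : g b e c = g b c e := hg.s23 b c e
  have q6 : g a e c = g a c e := hg.s23 a c e
  have q7 : g d e c = g c d e := (hg.s23 d c e).trans (hg.s12 c d e)
  have q8 : g b a f = g a b f := hg.s12 a b f
  have q9 : g d c f = g c d f := hg.s12 c d f
  have q10 : g e c f = g c e f := hg.s12 c e f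
  rw [q0, q1, q2, q3, q4, q5, q6, q7, q8, q9, q10, h]
  rfl

theorem pat_13 (g : V → V → V → ℕ) (hg : Symm3 g) (a b c d e f : V)
    (h : patB (g a b c) (g b c f) (g a b f) (g a c f) (g b c d) (g a b d) (g a c d) (g b d f) (g c d f) (g a d f) (g b c e) (g a b e) (g a c e) (g b e f) (g c e f) (g a e f) (g b d e) (g c d e) (g a d e) (g d e f) = true) :
    1 ≤ JP (TF g) ![a, b, c, d, e, f] := by
  refine JP_ge_one (TF g) _ ![1, 2, 0, 5, 3, 4] (by decide) ?_
  show cond (patB (g b c a) (g b c f) (g b a f) (g c a f) (g b c d) (g b a d) (g c a d) (g b f d) (g c f d) (g a f d) (g b c e) (g b a e) (g c a e) (g b f e) (g c f e) (g a f e) (g b d e) (g c d e) (g a d e) (g f d e)) 1 0 = 1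
  have q0 : g b c a = g a b c := (hg.s23 b a c).trans (hg.s12 a b c)
  have q1 : g b a f = g a b f := hg.s12 a b f
  have q2 : g c a f = g a c f := hg.s12 a c f
  have q3 : g b a d = g a b d := hg.s12 a b d
  have q4 : g c a d = g a c d := hg.s12 a c d
  have q5 : g b f d = g b d f := hg.s23 b d f
  have q6 : g c f d = g c d f := hg.s23 c d f
  have q7 : g a f d = g a d f := hg.s23 a d f
  have q8 : g b a e = g a b e := hg.s12 a b e
  have q9 : g c a e = g a c e := hg.s12 a c e
  have q10 : g b f e = g b e f := hg.s23 b e f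
  have q11 : g c f e = g c e f := hg.s23 c e f
  have q12 : g a f e = g a e f := hg.s23 a e f
  have q13 : g f d e = g d e f := (hg.s12 d f e).trans (hg.s23 d e f)
  rw [q0, q1, q2, q3, q4, q5, q6, q7, q8, q9, q10, q11, q12, q13, h]
  rfl

theorem pat_14 (g : V → V → V → ℕ) (hg : Symm3 g) (a b c d e f : V)
    (h : patB (g c d e) (g d e f) (g c d f) (g c e f) (g a d e) (g a c d) (g a c e) (g a d f) (g a e f) (g a c f) (g b d e) (g b c d) (g b c e) (g b d f) (g b e f) (g b c f) (g a b d) (g a b e) (g a b c) (g a b f) = true) :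
    1 ≤ JP (TF g) ![a, b, c, d, e, f] := by
  refine JP_ge_one (TF g) _ ![3, 4, 2, 5, 0, 1] (by decide) ?_
  show cond (patB (g d e c) (g d e f) (g d c f) (g e c f) (g d e a) (g d c a) (g e c a) (g d f a) (g e f a) (g c f a) (g d e b) (g d c b) (g e c b) (g d f b) (g e f b) (g c f b) (g d a b) (g e a b) (g c a b) (g f a b)) 1 0 = 1
  have q0 : g d e c = g c d e := (hg.s23 d c e).trans (hg.s12 c d e)
  have q1 : g d c f = g c d f := hg.s12 c d f
  have q2 : g e c f = g c e f := hg.s12 c e f
  have q3 : g d e a = g a d e := (hg.s23 d a e).trans (hg.s12 a d e)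
  have q4 : g d c a = g a c d := (hg.s12 c d a).trans ((hg.s23 c a d).trans (hg.s12 a c d))
  have q5 : g e c a = g a c e := (hg.s12 c e a).trans ((hg.s23 c a e).trans (hg.s12 a c e))
  have q6 : g d f a = g a d f := (hg.s23 d a f).trans (hg.s12 a d f)
  have q7 : g e f a = g a e f := (hg.s23 e a f).trans (hg.s12 a e f)
  have q8 : g c f a = g a c f := (hg.s23 c a f).trans (hg.s12 a c f)
  have q9 : g d e b = g b d e := (hg.s23 d b e).trans (hg.s12 b d e)
  have q10 : g d c b = g b c d := (hg.s12 c d b).trans ((hg.s23 c b d).trans (hg.s12 b c d))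
  have q11 : g e c b = g b c e := (hg.s12 c e b).trans ((hg.s23 c b e).trans (hg.s12 b c e))
  have q12 : g d f b = g b d f := (hg.s23 d b f).trans (hg.s12 b d f)
  have q13 : g e f b = g b e f := (hg.s23 e b f).trans (hg.s12 b e f)
  have q14 : g c f b = g b c f := (hg.s23 c b f).trans (hg.s12 b c f)
  have q15 : g d a b = g a b d := (hg.s12 a d b).trans (hg.s23 a b d)
  have q16 : g e a b = g a b e := (hg.s12 a e b).trans (hg.s23 a b e)
  have q17 : g c a b = g a b c := (hg.s12 a c b).trans (hg.s23 a b c)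
  have q18 : g f a b = g a b f := (hg.s12 a f b).trans (hg.s23 a b f)
  rw [q0, q1, q2, q3, q4, q5, q6, q7, q8, q9, q10, q11, q12, q13, q14, q15, q16, q17, q18, h]
  rfl

theorem pat_15 (g : V → V → V → ℕ) (hg : Symm3 g) (a b c d e f : V)
    (h : patB (g b d e) (g c d e) (g b c e) (g b c d) (g a d e) (g a b e) (g a b d) (g a c e) (g a c d) (g a b c) (g d e f) (g b e f) (g b d f) (g c e f) (g c d f) (g b c f) (g a e f) (g a d f) (g a b f) (g a c f) = true) :
    1 ≤ JP (TF g) ![a, b, c, d, e, f] := by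
  refine JP_ge_one (TF g) _ ![4, 3, 1, 2, 0, 5] (by decide) ?_
  show cond (patB (g e d b) (g e d c) (g e b c) (g d b c) (g e d a) (g e b a) (g d b a) (g e c a) (g d c a) (g b c a) (g e d f) (g e b f) (g d b f) (g e c f) (g d c f) (g b c f) (g e a f) (g d a f) (g b a f) (g c a f)) 1 0 = 1
  have q0 : g e d b = g b d e := (hg.s12 d e b).trans ((hg.s23 d b e).trans (hg.s12 b d e))
  have q1 : g e d c = g c d e := (hg.s12 d e c).trans ((hg.s23 d c e).trans (hg.s12 c d e))
  have q2 : g e b c = g b c e := (hg.s12 b e c).trans (hg.s23 b c e)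
  have q3 : g d b c = g b c d := (hg.s12 b d c).trans (hg.s23 b c d)
  have q4 : g e d a = g a d e := (hg.s12 d e a).trans ((hg.s23 d a e).trans (hg.s12 a d e))
  have q5 : g e b a = g a b e := (hg.s12 b e a).trans ((hg.s23 b a e).trans (hg.s12 a b e))
  have q6 : g d b a = g a b d := (hg.s12 b d a).trans ((hg.s23 b a d).trans (hg.s12 a b d))
  have q7 : g e c a = g a c e := (hg.s12 c e a).trans ((hg.s23 c a e).trans (hg.s12 a c e))
  have q8 : g d c a = g a c d := (hg.s12 c d a).trans ((hg.s23 c a d).trans (hg.s12 a c d))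
  have q9 : g b c a = g a b c := (hg.s23 b a c).trans (hg.s12 a b c)
  have q10 : g e d f = g d e f := hg.s12 d e f
  have q11 : g e b f = g b e f := hg.s12 b e f
  have q12 : g d b f = g b d f := hg.s12 b d f
  have q13 : g e c f = g c e f := hg.s12 c e f
  have q14 : g d c f = g c d f := hg.s12 c d f
  have q15 : g e a f = g a e f := hg.s12 a e f
  have q16 : g d a f = g a d f := hg.s12 a d f
  have q17 : g b a f = g a b f := hg.s12 a b f
  have q18 : g c a f = g a c f := hg.s12 a c f
  rw [q0, q1, q2, q3, q4, q5, q6, q7, q8, q9, q10, q11, q12, q13, q14, q15, q16, q17, q18, h]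
  rfl

theorem pat_16 (g : V → V → V → ℕ) (hg : Symm3 g) (a b c d e f : V)
    (h : patB (g a b f) (g a c f) (g b c f) (g a b c) (g a d f) (g b d f) (g a b d) (g c d f) (g a c d) (g b c d) (g a e f) (g b e f) (g a b e) (g c e f) (g a c e) (g b c e) (g d e f) (g a d e) (g b d e) (g c d e) = true) :
    1 ≤ JP (TF g) ![a, b, c, d, e, f] := by
  refine JP_ge_one (TF g) _ ![5, 0, 1, 2, 3, 4] (by decide) ?_
  show cond (patB (g f a b) (g f a c) (g f b c) (g a b c) (g f a d) (g f b d) (g a b d) (g f c d) (g a c d) (g b c d) (g f a e) (g f b e) (g a b e) (g f c e) (g a c e) (g b c e) (g f d e) (g a d e) (g b d e) (g c d e)) 1 0 = 1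
  have q0 : g f a b = g a b f := (hg.s12 a f b).trans (hg.s23 a b f)
  have q1 : g f a c = g a c f := (hg.s12 a f c).trans (hg.s23 a c f)
  have q2 : g f b c = g b c f := (hg.s12 b f c).trans (hg.s23 b c f)
  have q3 : g f a d = g a d f := (hg.s12 a f d).trans (hg.s23 a d f)
  have q4 : g f b d = g b d f := (hg.s12 b f d).trans (hg.s23 b d f)
  have q5 : g f c d = g c d f := (hg.s12 c f d).trans (hg.s23 c d f)
  have q6 : g f a e = g a e f := (hg.s12 a f e).trans (hg.s23 a e f)
  have q7 : g f b e = g b e f := (hg.s12 b f e).trans (hg.s23 b e f)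
  have q8 : g f c e = g c e f := (hg.s12 c f e).trans (hg.s23 c e f)
  have q9 : g f d e = g d e f := (hg.s12 d f e).trans (hg.s23 d e f)
  rw [q0, q1, q2, q3, q4, q5, q6, q7, q8, q9, h]
  rfl

theorem patAny_sound (g : V → V → V → ℕ) (hg : Symm3 g) (a b c d e f : V)
    (h : patAny (g a b c) (g a b d) (g a c d) (g b c d) (g a b e) (g a c e) (g b c e) (g a d e) (g b d e) (g c d e) (g a b f) (g a c f) (g b c f) (g a d f) (g b d f) (g c d f) (g a e f) (g b e f) (g c e f) (g d e f) = true) : 1 ≤ JP (TF g) ![a, b, c, d, e, f] := by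
  unfold patAny at h
  rw [Bool.or_eq_true] at h
  rcases h with h | h
  · exact pat_0 g hg a b c d e f h
  rw [Bool.or_eq_true] at h
  rcases h with h | h
  · exact pat_1 g hg a b c d e f h
  rw [Bool.or_eq_true] at h
  rcases h with h | h
  · exact pat_2 g hg a b c d e f h
  rw [Bool.or_eq_true] at h
  rcases h with h | h
  · exact pat_3 g hg a b c d e f h
  rw [Bool.or_eq_true] at h
  rcases h with h | h
  · exact pat_4 g hg a b c d e f h
  rw [Bool.or_eq_true] at h
  rcases h with h | h
  · exact pat_5 g hg a b c d e f h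
  rw [Bool.or_eq_true] at h
  rcases h with h | h
  · exact pat_6 g hg a b c d e f h
  rw [Bool.or_eq_true] at h
  rcases h with h | h
  · exact pat_7 g hg a b c d e f h
  rw [Bool.or_eq_true] at h
  rcases h with h | h
  · exact pat_8 g hg a b c d e f h
  rw [Bool.or_eq_true] at h
  rcases h with h | h
  · exact pat_9 g hg a b c d e f h
  rw [Bool.or_eq_true] at h
  rcases h with h | h
  · exact pat_10 g hg a b c d e f h
  rw [Bool.or_eq_true] at h
  rcases h with h | h
  · exact pat_11 g hg a b c d e f h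
  rw [Bool.or_eq_true] at h
  rcases h with h | h
  · exact pat_12 g hg a b c d e f h
  rw [Bool.or_eq_true] at h
  rcases h with h | h
  · exact pat_13 g hg a b c d e f h
  rw [Bool.or_eq_true] at h
  rcases h with h | h
  · exact pat_14 g hg a b c d e f h
  rw [Bool.or_eq_true] at h
  rcases h with h | h
  · exact pat_15 g hg a b c d e f h
  exact pat_16 g hg a b c d e f h

variable [Fintype V]

theorem hK (τ : ℕ) (F : V → ℕ) :
    (off : ℤ) * (Fintype.card V : ℤ) ^ 2 ≤ ∑ u, ∑ v, (KN τ (F u) (F v) : ℤ) := by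
  have hconst : ∑ _u : V, ∑ _v : V, (off : ℤ) = (off : ℤ) * (Fintype.card V : ℤ) ^ 2 := by
    simp only [Finset.sum_const, Finset.card_univ, nsmul_eq_mul]
    ring
  by_cases h3 : ty τ = 3
  · have h := psd3 (fun u => rho τ (F u)) (fun u => rho_lt τ (F u))
    have e : ∀ u v : V, (KN τ (F u) (F v) : ℤ) = M3 (rho τ (F u)) (rho τ (F v)) + (off : ℤ) := by
      intro u v
      have : KN τ (F u) (F v)
          = tb2 T3 23 8388607 1472 rm (rho τ (F u)) (rho τ (F v)) := by
        unfold KN
        rw [h3]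
        rfl
      rw [this]
      unfold M3 off
      push_cast
      ring
    simp only [e, Finset.sum_add_distrib]
    rw [hconst]
    linarith
  · by_cases h4 : ty τ = 4
    · have h := psd7 (fun u => rho τ (F u)) (fun u => rho_lt τ (F u))
      have e : ∀ u v : V, (KN τ (F u) (F v) : ℤ) = M7 (rho τ (F u)) (rho τ (F v)) + (off : ℤ) := by
        intro u v
        have : KN τ (F u) (F v)
            = tb2 T7 23 8388607 1472 rm (rho τ (F u)) (rho τ (F v)) := by
          unfold KN
          rw [h4]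
          rfl
        rw [this]
        unfold M7 off
        push_cast
        ring
      simp only [e, Finset.sum_add_distrib]
      rw [hconst]
      linarith
    · have e : ∀ u v : V, (KN τ (F u) (F v) : ℤ) = (off : ℤ) := by
        intro u v
        have a3 : Nat.beq (ty τ) 3 = false := by
          rw [Bool.eq_false_iff]
          intro h
          exact h3 (Nat.eq_of_beq_eq_true h)
        have a4 : Nat.beq (ty τ) 4 = false := by
          rw [Bool.eq_false_iff]
          intro h
          exact h4 (Nat.eq_of_beq_eq_true h)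
        have : KN τ (F u) (F v) = off := by
          unfold KN
          rw [a3, a4]
          rfl
        rw [this]
      simp only [e]
      rw [hconst]

theorem hM (F : V × V → ℕ) (hF : ∀ u, F u < 16) :
    (off : ℤ) * (Fintype.card V : ℤ) ^ 4 ≤ ∑ u, ∑ v, (MN (F u) (F v) : ℤ) := by
  have h := psdM F hF
  have e : ∀ u v : V × V, (MN (F u) (F v) : ℤ) = MM (F u) (F v) + (off : ℤ) := by
    intro u v
    unfold MN MM off
    push_cast
    ring
  simp only [e, Finset.sum_add_distrib]
  have hconst : ∑ _u : V × V, ∑ _v : V × V, (off : ℤ) = (off : ℤ) * (Fintype.card V : ℤ) ^ 4 := by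
    simp only [Finset.sum_const, Finset.card_univ, nsmul_eq_mul, Fintype.card_prod]
    push_cast
    ring
  rw [hconst]
  linarith

/-- the density bound with the number of copies of the second pattern -/
theorem main (g : V → V → V → ℕ) (hb : ∀ a b c, g a b c = 0 ∨ g a b c = 1) (hg : Symm3 g)
    (h4 : ∀ a b c d, ix4 (g a b c) (g a b d) (g a c d) (g b c d) ≠ 15) :
    9 * ((Fintype.card V : ℤ) ^ 3 * (EE g : ℤ)) ≤ 5 * (Fintype.card V : ℤ) ^ 6
      + 1296 * ((∑ x : Fin 6 → V, TF g x : ℕ) : ℤ) := by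
  refine mainP KN MN phi off C0 CC1 CC1 200000 90000 patAny (TF g) c01 c12 c23 c45 d01 d23 d45 dpp
    good hK hM hphi (by norm_num [C0, off]) (by norm_num) (by norm_num [CC1]) (by norm_num)
    g hb hg h4 ?_
  intro a b c d e f h
  exact Nat.le_mul_of_pos_right _ (patAny_sound g hg a b c d e f h)

end Pool.Agent.H77Lp.P2
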