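import Pool.Agent.H77Lp.Link63
import Pool.Agent.H77Lp.Link62
import Pool.Agent.H77Lp.Link60
import Pool.Agent.H77Lp.Link30
import Pool.Agent.H77Lp.Link52
import Pool.Agent.H77Lp.Link56
import Pool.Agent.H77Lp.Link32
import Pool.Agent.H77Lp.Link0
import Pool.Agent.H77Lp.PointP
import Pool.Agent.H6Turan.FinalA

set_option autoImplicit false

/-!
# The density bound for each of the eleven graphs on four vertices
-/

namespace Pool.Agent.H77Lp

open Pool.Agent.H6Turan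

variable {V : Type*} [Fintype V]

/-- if `S` at `x` forces the link code `c` at a reordering of `x`, then the sums compare -/
theorem sum_le_TL (c : ℕ) (g : V → V → V → ℕ) (S : (Fin 6 → V) → ℕ) (p : Fin 6 → Fin 6)
    (hp : Function.Bijective p) (h1 : ∀ x, S x = 0 ∨ S x = 1)
    (h : ∀ x, S x = 1 → lk g (x (p 0)) (x (p 1)) (x (p 2)) (x (p 3)) (x (p 4)) = c) :
    ∑ x, S x ≤ ∑ x, TL c g x := by
  have e : ∑ x : Fin 6 → V, TL c g (fun i => x (p i)) = ∑ x : Fin 6 → V, TL c g x :=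
    sum_perm (fun x => TL c g x) p hp
  rw [← e]
  refine Finset.sum_le_sum (fun x _ => ?_)
  rcases h1 x with h' | h'
  · rw [h']
    exact Nat.zero_le _
  · rw [h']
    unfold TL
    rw [h x h', beq_self']
    exact le_refl _

omit [Fintype V] in
theorem lk_eq {g : V → V → V → ℕ} {v a b c d : V} {b0 b1 b2 b3 b4 b5 : ℕ}
    (h0 : g v a b = b0) (h1 : g v a c = b1) (h2 : g v b c = b2) (h3 : g v a d = b3)
    (h4 : g v b d = b4) (h5 : g v c d = b5) : lk g v a b c d = ix6 b0 b1 b2 b3 b4 b5 := by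
  unfold lk
  rw [h0, h1, h2, h3, h4, h5]

theorem bound26 (g : V → V → V → ℕ) (hg : Symm3 g) :
    (∑ x : Fin 6 → V, Pool.Agent.H6Turan.A.IV g (x 0) (x 1) (x 2) (x 3) (x 4) (x 5)
      ≤ ∑ x, TL 26 g x) ∧
    (∑ x : Fin 6 → V, Pool.Agent.H6Turan.A.IV g (x 0) (x 1) (x 2) (x 3) (x 4) (x 5)
      ≤ ∑ x, TL 18 g x) := by
  have hI : ∀ x : Fin 6 → V,
      Pool.Agent.H6Turan.A.IV g (x 0) (x 1) (x 2) (x 3) (x 4) (x 5) = 0 ∨
      Pool.Agent.H6Turan.A.IV g (x 0) (x 1) (x 2) (x 3) (x 4) (x 5) = 1 := by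
    intro x
    unfold Pool.Agent.H6Turan.A.IV
    cases Pool.Agent.H6Turan.A.patB (g (x 0) (x 1) (x 2)) (g (x 0) (x 1) (x 3)) (g (x 0) (x 2) (x 3))
      (g (x 1) (x 2) (x 3)) (g (x 0) (x 1) (x 4)) (g (x 0) (x 2) (x 4))
      (g (x 1) (x 2) (x 4)) (g (x 0) (x 3) (x 4)) (g (x 1) (x 3) (x 4))
      (g (x 2) (x 3) (x 4)) (g (x 0) (x 1) (x 5)) (g (x 0) (x 2) (x 5))
      (g (x 1) (x 2) (x 5)) (g (x 0) (x 3) (x 5)) (g (x 1) (x 3) (x 5))
      (g (x 2) (x 3) (x 5)) (g (x 0) (x 4) (x 5)) (g (x 1) (x 4) (x 5))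
      (g (x 2) (x 4) (x 5)) (g (x 3) (x 4) (x 5))
    · exact Or.inl rfl
    · exact Or.inr rfl
  have hbits : ∀ x : Fin 6 → V,
      Pool.Agent.H6Turan.A.IV g (x 0) (x 1) (x 2) (x 3) (x 4) (x 5) = 1 →
      (g (x 0) (x 3) (x 4) = 0 ∧ g (x 3) (x 4) (x 5) = 0 ∧ g (x 1) (x 4) (x 5) = 0 ∧
        g (x 0) (x 4) (x 5) = 1 ∧ g (x 0) (x 1) (x 4) = 1 ∧ g (x 1) (x 3) (x 4) = 1) ∧
      (g (x 0) (x 2) (x 4) = 0 ∧ g (x 0) (x 3) (x 5) = 0 ∧ g (x 0) (x 2) (x 5) = 0 ∧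
        g (x 0) (x 2) (x 3) = 1) := by
    intro x h
    have hp : Pool.Agent.H6Turan.A.patB (g (x 0) (x 1) (x 2)) (g (x 0) (x 1) (x 3)) (g (x 0) (x 2) (x 3))
      (g (x 1) (x 2) (x 3)) (g (x 0) (x 1) (x 4)) (g (x 0) (x 2) (x 4))
      (g (x 1) (x 2) (x 4)) (g (x 0) (x 3) (x 4)) (g (x 1) (x 3) (x 4))
      (g (x 2) (x 3) (x 4)) (g (x 0) (x 1) (x 5)) (g (x 0) (x 2) (x 5))
      (g (x 1) (x 2) (x 5)) (g (x 0) (x 3) (x 5)) (g (x 1) (x 3) (x 5))
      (g (x 2) (x 3) (x 5)) (g (x 0) (x 4) (x 5)) (g (x 1) (x 4) (x 5))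
      (g (x 2) (x 4) (x 5)) (g (x 3) (x 4) (x 5)) = true := by
      unfold Pool.Agent.H6Turan.A.IV at h
      by_contra hne
      rw [Bool.not_eq_true] at hne
      rw [hne] at h
      exact absurd h (by decide)
    unfold Pool.Agent.H6Turan.A.patB at hp
    simp only [Bool.and_eq_true] at hp
    obtain ⟨t012, t013, t023, t123, t014, t024, t124, t034, t134, t234, t015, t025, t125, t035,
      t135, t235, t045, t145, t345⟩ := hp
    exact ⟨⟨Nat.eq_of_beq_eq_true t034, Nat.eq_of_beq_eq_true t345, Nat.eq_of_beq_eq_true t145,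
      Nat.eq_of_beq_eq_true t045, Nat.eq_of_beq_eq_true t014, Nat.eq_of_beq_eq_true t134⟩,
      Nat.eq_of_beq_eq_true t024, Nat.eq_of_beq_eq_true t035, Nat.eq_of_beq_eq_true t025,
      Nat.eq_of_beq_eq_true t023⟩
  have r : ∀ a b c, g c a b = g a b c := fun a b c => (hg.s12 a c b).trans (hg.s23 a b c)
  have r' : ∀ a b c, g b a c = g a b c := fun a b c => hg.s12 a b c
  have r2 : ∀ a b c, g c b a = g a b c := fun a b c =>
    (hg.s12 b c a).trans ((hg.s23 b a c).trans (hg.s12 a b c))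
  have r3 : ∀ a b c, g b c a = g a b c := fun a b c => (hg.s23 b a c).trans (hg.s12 a b c)
  constructor
  · refine sum_le_TL 26 g _ ![4, 0, 3, 5, 1, 2] (by decide) hI (fun x hx => ?_)
    obtain ⟨⟨h034, h345, h145, h045, h014, h134⟩, -⟩ := hbits x hx
    show lk g (x 4) (x 0) (x 3) (x 5) (x 1) = 26
    rw [lk_eq (b0 := 0) (b1 := 1) (b2 := 0) (b3 := 1) (b4 := 1) (b5 := 0)
      ((r _ _ _).trans h034) ((r' _ _ _).trans h045) ((r' _ _ _).trans h345)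
      ((r _ _ _).trans h014) ((r _ _ _).trans ((hg.s12 _ _ _).trans h134))
      ((r3 _ _ _).trans h145)]
    rfl
  · refine sum_le_TL 18 g _ ![0, 2, 4, 3, 5, 1] (by decide) hI (fun x hx => ?_)
    obtain ⟨⟨h034, -, -, h045, -, -⟩, h024, h035, h025, h023⟩ := hbits x hx
    show lk g (x 0) (x 2) (x 4) (x 3) (x 5) = 18
    rw [lk_eq (b0 := 0) (b1 := 1) (b2 := 0) (b3 := 0) (b4 := 1) (b5 := 0)
      h024 h023 ((hg.s23 _ _ _).trans h034) h025 h045 h035]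
    rfl

theorem bound24 (g : V → V → V → ℕ) (hg : Symm3 g) :
    ∑ x : Fin 6 → V, P2.TF g x ≤ ∑ x, TL 24 g x := by
  have hI : ∀ x : Fin 6 → V, P2.TF g x = 0 ∨ P2.TF g x = 1 := by
    intro x
    unfold P2.TF
    cases P2.patB (g (x 0) (x 1) (x 2)) (g (x 0) (x 1) (x 3)) (g (x 0) (x 2) (x 3))
      (g (x 1) (x 2) (x 3)) (g (x 0) (x 1) (x 4)) (g (x 0) (x 2) (x 4))
      (g (x 1) (x 2) (x 4)) (g (x 0) (x 3) (x 4)) (g (x 1) (x 3) (x 4))
      (g (x 2) (x 3) (x 4)) (g (x 0) (x 1) (x 5)) (g (x 0) (x 2) (x 5))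
      (g (x 1) (x 2) (x 5)) (g (x 0) (x 3) (x 5)) (g (x 1) (x 3) (x 5))
      (g (x 2) (x 3) (x 5)) (g (x 0) (x 4) (x 5)) (g (x 1) (x 4) (x 5))
      (g (x 2) (x 4) (x 5)) (g (x 3) (x 4) (x 5))
    · exact Or.inl rfl
    · exact Or.inr rfl
  refine sum_le_TL 24 g _ ![4, 2, 3, 5, 1, 0] (by decide) hI (fun x hx => ?_)
  show lk g (x 4) (x 2) (x 3) (x 5) (x 1) = 24
  have hp : P2.patB (g (x 0) (x 1) (x 2)) (g (x 0) (x 1) (x 3)) (g (x 0) (x 2) (x 3))
      (g (x 1) (x 2) (x 3)) (g (x 0) (x 1) (x 4)) (g (x 0) (x 2) (x 4))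
      (g (x 1) (x 2) (x 4)) (g (x 0) (x 3) (x 4)) (g (x 1) (x 3) (x 4))
      (g (x 2) (x 3) (x 4)) (g (x 0) (x 1) (x 5)) (g (x 0) (x 2) (x 5))
      (g (x 1) (x 2) (x 5)) (g (x 0) (x 3) (x 5)) (g (x 1) (x 3) (x 5))
      (g (x 2) (x 3) (x 5)) (g (x 0) (x 4) (x 5)) (g (x 1) (x 4) (x 5))
      (g (x 2) (x 4) (x 5)) (g (x 3) (x 4) (x 5)) = true := by
    unfold P2.TF at hx
    by_contra hne
    rw [Bool.not_eq_true] at hne
    rw [hne] at hx
    exact absurd hx (by decide)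
  unfold P2.patB at hp
  simp only [Bool.and_eq_true] at hp
  obtain ⟨t012, t013, t023, t123, t014, t024, t124, t034, t134, t234, t015, t025, t125, t035,
    t135, t235, t145, t245, t345⟩ := hp
  have h234 := Nat.eq_of_beq_eq_true t234
  have h245 := Nat.eq_of_beq_eq_true t245
  have h345 := Nat.eq_of_beq_eq_true t345
  have h124 := Nat.eq_of_beq_eq_true t124
  have h134 := Nat.eq_of_beq_eq_true t134
  have h145 := Nat.eq_of_beq_eq_true t145
  have r : ∀ a b c, g c a b = g a b c := fun a b c => (hg.s12 a c b).trans (hg.s23 a b c)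
  have r' : ∀ a b c, g b a c = g a b c := fun a b c => hg.s12 a b c
  have r2 : ∀ a b c, g c b a = g a b c := fun a b c =>
    (hg.s12 b c a).trans ((hg.s23 b a c).trans (hg.s12 a b c))
  have r3 : ∀ a b c, g b c a = g a b c := fun a b c => (hg.s23 b a c).trans (hg.s12 a b c)
  rw [lk_eq (b0 := 0) (b1 := 0) (b2 := 0) (b3 := 1) (b4 := 1) (b5 := 0)
    ((r _ _ _).trans h234) ((r' _ _ _).trans h245) ((r' _ _ _).trans h345)
    ((r2 _ _ _).trans h124) ((r2 _ _ _).trans h134) ((r3 _ _ _).trans h145)]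
  rfl

/-- the codes of the eleven graphs on four vertices, up to isomorphism -/
def codes11 : List ℕ := [63, 62, 60, 30, 52, 56, 32, 0, 26, 18, 24]

/-- the density bound with the number of copies in the links, for all graphs on four vertices -/
theorem all_links (g : V → V → V → ℕ) (hb : ∀ a b c, g a b c = 0 ∨ g a b c = 1) (hg : Symm3 g)
    (h4 : ∀ a b c d, ix4 (g a b c) (g a b d) (g a c d) (g b c d) ≠ 15) (c : ℕ)
    (hc : c ∈ codes11) :
    9 * ((Fintype.card V : ℤ) ^ 3 * (EE g : ℤ)) ≤ 5 * (Fintype.card V : ℤ) ^ 6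
      + 1296 * ((∑ x : Fin 6 → V, TL c g x : ℕ) : ℤ) := by
  unfold codes11 at hc
  simp only [List.mem_cons, List.not_mem_nil, or_false] at hc
  rcases hc with rfl | rfl | rfl | rfl | rfl | rfl | rfl | rfl | rfl | rfl | rfl
  · exact L63.main g hb hg h4
  · exact L62.main g hb hg h4
  · exact L60.main g hb hg h4
  · exact L30.main g hb hg h4
  · exact L52.main g hb hg h4
  · exact L56.main g hb hg h4
  · exact L32.main g hb hg h4
  · exact L0.main g hb hg h4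
  · have h1 := Pool.Agent.H6Turan.A.main g hb hg h4
    have h2 := (bound26 g hg).1
    have h3 : ((∑ x : Fin 6 → V,
      Pool.Agent.H6Turan.A.IV g (x 0) (x 1) (x 2) (x 3) (x 4) (x 5) : ℕ) : ℤ)
      ≤ ((∑ x : Fin 6 → V, TL 26 g x : ℕ) : ℤ) := by exact_mod_cast h2
    linarith
  · have h1 := Pool.Agent.H6Turan.A.main g hb hg h4
    have h2 := (bound26 g hg).2
    have h3 : ((∑ x : Fin 6 → V,
      Pool.Agent.H6Turan.A.IV g (x 0) (x 1) (x 2) (x 3) (x 4) (x 5) : ℕ) : ℤ)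
      ≤ ((∑ x : Fin 6 → V, TL 18 g x : ℕ) : ℤ) := by exact_mod_cast h2
    linarith
  · have h1 := P2.main g hb hg h4
    have h2 := bound24 g hg
    have h3 : ((∑ x : Fin 6 → V, P2.TF g x : ℕ) : ℤ)
      ≤ ((∑ x : Fin 6 → V, TL 24 g x : ℕ) : ℤ) := by exact_mod_cast h2
    linarith

end Pool.Agent.H77Lp
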