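import Pool.Agent.H77Lp.PointA
import Pool.Agent.H77Lp.PointV
import Pool.Agent.H77Lp.PointB

set_option autoImplicit false

/-!
# The three certificates as inequalities for polynomials of the normalised codegree
-/

namespace Pool.Agent.H77Lp

open Pool.Agent.H6Turan

/-- the quartic with values `0, 1` and derivatives `s1, s2` at `1, 2`, plus a multiple of the
quartic with double zeros at `1, 2` -/
noncomputable def Qh (s1 s2 sg x : ℝ) : ℝ :=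
  (-2 * x ^ 3 + 9 * x ^ 2 - 12 * x + 5) + s1 * (x ^ 3 - 5 * x ^ 2 + 8 * x - 4)
    + s2 * (x ^ 3 - 4 * x ^ 2 + 5 * x - 2) + sg * (x ^ 4 - 6 * x ^ 3 + 13 * x ^ 2 - 12 * x + 4)

variable {V : Type*} [Fintype V]

/-- the codegree -/
def cdg (g : V → V → V → ℕ) (a b : V) : ℕ := ∑ c, g a b c

/-- the codegree, normalised so that its two values in Turán's construction are `1` and `2` -/
noncomputable def xg (g : V → V → V → ℕ) (a b : V) : ℝ := 3 * (cdg g a b : ℝ) / (Fintype.card V : ℝ)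

theorem of_cert (g : V → V → V → ℕ) (hV : 0 < Fintype.card V) (δ0 δ1 δ2 δ3 δ4 cM : ℤ)
    (κ s1 s2 sg : ℝ) (hκ : 0 < κ)
    (hid : ∀ t : ℝ, (δ0 : ℝ) + 4 * δ1 * t + 6 * δ2 * t ^ 2 + 4 * δ3 * t ^ 3 + δ4 * t ^ 4
      = κ * Qh s1 s2 sg (3 * t) + (cM - 2 / 3 * κ))
    (h : ∑ a, ∑ b, (δ0 * (Fintype.card V : ℤ) ^ 4
        + 4 * δ1 * (Fintype.card V : ℤ) ^ 3 * (∑ c, (g a b c : ℤ))
        + 6 * δ2 * (Fintype.card V : ℤ) ^ 2 * (∑ c, (g a b c : ℤ)) ^ 2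
        + 4 * δ3 * (Fintype.card V : ℤ) * (∑ c, (g a b c : ℤ)) ^ 3
        + δ4 * (∑ c, (g a b c : ℤ)) ^ 4) ≤ cM * (Fintype.card V : ℤ) ^ 6) :
    ∑ a, ∑ b, Qh s1 s2 sg (xg g a b) ≤ 2 / 3 * (Fintype.card V : ℝ) ^ 2 := by
  have hn : (0 : ℝ) < (Fintype.card V : ℝ) := Nat.cast_pos.mpr hV
  set n : ℝ := (Fintype.card V : ℝ) with hn'
  have hR : ∑ a, ∑ b, ((δ0 : ℝ) * n ^ 4 + 4 * δ1 * n ^ 3 * (cdg g a b : ℝ)
      + 6 * δ2 * n ^ 2 * (cdg g a b : ℝ) ^ 2 + 4 * δ3 * n * (cdg g a b : ℝ) ^ 3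
      + δ4 * (cdg g a b : ℝ) ^ 4) ≤ cM * n ^ 6 := by
    have h' : ((∑ a, ∑ b, (δ0 * (Fintype.card V : ℤ) ^ 4
        + 4 * δ1 * (Fintype.card V : ℤ) ^ 3 * (∑ c, (g a b c : ℤ))
        + 6 * δ2 * (Fintype.card V : ℤ) ^ 2 * (∑ c, (g a b c : ℤ)) ^ 2
        + 4 * δ3 * (Fintype.card V : ℤ) * (∑ c, (g a b c : ℤ)) ^ 3
        + δ4 * (∑ c, (g a b c : ℤ)) ^ 4) : ℤ) : ℝ) ≤ ((cM * (Fintype.card V : ℤ) ^ 6 : ℤ) : ℝ) := by
      exact_mod_cast h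
    push_cast at h'
    unfold cdg
    push_cast
    exact h'
  have e : ∀ a b : V, (δ0 : ℝ) * n ^ 4 + 4 * δ1 * n ^ 3 * (cdg g a b : ℝ)
      + 6 * δ2 * n ^ 2 * (cdg g a b : ℝ) ^ 2 + 4 * δ3 * n * (cdg g a b : ℝ) ^ 3
      + δ4 * (cdg g a b : ℝ) ^ 4
      = n ^ 4 * κ * Qh s1 s2 sg (xg g a b) + n ^ 4 * (cM - 2 / 3 * κ) := by
    intro a b
    have h1 := hid ((cdg g a b : ℝ) / n)
    have h2 : xg g a b = 3 * ((cdg g a b : ℝ) / n) := by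
      unfold xg
      ring
    rw [h2]
    have h3 : (δ0 : ℝ) * n ^ 4 + 4 * δ1 * n ^ 3 * (cdg g a b : ℝ)
      + 6 * δ2 * n ^ 2 * (cdg g a b : ℝ) ^ 2 + 4 * δ3 * n * (cdg g a b : ℝ) ^ 3
      + δ4 * (cdg g a b : ℝ) ^ 4 = n ^ 4 * ((δ0 : ℝ) + 4 * δ1 * ((cdg g a b : ℝ) / n)
        + 6 * δ2 * ((cdg g a b : ℝ) / n) ^ 2 + 4 * δ3 * ((cdg g a b : ℝ) / n) ^ 3
        + δ4 * ((cdg g a b : ℝ) / n) ^ 4) := by
      field_simp
    rw [h3, h1]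
    ring
  simp only [e, Finset.sum_add_distrib, ← Finset.mul_sum, Finset.sum_const, Finset.card_univ,
    nsmul_eq_mul] at hR
  rw [← hn'] at hR
  have h4 : n ^ 4 * κ * ∑ a, ∑ b, Qh s1 s2 sg (xg g a b) ≤ n ^ 4 * κ * (2 / 3 * n ^ 2) := by
    nlinarith
  exact le_of_mul_le_mul_left h4 (by positivity)

theorem certA (g : V → V → V → ℕ) (hb : ∀ a b c, g a b c = 0 ∨ g a b c = 1) (hg : Symm3 g)
    (h4 : ∀ a b c d, ix4 (g a b c) (g a b d) (g a c d) (g b c d) ≠ 15)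
    (hV : 0 < Fintype.card V) :
    ∑ a, ∑ b, Qh (8207 / 10000) (29 / 25) (69 / 5000) (xg g a b)
      ≤ 2 / 3 * (Fintype.card V : ℝ) ^ 2 := by
  refine of_cert g hV _ _ _ _ _ _ 2400000 _ _ _ (by norm_num) ?_ (A.main g hb hg h4)
  intro t
  unfold Qh
  push_cast
  ring

theorem certV (g : V → V → V → ℕ) (hb : ∀ a b c, g a b c = 0 ∨ g a b c = 1) (hg : Symm3 g)
    (h4 : ∀ a b c d, ix4 (g a b c) (g a b d) (g a c d) (g b c d) ≠ 15)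
    (hV : 0 < Fintype.card V) :
    ∑ a, ∑ b, Qh (67 / 100) (123 / 100) (29 / 200) (xg g a b)
      ≤ 2 / 3 * (Fintype.card V : ℝ) ^ 2 := by
  refine of_cert g hV _ _ _ _ _ _ 60000 _ _ _ (by norm_num) ?_ (Pool.Agent.H77Lp.V.main g hb hg h4)
  intro t
  unfold Qh
  push_cast
  ring

theorem certB (g : V → V → V → ℕ) (hb : ∀ a b c, g a b c = 0 ∨ g a b c = 1) (hg : Symm3 g)
    (h4 : ∀ a b c d, ix4 (g a b c) (g a b d) (g a c d) (g b c d) ≠ 15)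
    (hV : 0 < Fintype.card V) :
    ∑ a, ∑ b, Qh (443 / 1000) (421 / 250) 0 (xg g a b)
      ≤ 2 / 3 * (Fintype.card V : ℝ) ^ 2 := by
  refine of_cert g hV _ _ _ _ _ _ 24000 _ _ _ (by norm_num) ?_ (B.main g hb hg h4)
  intro t
  unfold Qh
  push_cast
  ring

end Pool.Agent.H77Lp
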