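import Mathlib

set_option autoImplicit false
set_option linter.unusedVariables false

/-!
# Inequalities for the coefficients of the majorants

`X` stands for `2 ^ p`. All inequalities are of the form `A + B p + C X + E p X ≥ 0` on an interval.
-/

namespace Pool.Agent.H77Lp

theorem rpow_le_of {c : ℝ} (hc : 0 < c) (m d : ℕ) (hd : d ≠ 0) (u : ℝ) (hu : 0 ≤ u)
    (h : c ^ m ≤ u ^ d) : c ^ ((m : ℝ) / (d : ℝ)) ≤ u := by
  have e : (c ^ ((m : ℝ) / (d : ℝ))) ^ d = c ^ m := by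
    rw [← Real.rpow_natCast, ← Real.rpow_mul hc.le, div_mul_cancel₀ _ (Nat.cast_ne_zero.mpr hd),
      Real.rpow_natCast]
  exact le_of_pow_le_pow_left₀ hd hu (by rw [e]; exact h)

theorem le_rpow_of {c : ℝ} (hc : 0 < c) (m d : ℕ) (hd : d ≠ 0) (u : ℝ)
    (h : u ^ d ≤ c ^ m) : u ≤ c ^ ((m : ℝ) / (d : ℝ)) := by
  have e : (c ^ ((m : ℝ) / (d : ℝ))) ^ d = c ^ m := by
    rw [← Real.rpow_natCast, ← Real.rpow_mul hc.le, div_mul_cancel₀ _ (Nat.cast_ne_zero.mpr hd),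
      Real.rpow_natCast]
  exact le_of_pow_le_pow_left₀ hd (Real.rpow_nonneg hc.le _) (by rw [e]; exact h)

/-- the chord lies above the exponential function -/
theorem chord {c a b p ua ub : ℝ} (hc : 0 < c) (hab : a < b) (ha : a ≤ p) (hb : p ≤ b)
    (h1 : c ^ a ≤ ua) (h2 : c ^ b ≤ ub) : (b - a) * c ^ p ≤ (b - p) * ua + (p - a) * ub := by
  have hd : 0 < b - a := sub_pos.mpr hab
  have hw := Real.geom_mean_le_arith_mean2_weighted (w₁ := (b - p) / (b - a))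
    (w₂ := (p - a) / (b - a)) (p₁ := c ^ a) (p₂ := c ^ b)
    (div_nonneg (sub_nonneg.mpr hb) hd.le) (div_nonneg (sub_nonneg.mpr ha) hd.le)
    (Real.rpow_nonneg hc.le _) (Real.rpow_nonneg hc.le _) (by
      rw [← add_div, div_eq_one_iff_eq hd.ne']
      ring)
  rw [← Real.rpow_mul hc.le, ← Real.rpow_mul hc.le, ← Real.rpow_add hc] at hw
  have e : a * ((b - p) / (b - a)) + b * ((p - a) / (b - a)) = p := by
    field_simp
    ring
  rw [e] at hw
  have h3 : (b - a) * c ^ p ≤ (b - a) * ((b - p) / (b - a) * c ^ a + (p - a) / (b - a) * c ^ b) :=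
    mul_le_mul_of_nonneg_left hw hd.le
  have h4 : (b - a) * ((b - p) / (b - a) * c ^ a + (p - a) / (b - a) * c ^ b)
      = (b - p) * c ^ a + (p - a) * c ^ b := by
    field_simp
  rw [h4] at h3
  have h5 := mul_le_mul_of_nonneg_left h1 (sub_nonneg.mpr hb)
  have h6 := mul_le_mul_of_nonneg_left h2 (sub_nonneg.mpr ha)
  linarith

/-- the tangent at the left end -/
theorem tang {a p xa : ℝ} (h : xa ≤ (2 : ℝ) ^ a) (hx : 0 ≤ xa) (hp : a ≤ p) :
    xa * (1 + 0.6931471 * (p - a)) ≤ (2 : ℝ) ^ p := by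
  have h1 : (2 : ℝ) ^ p = (2 : ℝ) ^ a * (2 : ℝ) ^ (p - a) := by
    rw [← Real.rpow_add (by norm_num)]
    congr 1
    ring
  have h2 : 1 + 0.6931471 * (p - a) ≤ (2 : ℝ) ^ (p - a) := by
    rw [Real.rpow_def_of_pos (by norm_num)]
    have h3 := Real.add_one_le_exp (Real.log 2 * (p - a))
    have h4 := Real.log_two_gt_d9
    have h5 : 0.6931471 * (p - a) ≤ Real.log 2 * (p - a) :=
      mul_le_mul_of_nonneg_right (by linarith) (by linarith)
    linarith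
  rw [h1]
  exact mul_le_mul h h2 (by nlinarith) (Real.rpow_nonneg (by norm_num) _)

/-- the tangent at the right end -/
theorem tang' {b p xb : ℝ} (h : xb ≤ (2 : ℝ) ^ b) (hx : 0 ≤ xb) (hp : p ≤ b)
    (hb : 0.6931472 * (b - p) ≤ 1) :
    xb * (1 - 0.6931472 * (b - p)) ≤ (2 : ℝ) ^ p := by
  have h1 : (2 : ℝ) ^ p = (2 : ℝ) ^ b * (2 : ℝ) ^ (p - b) := by
    rw [← Real.rpow_add (by norm_num)]
    congr 1
    ring
  have h2 : 1 - 0.6931472 * (b - p) ≤ (2 : ℝ) ^ (p - b) := by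
    rw [Real.rpow_def_of_pos (by norm_num)]
    have h3 := Real.add_one_le_exp (Real.log 2 * (p - b))
    have h4 := Real.log_two_lt_d9
    have h5 : Real.log 2 * (b - p) ≤ 0.6931472 * (b - p) :=
      mul_le_mul_of_nonneg_right (by linarith) (by linarith)
    linarith
  rw [h1]
  exact mul_le_mul h h2 (by linarith) (Real.rpow_nonneg (by norm_num) _)

theorem v2_3_2 : (2828427 / 1000000 : ℝ) ≤ (2 : ℝ) ^ (3 / 2 : ℝ) ∧ (2 : ℝ) ^ (3 / 2 : ℝ) ≤ 28284273 / 10000000 := by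
  have e : (3 / 2 : ℝ) = ((3 : ℕ) : ℝ) / ((2 : ℕ) : ℝ) := by norm_num
  rw [e]
  exact ⟨le_rpow_of (by norm_num) 3 2 (by norm_num) _ (by norm_num),
    rpow_le_of (by norm_num) 3 2 (by norm_num) _ (by norm_num) (by norm_num)⟩

theorem v2_2_1 : (4 : ℝ) ≤ (2 : ℝ) ^ (2 : ℝ) ∧ (2 : ℝ) ^ (2 : ℝ) ≤ 4 := by
  have e : (2 : ℝ) = ((2 : ℕ) : ℝ) / ((1 : ℕ) : ℝ) := by norm_num
  rw [e]
  exact ⟨le_rpow_of (by norm_num) 2 1 (by norm_num) _ (by norm_num),
    rpow_le_of (by norm_num) 2 1 (by norm_num) _ (by norm_num) (by norm_num)⟩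

theorem aA_0 (p : ℝ) (ha : 3 / 2 ≤ p) (hb : p ≤ 2) :
    0 ≤ (12850) + (10000) * p + (-12850) * (2 : ℝ) ^ p + (2500) * (p * (2 : ℝ) ^ p) := by
  have hX := chord (c := 2) (by norm_num) (by norm_num) ha hb v2_3_2.2 v2_2_1.2
  have hX' : (2 : ℝ) ^ p ≤ (-1715727 / 2500000) + (11715727 / 5000000) * p := by linarith
  have hc : 0 ≤ -((-12850) + (2500) * p) := by linarith
  have hm := mul_nonneg hc (sub_nonneg.mpr hX')
  nlinarith [hm, mul_nonneg (sub_nonneg.mpr ha) (sub_nonneg.mpr hb), sq_nonneg (p - 136 / 73)]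

theorem v2_5_2 : (56568541 / 10000000 : ℝ) ≤ (2 : ℝ) ^ (5 / 2 : ℝ) ∧ (2 : ℝ) ^ (5 / 2 : ℝ) ≤ 1767767 / 312500 := by
  have e : (5 / 2 : ℝ) = ((5 : ℕ) : ℝ) / ((2 : ℕ) : ℝ) := by norm_num
  rw [e]
  exact ⟨le_rpow_of (by norm_num) 5 2 (by norm_num) _ (by norm_num),
    rpow_le_of (by norm_num) 5 2 (by norm_num) _ (by norm_num) (by norm_num)⟩

theorem aA_1 (p : ℝ) (ha : 2 ≤ p) (hb : p ≤ 5 / 2) :
    0 ≤ (12850) + (10000) * p + (-12850) * (2 : ℝ) ^ p + (2500) * (p * (2 : ℝ) ^ p) := by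
  have hX := chord (c := 2) (by norm_num) (by norm_num) ha hb v2_2_1.2 v2_5_2.2
  have hX' : (2 : ℝ) ^ p ≤ (-205267 / 78125) + (517767 / 156250) * p := by linarith
  have hc : 0 ≤ -((-12850) + (2500) * p) := by linarith
  have hm := mul_nonneg hc (sub_nonneg.mpr hX')
  nlinarith [hm, mul_nonneg (sub_nonneg.mpr ha) (sub_nonneg.mpr hb), sq_nonneg (p - 215 / 91)]

theorem v2_14_5 : (17411011 / 2500000 : ℝ) ≤ (2 : ℝ) ^ (14 / 5 : ℝ) ∧ (2 : ℝ) ^ (14 / 5 : ℝ) ≤ 69644047 / 10000000 := by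
  have e : (14 / 5 : ℝ) = ((14 : ℕ) : ℝ) / ((5 : ℕ) : ℝ) := by norm_num
  rw [e]
  exact ⟨le_rpow_of (by norm_num) 14 5 (by norm_num) _ (by norm_num),
    rpow_le_of (by norm_num) 14 5 (by norm_num) _ (by norm_num) (by norm_num)⟩

theorem aA_2 (p : ℝ) (ha : 5 / 2 ≤ p) (hb : p ≤ 14 / 5) :
    0 ≤ (12850) + (10000) * p + (-12850) * (2 : ℝ) ^ p + (2500) * (p * (2 : ℝ) ^ p) := by
  have hX := chord (c := 2) (by norm_num) (by norm_num) ha hb v2_5_2.2 v2_14_5.2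
  have hX' : (2 : ℝ) ^ p ≤ (-52393981 / 10000000) + (4358501 / 1000000) * p := by linarith
  have hc : 0 ≤ -((-12850) + (2500) * p) := by linarith
  have hm := mul_nonneg hc (sub_nonneg.mpr hX')
  nlinarith [hm, mul_nonneg (sub_nonneg.mpr ha) (sub_nonneg.mpr hb), sq_nonneg (p - 179 / 66)]

theorem v2_29_10 : (37321319 / 5000000 : ℝ) ≤ (2 : ℝ) ^ (29 / 10 : ℝ) ∧ (2 : ℝ) ^ (29 / 10 : ℝ) ≤ 74642641 / 10000000 := by
  have e : (29 / 10 : ℝ) = ((29 : ℕ) : ℝ) / ((10 : ℕ) : ℝ) := by norm_num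
  rw [e]
  exact ⟨le_rpow_of (by norm_num) 29 10 (by norm_num) _ (by norm_num),
    rpow_le_of (by norm_num) 29 10 (by norm_num) _ (by norm_num) (by norm_num)⟩

theorem aA_3 (p : ℝ) (ha : 14 / 5 ≤ p) (hb : p ≤ 29 / 10) :
    0 ≤ (12850) + (10000) * p + (-12850) * (2 : ℝ) ^ p + (2500) * (p * (2 : ℝ) ^ p) := by
  have hX := chord (c := 2) (by norm_num) (by norm_num) ha hb v2_14_5.2 v2_29_10.2
  have hX' : (2 : ℝ) ^ p ≤ (-14063317 / 2000000) + (2499297 / 500000) * p := by linarith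
  have hc : 0 ≤ -((-12850) + (2500) * p) := by linarith
  have hm := mul_nonneg hc (sub_nonneg.mpr hX')
  nlinarith [hm, mul_nonneg (sub_nonneg.mpr ha) (sub_nonneg.mpr hb), sq_nonneg (p - 204 / 71)]

theorem aA (p : ℝ) (ha : 3 / 2 ≤ p) (hb : p ≤ 29 / 10) :
    0 ≤ (12850) + (10000) * p + (-12850) * (2 : ℝ) ^ p + (2500) * (p * (2 : ℝ) ^ p) := by
  rcases le_total p (2) with h | h
  · exact aA_0 p (by linarith) h
  rcases le_total p (5 / 2) with h | h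
  · exact aA_1 p (by linarith) h
  rcases le_total p (14 / 5) with h | h
  · exact aA_2 p (by linarith) h
  exact aA_3 p (by linarith) (by linarith)

theorem v2_17_10 : (16245047 / 5000000 : ℝ) ≤ (2 : ℝ) ^ (17 / 10 : ℝ) ∧ (2 : ℝ) ^ (17 / 10 : ℝ) ≤ 32490097 / 10000000 := by
  have e : (17 / 10 : ℝ) = ((17 : ℕ) : ℝ) / ((10 : ℕ) : ℝ) := by norm_num
  rw [e]
  exact ⟨le_rpow_of (by norm_num) 17 10 (by norm_num) _ (by norm_num),
    rpow_le_of (by norm_num) 17 10 (by norm_num) _ (by norm_num) (by norm_num)⟩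

theorem aV_0 (p : ℝ) (ha : 3 / 2 ≤ p) (hb : p ≤ 17 / 10) :
    0 ≤ (-4340894) + (-2620000) * p + (4340894) * (2 : ℝ) ^ p + (-944250) * (p * (2 : ℝ) ^ p) := by
  have hX := tang (p := p) v2_3_2.1 (by norm_num) ha
  have hX' : (-2246939178351 / 20000000000000) + (19605159726117 / 10000000000000) * p ≤ (2 : ℝ) ^ p := by linarith
  have hc : 0 ≤ (4340894) + (-944250) * p := by linarith
  have hm := mul_nonneg hc (sub_nonneg.mpr hX')
  nlinarith [hm, mul_nonneg (sub_nonneg.mpr ha) (sub_nonneg.mpr hb)]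

theorem aV_1 (p : ℝ) (ha : 17 / 10 ≤ p) (hb : p ≤ 2) :
    0 ≤ (-4340894) + (-2620000) * p + (4340894) * (2 : ℝ) ^ p + (-944250) * (p * (2 : ℝ) ^ p) := by
  have hX := tang (p := p) v2_17_10.1 (by norm_num) ha
  have hX' : (-289730526960329 / 500000000000000) + (112602072174137 / 50000000000000) * p ≤ (2 : ℝ) ^ p := by linarith
  have hc : 0 ≤ (4340894) + (-944250) * p := by linarith
  have hm := mul_nonneg hc (sub_nonneg.mpr hX')
  nlinarith [hm, mul_nonneg (sub_nonneg.mpr ha) (sub_nonneg.mpr hb)]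

theorem v2_23_10 : (1969831 / 400000 : ℝ) ≤ (2 : ℝ) ^ (23 / 10 : ℝ) ∧ (2 : ℝ) ^ (23 / 10 : ℝ) ≤ 24622889 / 5000000 := by
  have e : (23 / 10 : ℝ) = ((23 : ℕ) : ℝ) / ((10 : ℕ) : ℝ) := by norm_num
  rw [e]
  exact ⟨le_rpow_of (by norm_num) 23 10 (by norm_num) _ (by norm_num),
    rpow_le_of (by norm_num) 23 10 (by norm_num) _ (by norm_num) (by norm_num)⟩

theorem aV_2 (p : ℝ) (ha : 2 ≤ p) (hb : p ≤ 23 / 10) :
    0 ≤ (-4340894) + (-2620000) * p + (4340894) * (2 : ℝ) ^ p + (-944250) * (p * (2 : ℝ) ^ p) := by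
  have hX := tang (p := p) v2_2_1.1 (by norm_num) ha
  have hX' : (-1931471 / 1250000) + (6931471 / 2500000) * p ≤ (2 : ℝ) ^ p := by linarith
  have hc : 0 ≤ (4340894) + (-944250) * p := by linarith
  have hm := mul_nonneg hc (sub_nonneg.mpr hX')
  nlinarith [hm, mul_nonneg (sub_nonneg.mpr ha) (sub_nonneg.mpr hb)]

theorem v2_13_5 : (60628661 / 10000000 : ℝ) ≤ (2 : ℝ) ^ (13 / 5 : ℝ) ∧ (2 : ℝ) ^ (13 / 5 : ℝ) ≤ 7578583 / 1250000 := by
  have e : (13 / 5 : ℝ) = ((13 : ℕ) : ℝ) / ((5 : ℕ) : ℝ) := by norm_num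
  rw [e]
  exact ⟨le_rpow_of (by norm_num) 13 5 (by norm_num) _ (by norm_num),
    rpow_le_of (by norm_num) 13 5 (by norm_num) _ (by norm_num) (by norm_num)⟩

theorem aV_3 (p : ℝ) (ha : 23 / 10 ≤ p) (hb : p ≤ 13 / 5) :
    0 ≤ (-4340894) + (-2620000) * p + (4340894) * (2 : ℝ) ^ p + (-944250) * (p * (2 : ℝ) ^ p) := by
  have hX := tang (p := p) v2_23_10.1 (by norm_num) ha
  have hX' : (-117054908382223 / 40000000000000) + (13653826451401 / 4000000000000) * p ≤ (2 : ℝ) ^ p := by linarith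
  have hc : 0 ≤ (4340894) + (-944250) * p := by linarith
  have hm := mul_nonneg hc (sub_nonneg.mpr hX')
  nlinarith [hm, mul_nonneg (sub_nonneg.mpr ha) (sub_nonneg.mpr hb)]

theorem v2_57_20 : (18025009 / 2500000 : ℝ) ≤ (2 : ℝ) ^ (57 / 20 : ℝ) ∧ (2 : ℝ) ^ (57 / 20 : ℝ) ≤ 72100039 / 10000000 := by
  have e : (57 / 20 : ℝ) = ((57 : ℕ) : ℝ) / ((20 : ℕ) : ℝ) := by norm_num
  rw [e]
  exact ⟨le_rpow_of (by norm_num) 57 20 (by norm_num) _ (by norm_num),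
    rpow_le_of (by norm_num) 57 20 (by norm_num) _ (by norm_num) (by norm_num)⟩

theorem aV_4 (p : ℝ) (ha : 13 / 5 ≤ p) (hb : p ≤ 57 / 20) :
    0 ≤ (-4340894) + (-2620000) * p + (4340894) * (2 : ℝ) ^ p + (-944250) * (p * (2 : ℝ) ^ p) := by
  have hX := tang' (p := p) v2_57_20.1 (by norm_num) hb (by linarith)
  have hX' : (-219785585965321 / 31250000000000) + (7808740323953 / 1562500000000) * p ≤ (2 : ℝ) ^ p := by linarith
  have hc : 0 ≤ (4340894) + (-944250) * p := by linarith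
  have hm := mul_nonneg hc (sub_nonneg.mpr hX')
  nlinarith [hm, mul_nonneg (sub_nonneg.mpr ha) (sub_nonneg.mpr hb)]

theorem aV_5 (p : ℝ) (ha : 57 / 20 ≤ p) (hb : p ≤ 29 / 10) :
    0 ≤ (-4340894) + (-2620000) * p + (4340894) * (2 : ℝ) ^ p + (-944250) * (p * (2 : ℝ) ^ p) := by
  have hX := tang' (p := p) v2_29_10.1 (by norm_num) hb (by linarith)
  have hX' : (-235620421993467 / 31250000000000) + (16168229853223 / 3125000000000) * p ≤ (2 : ℝ) ^ p := by linarith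
  have hc : 0 ≤ (4340894) + (-944250) * p := by linarith
  have hm := mul_nonneg hc (sub_nonneg.mpr hX')
  nlinarith [hm, mul_nonneg (sub_nonneg.mpr ha) (sub_nonneg.mpr hb)]

theorem aV (p : ℝ) (ha : 3 / 2 ≤ p) (hb : p ≤ 29 / 10) :
    0 ≤ (-4340894) + (-2620000) * p + (4340894) * (2 : ℝ) ^ p + (-944250) * (p * (2 : ℝ) ^ p) := by
  rcases le_total p (17 / 10) with h | h
  · exact aV_0 p (by linarith) h
  rcases le_total p (2) with h | h
  · exact aV_1 p (by linarith) h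
  rcases le_total p (23 / 10) with h | h
  · exact aV_2 p (by linarith) h
  rcases le_total p (13 / 5) with h | h
  · exact aV_3 p (by linarith) h
  rcases le_total p (57 / 20) with h | h
  · exact aV_4 p (by linarith) h
  exact aV_5 p (by linarith) (by linarith)

theorem aB_0 (p : ℝ) (ha : 3 / 2 ≤ p) (hb : p ≤ 2) :
    0 ≤ (1161305) + (350000) * p + (-1161305) * (2 : ℝ) ^ p + (376750) * (p * (2 : ℝ) ^ p) := by
  have hX := chord (c := 2) (by norm_num) (by norm_num) ha hb v2_3_2.2 v2_2_1.2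
  have hX' : (2 : ℝ) ^ p ≤ (-1715727 / 2500000) + (11715727 / 5000000) * p := by linarith
  have hc : 0 ≤ -((-1161305) + (376750) * p) := by linarith
  have hm := mul_nonneg hc (sub_nonneg.mpr hX')
  nlinarith [hm, mul_nonneg (sub_nonneg.mpr ha) (sub_nonneg.mpr hb), sq_nonneg (p - 3 / 2)]

theorem aB_1 (p : ℝ) (ha : 2 ≤ p) (hb : p ≤ 5 / 2) :
    0 ≤ (1161305) + (350000) * p + (-1161305) * (2 : ℝ) ^ p + (376750) * (p * (2 : ℝ) ^ p) := by
  have hX := chord (c := 2) (by norm_num) (by norm_num) ha hb v2_2_1.2 v2_5_2.2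
  have hX' : (2 : ℝ) ^ p ≤ (-205267 / 78125) + (517767 / 156250) * p := by linarith
  have hc : 0 ≤ -((-1161305) + (376750) * p) := by linarith
  have hm := mul_nonneg hc (sub_nonneg.mpr hX')
  nlinarith [hm, mul_nonneg (sub_nonneg.mpr ha) (sub_nonneg.mpr hb), sq_nonneg (p - 2)]

theorem aB_2 (p : ℝ) (ha : 5 / 2 ≤ p) (hb : p ≤ 29 / 10) :
    0 ≤ (1161305) + (350000) * p + (-1161305) * (2 : ℝ) ^ p + (376750) * (p * (2 : ℝ) ^ p) := by
  have hX := chord (c := 2) (by norm_num) (by norm_num) ha hb v2_5_2.2 v2_29_10.2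
  have hX' : (2 : ℝ) ^ p ≤ (-225578249 / 40000000) + (18074097 / 4000000) * p := by linarith
  have hc : 0 ≤ -((-1161305) + (376750) * p) := by linarith
  have hm := mul_nonneg hc (sub_nonneg.mpr hX')
  nlinarith [hm, mul_nonneg (sub_nonneg.mpr ha) (sub_nonneg.mpr hb), sq_nonneg (p - 5 / 2)]

theorem aB (p : ℝ) (ha : 3 / 2 ≤ p) (hb : p ≤ 29 / 10) :
    0 ≤ (1161305) + (350000) * p + (-1161305) * (2 : ℝ) ^ p + (376750) * (p * (2 : ℝ) ^ p) := by
  rcases le_total p (2) with h | h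
  · exact aB_0 p (by linarith) h
  rcases le_total p (5 / 2) with h | h
  · exact aB_1 p (by linarith) h
  exact aB_2 p (by linarith) (by linarith)

theorem v2_33_20 : (15691681 / 5000000 : ℝ) ≤ (2 : ℝ) ^ (33 / 20 : ℝ) ∧ (2 : ℝ) ^ (33 / 20 : ℝ) ≤ 6276673 / 2000000 := by
  have e : (33 / 20 : ℝ) = ((33 : ℕ) : ℝ) / ((20 : ℕ) : ℝ) := by norm_num
  rw [e]
  exact ⟨le_rpow_of (by norm_num) 33 20 (by norm_num) _ (by norm_num),
    rpow_le_of (by norm_num) 33 20 (by norm_num) _ (by norm_num) (by norm_num)⟩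

theorem lvA_0 (p : ℝ) (ha : 3 / 2 ≤ p) (hb : p ≤ 33 / 20) :
    0 ≤ (-85181472) + (-61121300) * p + (91747447) * (2 : ℝ) ^ p + (-19474450) * (p * (2 : ℝ) ^ p) := by
  have hX := tang (p := p) v2_3_2.1 (by norm_num) ha
  have hX' : (-2246939178351 / 20000000000000) + (19605159726117 / 10000000000000) * p ≤ (2 : ℝ) ^ p := by linarith
  have hc : 0 ≤ (91747447) + (-19474450) * p := by linarith
  have hm := mul_nonneg hc (sub_nonneg.mpr hX')
  nlinarith [hm, mul_nonneg (sub_nonneg.mpr ha) (sub_nonneg.mpr hb)]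

theorem v2_19_10 : (18660659 / 5000000 : ℝ) ≤ (2 : ℝ) ^ (19 / 10 : ℝ) ∧ (2 : ℝ) ^ (19 / 10 : ℝ) ≤ 37321321 / 10000000 := by
  have e : (19 / 10 : ℝ) = ((19 : ℕ) : ℝ) / ((10 : ℕ) : ℝ) := by norm_num
  rw [e]
  exact ⟨le_rpow_of (by norm_num) 19 10 (by norm_num) _ (by norm_num),
    rpow_le_of (by norm_num) 19 10 (by norm_num) _ (by norm_num) (by norm_num)⟩

theorem lvA_1 (p : ℝ) (ha : 33 / 20 ≤ p) (hb : p ≤ 19 / 10) :
    0 ≤ (-85181472) + (-61121300) * p + (91747447) * (2 : ℝ) ^ p + (-19474450) * (p * (2 : ℝ) ^ p) := by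
  have hX := tang (p := p) v2_33_20.1 (by norm_num) ha
  have hX' : (-450956049160783 / 1000000000000000) + (108766431792751 / 50000000000000) * p ≤ (2 : ℝ) ^ p := by linarith
  have hc : 0 ≤ (91747447) + (-19474450) * p := by linarith
  have hm := mul_nonneg hc (sub_nonneg.mpr hX')
  nlinarith [hm, mul_nonneg (sub_nonneg.mpr ha) (sub_nonneg.mpr hb)]

theorem lvA_2 (p : ℝ) (ha : 19 / 10 ≤ p) (hb : p ≤ 2) :
    0 ≤ (-85181472) + (-61121300) * p + (91747447) * (2 : ℝ) ^ p + (-19474450) * (p * (2 : ℝ) ^ p) := by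
  have hX := tang (p := p) v2_19_10.1 (by norm_num) ha
  have hX' : (-591504617288391 / 500000000000000) + (129345816699389 / 50000000000000) * p ≤ (2 : ℝ) ^ p := by linarith
  have hc : 0 ≤ (91747447) + (-19474450) * p := by linarith
  have hm := mul_nonneg hc (sub_nonneg.mpr hX')
  nlinarith [hm, mul_nonneg (sub_nonneg.mpr ha) (sub_nonneg.mpr hb)]

theorem lvA (p : ℝ) (ha : 3 / 2 ≤ p) (hb : p ≤ 2) :
    0 ≤ (-85181472) + (-61121300) * p + (91747447) * (2 : ℝ) ^ p + (-19474450) * (p * (2 : ℝ) ^ p) := by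
  rcases le_total p (33 / 20) with h | h
  · exact lvA_0 p (by linarith) h
  rcases le_total p (19 / 10) with h | h
  · exact lvA_1 p (by linarith) h
  exact lvA_2 p (by linarith) (by linarith)

theorem v3_2_1 : (9 : ℝ) ≤ (3 : ℝ) ^ (2 : ℝ) ∧ (3 : ℝ) ^ (2 : ℝ) ≤ 9 := by
  have e : (2 : ℝ) = ((2 : ℕ) : ℝ) / ((1 : ℕ) : ℝ) := by norm_num
  rw [e]
  exact ⟨le_rpow_of (by norm_num) 2 1 (by norm_num) _ (by norm_num),
    rpow_le_of (by norm_num) 2 1 (by norm_num) _ (by norm_num) (by norm_num)⟩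

theorem v3_23_10 : (7820939 / 625000 : ℝ) ≤ (3 : ℝ) ^ (23 / 10 : ℝ) ∧ (3 : ℝ) ^ (23 / 10 : ℝ) ≤ 125135027 / 10000000 := by
  have e : (23 / 10 : ℝ) = ((23 : ℕ) : ℝ) / ((10 : ℕ) : ℝ) := by norm_num
  rw [e]
  exact ⟨le_rpow_of (by norm_num) 23 10 (by norm_num) _ (by norm_num),
    rpow_le_of (by norm_num) 23 10 (by norm_num) _ (by norm_num) (by norm_num)⟩

theorem lvB_0 (p : ℝ) (ha : 2 ≤ p) (hb : p ≤ 23 / 10) :
    0 ≤ (-26087697) + (-21725450) * p + (32653672) * (2 : ℝ) ^ p + (223475) * (p * (2 : ℝ) ^ p) - 6565975 * (3 : ℝ) ^ p := by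
  have hX := tang (p := p) v2_2_1.1 (by norm_num) ha
  have hX' : (-1931471 / 1250000) + (6931471 / 2500000) * p ≤ (2 : ℝ) ^ p := by linarith
  have hc : 0 ≤ (32653672) + (223475) * p := by linarith
  have hm := mul_nonneg hc (sub_nonneg.mpr hX')
  have hY := chord (c := 3) (by norm_num) (by norm_num) ha hb v3_2_1.2 v3_23_10.2
  have hY' : (3 : ℝ) ^ p ≤ (-21635027 / 1500000) + (35135027 / 3000000) * p := by linarith
  nlinarith [hm, mul_nonneg (sub_nonneg.mpr ha) (sub_nonneg.mpr hb), sq_nonneg (p - 23 / 10)]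

theorem v3_13_5 : (173986383 / 10000000 : ℝ) ≤ (3 : ℝ) ^ (13 / 5 : ℝ) ∧ (3 : ℝ) ^ (13 / 5 : ℝ) ≤ 86993193 / 5000000 := by
  have e : (13 / 5 : ℝ) = ((13 : ℕ) : ℝ) / ((5 : ℕ) : ℝ) := by norm_num
  rw [e]
  exact ⟨le_rpow_of (by norm_num) 13 5 (by norm_num) _ (by norm_num),
    rpow_le_of (by norm_num) 13 5 (by norm_num) _ (by norm_num) (by norm_num)⟩

theorem lvB_1 (p : ℝ) (ha : 23 / 10 ≤ p) (hb : p ≤ 13 / 5) :
    0 ≤ (-26087697) + (-21725450) * p + (32653672) * (2 : ℝ) ^ p + (223475) * (p * (2 : ℝ) ^ p) - 6565975 * (3 : ℝ) ^ p := by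
  have hX := tang' (p := p) v2_13_5.1 (by norm_num) hb (by linarith)
  have hX' : (-151985200596681 / 31250000000000) + (26265366632437 / 6250000000000) * p ≤ (2 : ℝ) ^ p := by linarith
  have hc : 0 ≤ (32653672) + (223475) * p := by linarith
  have hm := mul_nonneg hc (sub_nonneg.mpr hX')
  have hY := chord (c := 3) (by norm_num) (by norm_num) ha hb v3_23_10.2 v3_13_5.2
  have hY' : (3 : ℝ) ^ p ≤ (-46761011 / 1875000) + (48851359 / 3000000) * p := by linarith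
  nlinarith [hm, mul_nonneg (sub_nonneg.mpr ha) (sub_nonneg.mpr hb), sq_nonneg (p - 23 / 10)]

theorem v3_14_5 : (10837011 / 500000 : ℝ) ≤ (3 : ℝ) ^ (14 / 5 : ℝ) ∧ (3 : ℝ) ^ (14 / 5 : ℝ) ≤ 216740223 / 10000000 := by
  have e : (14 / 5 : ℝ) = ((14 : ℕ) : ℝ) / ((5 : ℕ) : ℝ) := by norm_num
  rw [e]
  exact ⟨le_rpow_of (by norm_num) 14 5 (by norm_num) _ (by norm_num),
    rpow_le_of (by norm_num) 14 5 (by norm_num) _ (by norm_num) (by norm_num)⟩

theorem lvB_2 (p : ℝ) (ha : 13 / 5 ≤ p) (hb : p ≤ 14 / 5) :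
    0 ≤ (-26087697) + (-21725450) * p + (32653672) * (2 : ℝ) ^ p + (223475) * (p * (2 : ℝ) ^ p) - 6565975 * (3 : ℝ) ^ p := by
  have hX := tang' (p := p) v2_14_5.1 (by norm_num) hb (by linarith)
  have hX' : (-25594516979209 / 3906250000000) + (7542745952387 / 1562500000000) * p ≤ (2 : ℝ) ^ p := by linarith
  have hc : 0 ≤ (32653672) + (223475) * p := by linarith
  have hm := mul_nonneg hc (sub_nonneg.mpr hX')
  have hY := chord (c := 3) (by norm_num) (by norm_num) ha hb v3_13_5.2 v3_14_5.2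
  have hY' : (3 : ℝ) ^ p ≤ (-76362699 / 2000000) + (42753837 / 2000000) * p := by linarith
  nlinarith [hm, mul_nonneg (sub_nonneg.mpr ha) (sub_nonneg.mpr hb), sq_nonneg (p - 203 / 74)]

theorem v3_29_10 : (241908783 / 10000000 : ℝ) ≤ (3 : ℝ) ^ (29 / 10 : ℝ) ∧ (3 : ℝ) ^ (29 / 10 : ℝ) ≤ 120954393 / 5000000 := by
  have e : (29 / 10 : ℝ) = ((29 : ℕ) : ℝ) / ((10 : ℕ) : ℝ) := by norm_num
  rw [e]
  exact ⟨le_rpow_of (by norm_num) 29 10 (by norm_num) _ (by norm_num),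
    rpow_le_of (by norm_num) 29 10 (by norm_num) _ (by norm_num) (by norm_num)⟩

theorem lvB_3 (p : ℝ) (ha : 14 / 5 ≤ p) (hb : p ≤ 29 / 10) :
    0 ≤ (-26087697) + (-21725450) * p + (32653672) * (2 : ℝ) ^ p + (223475) * (p * (2 : ℝ) ^ p) - 6565975 * (3 : ℝ) ^ p := by
  have hX := tang' (p := p) v2_29_10.1 (by norm_num) hb (by linarith)
  have hX' : (-235620421993467 / 31250000000000) + (16168229853223 / 3125000000000) * p ≤ (2 : ℝ) ^ p := by linarith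
  have hc : 0 ≤ (32653672) + (223475) * p := by linarith
  have hm := mul_nonneg hc (sub_nonneg.mpr hX')
  have hY := chord (c := 3) (by norm_num) (by norm_num) ha hb v3_14_5.2 v3_29_10.2
  have hY' : (3 : ℝ) ^ p ≤ (-487979541 / 10000000) + (25168563 / 1000000) * p := by linarith
  nlinarith [hm, mul_nonneg (sub_nonneg.mpr ha) (sub_nonneg.mpr hb), sq_nonneg (p - 29 / 10)]

theorem lvB (p : ℝ) (ha : 2 ≤ p) (hb : p ≤ 29 / 10) :
    0 ≤ (-26087697) + (-21725450) * p + (32653672) * (2 : ℝ) ^ p + (223475) * (p * (2 : ℝ) ^ p) - 6565975 * (3 : ℝ) ^ p := by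
  rcases le_total p (23 / 10) with h | h
  · exact lvB_0 p (by linarith) h
  rcases le_total p (13 / 5) with h | h
  · exact lvB_1 p (by linarith) h
  rcases le_total p (14 / 5) with h | h
  · exact lvB_2 p (by linarith) h
  exact lvB_3 p (by linarith) (by linarith)

/-- second and third order bounds near `1` -/
theorem near_one (p : ℝ) (ha : 1 ≤ p) (hb : p ≤ 3 / 2) :
    2 + 1.3862942 * (p - 1) + 0.4804528 * (p - 1) ^ 2 ≤ (2 : ℝ) ^ p ∧
      (2 : ℝ) ^ p ≤ 2 + 1.3862944 * (p - 1) + 0.4804532 * (p - 1) ^ 2 + 0.1480203 * (p - 1) ^ 3 := by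
  have h1 : (2 : ℝ) ^ p = 2 * Real.exp (Real.log 2 * (p - 1)) := by
    rw [← Real.rpow_def_of_pos (by norm_num : (0 : ℝ) < 2), Real.rpow_sub_one (by norm_num)]
    ring
  have l1 := Real.log_two_gt_d9
  have l2 := Real.log_two_lt_d9
  have hd : 0 ≤ p - 1 := by linarith
  have hx0 : 0 ≤ Real.log 2 * (p - 1) := mul_nonneg (by linarith) hd
  have hx1 : Real.log 2 * (p - 1) ≤ 1 := by nlinarith
  have s1 : (0.6931471803 : ℝ) ^ 2 ≤ Real.log 2 ^ 2 := pow_le_pow_left₀ (by norm_num) l1.le 2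
  have s2 : Real.log 2 ^ 2 ≤ (0.6931471808 : ℝ) ^ 2 := pow_le_pow_left₀ (by linarith) l2.le 2
  have s3 : Real.log 2 ^ 3 ≤ (0.6931471808 : ℝ) ^ 3 := pow_le_pow_left₀ (by linarith) l2.le 3
  have hd2 : 0 ≤ (p - 1) ^ 2 := sq_nonneg _
  have hd3 : 0 ≤ (p - 1) ^ 3 := pow_nonneg hd 3
  constructor
  · have h2 := Real.quadratic_le_exp_of_nonneg hx0
    rw [h1]
    have t1 : 0.6931471 * (p - 1) ≤ Real.log 2 * (p - 1) :=
      mul_le_mul_of_nonneg_right (by linarith) hd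
    have t2 : (0.6931471803 : ℝ) ^ 2 * (p - 1) ^ 2 ≤ Real.log 2 ^ 2 * (p - 1) ^ 2 :=
      mul_le_mul_of_nonneg_right s1 hd2
    have e : (Real.log 2 * (p - 1)) ^ 2 = Real.log 2 ^ 2 * (p - 1) ^ 2 := by ring
    rw [e] at h2
    nlinarith
  · have h2 := Real.exp_bound' hx0 hx1 (n := 3) (by norm_num)
    simp only [Finset.sum_range_succ, Finset.sum_range_zero, Nat.factorial] at h2
    rw [h1]
    have t1 : Real.log 2 * (p - 1) ≤ 0.6931471808 * (p - 1) :=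
      mul_le_mul_of_nonneg_right l2.le hd
    have t2 : Real.log 2 ^ 2 * (p - 1) ^ 2 ≤ (0.6931471808 : ℝ) ^ 2 * (p - 1) ^ 2 :=
      mul_le_mul_of_nonneg_right s2 hd2
    have t3 : Real.log 2 ^ 3 * (p - 1) ^ 3 ≤ (0.6931471808 : ℝ) ^ 3 * (p - 1) ^ 3 :=
      mul_le_mul_of_nonneg_right s3 hd3
    have e2 : (Real.log 2 * (p - 1)) ^ 2 = Real.log 2 ^ 2 * (p - 1) ^ 2 := by ring
    have e3 : (Real.log 2 * (p - 1)) ^ 3 = Real.log 2 ^ 3 * (p - 1) ^ 3 := by ring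
    rw [e2, e3] at h2
    norm_num at h2 t1 t2 t3 ⊢
    nlinarith

theorem bV (p : ℝ) (ha : 1 ≤ p) (hb : p ≤ 3 / 2) :
    0 ≤ (-124100) + (-68400) * p + (124100) * (2 : ℝ) ^ p + (-27850) * (p * (2 : ℝ) ^ p) := by
  obtain ⟨h1, h2⟩ := near_one p ha hb
  have hc : 0 ≤ (124100) + (-27850) * p := by linarith
  have hm := mul_nonneg hc (sub_nonneg.mpr h1)
  have hd : 0 ≤ p - 1 := by linarith
  have hd' : 0 ≤ 3 / 2 - p := by linarith
  have hd2 := mul_nonneg hd hd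
  have hd3 := mul_nonneg hd2 hd'
  have hd4 := mul_nonneg hd hd'
  have hd5 := mul_nonneg hd2 hd
  have hd6 := mul_nonneg hd5 hd
  have hd7 := mul_nonneg hd5 hd'
  nlinarith [hm, hd2, hd3, hd4, hd5, hd6, hd7]

theorem bL (p : ℝ) (ha : 1 ≤ p) (hb : p ≤ 3 / 2) :
    0 ≤ (-111022) + (-78716) * p + (120783) * (2 : ℝ) ^ p + (-25914) * (p * (2 : ℝ) ^ p) := by
  obtain ⟨h1, h2⟩ := near_one p ha hb
  have hc : 0 ≤ (120783) + (-25914) * p := by linarith
  have hm := mul_nonneg hc (sub_nonneg.mpr h1)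
  have hd : 0 ≤ p - 1 := by linarith
  have hd' : 0 ≤ 3 / 2 - p := by linarith
  have hd2 := mul_nonneg hd hd
  have hd3 := mul_nonneg hd2 hd'
  have hd4 := mul_nonneg hd hd'
  have hd5 := mul_nonneg hd2 hd
  have hd6 := mul_nonneg hd5 hd
  have hd7 := mul_nonneg hd5 hd'
  nlinarith [hm, hd2, hd3, hd4, hd5, hd6, hd7]

theorem bB (p : ℝ) (ha : 1 ≤ p) (hb : p ≤ 3 / 2) :
    0 ≤ (56000) + (23000) * p + (-56000) * (2 : ℝ) ^ p + (16500) * (p * (2 : ℝ) ^ p) := by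
  obtain ⟨h1, h2⟩ := near_one p ha hb
  have hc : 0 ≤ -((-56000) + (16500) * p) := by linarith
  have hm := mul_nonneg hc (sub_nonneg.mpr h2)
  have hd : 0 ≤ p - 1 := by linarith
  have hd' : 0 ≤ 3 / 2 - p := by linarith
  have hd2 := mul_nonneg hd hd
  have hd3 := mul_nonneg hd2 hd'
  have hd4 := mul_nonneg hd hd'
  have hd5 := mul_nonneg hd2 hd
  have hd6 := mul_nonneg hd5 hd
  have hd7 := mul_nonneg hd5 hd'
  nlinarith [hm, hd2, hd3, hd4, hd5, hd6, hd7]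

theorem bO (p : ℝ) (ha : 1 ≤ p) (hb : p ≤ 3 / 2) :
    0 ≤ (257) + (200) * p + (-257) * (2 : ℝ) ^ p + (50) * (p * (2 : ℝ) ^ p) := by
  obtain ⟨h1, h2⟩ := near_one p ha hb
  have hc : 0 ≤ -((-257) + (50) * p) := by linarith
  have hm := mul_nonneg hc (sub_nonneg.mpr h2)
  have hd : 0 ≤ p - 1 := by linarith
  have hd' : 0 ≤ 3 / 2 - p := by linarith
  have hd2 := mul_nonneg hd hd
  have hd3 := mul_nonneg hd2 hd'
  have hd4 := mul_nonneg hd hd'
  have hd5 := mul_nonneg hd2 hd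
  have hd6 := mul_nonneg hd5 hd
  have hd7 := mul_nonneg hd5 hd'
  nlinarith [hm, hd2, hd3, hd4, hd5, hd6, hd7]

theorem bK (p : ℝ) (ha : 1 ≤ p) (hb : p ≤ 3 / 2) :
    0 ≤ (-514) + (-400) * p + (557) * (2 : ℝ) ^ p + (-100) * (p * (2 : ℝ) ^ p) := by
  obtain ⟨h1, h2⟩ := near_one p ha hb
  have hc : 0 ≤ (557) + (-100) * p := by linarith
  have hm := mul_nonneg hc (sub_nonneg.mpr h1)
  have hd : 0 ≤ p - 1 := by linarith
  have hd' : 0 ≤ 3 / 2 - p := by linarith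
  have hd2 := mul_nonneg hd hd
  have hd3 := mul_nonneg hd2 hd'
  have hd4 := mul_nonneg hd hd'
  have hd5 := mul_nonneg hd2 hd
  have hd6 := mul_nonneg hd5 hd
  have hd7 := mul_nonneg hd5 hd'
  nlinarith [hm, hd2, hd3, hd4, hd5, hd6, hd7]

end Pool.Agent.H77Lp
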