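import Mathlib

set_option autoImplicit false

/-!
# Quartic majorants of powers

If a quartic polynomial agrees with `x ^ p` to second order at `1` and `2`, and is at least `x ^ p`
at `0` (for `1 ≤ p ≤ 2`), respectively at `3` (for `2 ≤ p ≤ 3`), then it is at least `x ^ p` for all
`x ≥ 0`, respectively for `0 ≤ x ≤ 3`.
-/

namespace Pool.Agent.H77Lp

theorem rolle_step (f f' : ℝ → ℝ) (h : ∀ x, 0 < x → HasDerivAt f (f' x) x) {a b : ℝ} (ha : 0 < a)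
    (hab : a < b) (za : f a = 0) (zb : f b = 0) : ∃ c, a < c ∧ c < b ∧ f' c = 0 := by
  have hc : ContinuousOn f (Set.Icc a b) := fun x hx =>
    (h x (lt_of_lt_of_le ha hx.1)).continuousAt.continuousWithinAt
  obtain ⟨c, hc1, hc2⟩ := exists_hasDerivAt_eq_zero hab hc (by rw [za, zb])
    (fun x hx => h x (lt_trans ha hx.1))
  exact ⟨c, hc1.1, hc1.2, hc2⟩

/-- five positive zeros of the first function give a zero of the fourth derivative -/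
theorem rolle_five (f0 f1 f2 f3 f4 : ℝ → ℝ) (h01 : ∀ x, 0 < x → HasDerivAt f0 (f1 x) x)
    (h12 : ∀ x, 0 < x → HasDerivAt f1 (f2 x) x) (h23 : ∀ x, 0 < x → HasDerivAt f2 (f3 x) x)
    (h34 : ∀ x, 0 < x → HasDerivAt f3 (f4 x) x) {a1 a2 a3 a4 a5 : ℝ} (h0 : 0 < a1) (h1 : a1 < a2)
    (h2 : a2 < a3) (h3 : a3 < a4) (h4 : a4 < a5) (z1 : f0 a1 = 0) (z2 : f0 a2 = 0)
    (z3 : f0 a3 = 0) (z4 : f0 a4 = 0) (z5 : f0 a5 = 0) : ∃ c, 0 < c ∧ f4 c = 0 := by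
  obtain ⟨b1, hb1, hb1', y1⟩ := rolle_step f0 f1 h01 h0 h1 z1 z2
  obtain ⟨b2, hb2, hb2', y2⟩ := rolle_step f0 f1 h01 (h0.trans h1) h2 z2 z3
  obtain ⟨b3, hb3, hb3', y3⟩ := rolle_step f0 f1 h01 ((h0.trans h1).trans h2) h3 z3 z4
  obtain ⟨b4, hb4, hb4', y4⟩ := rolle_step f0 f1 h01 (((h0.trans h1).trans h2).trans h3) h4 z4 z5
  have p1 : 0 < b1 := h0.trans hb1
  have q1 : b1 < b2 := hb1'.trans hb2
  have q2 : b2 < b3 := hb2'.trans hb3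
  have q3 : b3 < b4 := hb3'.trans hb4
  obtain ⟨c1, hc1, hc1', x1⟩ := rolle_step f1 f2 h12 p1 q1 y1 y2
  obtain ⟨c2, hc2, hc2', x2⟩ := rolle_step f1 f2 h12 (p1.trans q1) q2 y2 y3
  obtain ⟨c3, hc3, hc3', x3⟩ := rolle_step f1 f2 h12 ((p1.trans q1).trans q2) q3 y3 y4
  have r1 : 0 < c1 := p1.trans hc1
  have s1 : c1 < c2 := hc1'.trans hc2
  have s2 : c2 < c3 := hc2'.trans hc3
  obtain ⟨d1, hd1, hd1', w1⟩ := rolle_step f2 f3 h23 r1 s1 x1 x2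
  obtain ⟨d2, hd2, hd2', w2⟩ := rolle_step f2 f3 h23 (r1.trans s1) s2 x2 x3
  obtain ⟨e, he, he', v⟩ := rolle_step f3 f4 h34 (r1.trans hd1) (hd1'.trans hd2) w1 w2
  exact ⟨e, (r1.trans hd1).trans he, v⟩

theorem hasDerivAt_poly (c0 c1 c2 c3 c4 x : ℝ) :
    HasDerivAt (fun y : ℝ => c0 + c1 * y + c2 * y ^ 2 + c3 * y ^ 3 + c4 * y ^ 4)
      (c1 + 2 * c2 * x + 3 * c3 * x ^ 2 + 4 * c4 * x ^ 3 + 0 * x ^ 4) x := by
  have h1 : HasDerivAt (fun y : ℝ => c1 * y) (c1 * 1) x := (hasDerivAt_id x).const_mul c1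
  have h2 : HasDerivAt (fun y : ℝ => c2 * y ^ 2) (c2 * (2 * x ^ 1)) x := by
    have := (hasDerivAt_pow 2 x).const_mul c2
    norm_num at this ⊢
    exact this
  have h3 : HasDerivAt (fun y : ℝ => c3 * y ^ 3) (c3 * (3 * x ^ 2)) x := by
    have := (hasDerivAt_pow 3 x).const_mul c3
    norm_num at this ⊢
    exact this
  have h4 : HasDerivAt (fun y : ℝ => c4 * y ^ 4) (c4 * (4 * x ^ 3)) x := by
    have := (hasDerivAt_pow 4 x).const_mul c4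
    norm_num at this ⊢
    exact this
  have h := (((h1.const_add c0).add h2).add h3).add h4
  refine h.congr_deriv ?_
  ring

theorem hasDerivAt_mono (a q x : ℝ) (hx : 0 < x) :
    HasDerivAt (fun y : ℝ => a * y ^ q) (a * q * x ^ (q - 1)) x := by
  have h := (Real.hasDerivAt_rpow_const (p := q) (Or.inl hx.ne')).const_mul a
  refine h.congr_deriv ?_
  ring

/-- zeros of `p x^(p-1) - r'(x)`, where `r` is a quintic polynomial with leading coefficient `r5` -/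
theorem five_zeros (p r1 r2 r3 r4 r5 : ℝ) {a1 a2 a3 a4 a5 : ℝ} (h0 : 0 < a1) (h1 : a1 < a2)
    (h2 : a2 < a3) (h3 : a3 < a4) (h4 : a4 < a5)
    (z : ∀ x : ℝ, x = a1 ∨ x = a2 ∨ x = a3 ∨ x = a4 ∨ x = a5 →
      p * x ^ (p - 1) - (r1 + 2 * r2 * x + 3 * r3 * x ^ 2 + 4 * r4 * x ^ 3 + 5 * r5 * x ^ 4) = 0) :
    ∃ c : ℝ, 0 < c ∧ p * (p - 1) * (p - 2) * (p - 3) * (p - 4) * c ^ (p - 5) = 120 * r5 := by
  have D : ∀ (a q c0 c1 c2 c3 c4 : ℝ), ∀ x : ℝ, 0 < x →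
      HasDerivAt (fun y : ℝ => a * y ^ q - (c0 + c1 * y + c2 * y ^ 2 + c3 * y ^ 3 + c4 * y ^ 4))
        (a * q * x ^ (q - 1) - (c1 + 2 * c2 * x + 3 * c3 * x ^ 2 + 4 * c4 * x ^ 3 + 0 * x ^ 4)) x :=
    fun a q c0 c1 c2 c3 c4 x hx => (hasDerivAt_mono a q x hx).sub (hasDerivAt_poly c0 c1 c2 c3 c4 x)
  obtain ⟨c, hc, hc'⟩ := rolle_five
    (fun x => p * x ^ (p - 1) - (r1 + (2 * r2) * x + (3 * r3) * x ^ 2 + (4 * r4) * x ^ 3
      + (5 * r5) * x ^ 4))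
    (fun x => p * (p - 1) * x ^ (p - 1 - 1) - ((2 * r2) + 2 * (3 * r3) * x + 3 * (4 * r4) * x ^ 2
      + 4 * (5 * r5) * x ^ 3 + 0 * x ^ 4))
    (fun x => p * (p - 1) * (p - 1 - 1) * x ^ (p - 1 - 1 - 1)
      - ((2 * (3 * r3)) + 2 * (3 * (4 * r4)) * x + 3 * (4 * (5 * r5)) * x ^ 2
      + 4 * 0 * x ^ 3 + 0 * x ^ 4))
    (fun x => p * (p - 1) * (p - 1 - 1) * (p - 1 - 1 - 1) * x ^ (p - 1 - 1 - 1 - 1)
      - (2 * (3 * (4 * r4)) + 2 * (3 * (4 * (5 * r5))) * x + 3 * (4 * 0) * x ^ 2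
      + 4 * 0 * x ^ 3 + 0 * x ^ 4))
    (fun x => p * (p - 1) * (p - 1 - 1) * (p - 1 - 1 - 1) * (p - 1 - 1 - 1 - 1)
        * x ^ (p - 1 - 1 - 1 - 1 - 1)
      - (2 * (3 * (4 * (5 * r5))) + 2 * (3 * (4 * 0)) * x + 3 * (4 * 0) * x ^ 2
      + 4 * 0 * x ^ 3 + 0 * x ^ 4))
    (D _ _ _ _ _ _ _) (D _ _ _ _ _ _ _) (D _ _ _ _ _ _ _) (D _ _ _ _ _ _ _) h0 h1 h2 h3 h4
    (z _ (Or.inl rfl)) (z _ (Or.inr (Or.inl rfl))) (z _ (Or.inr (Or.inr (Or.inl rfl))))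
    (z _ (Or.inr (Or.inr (Or.inr (Or.inl rfl))))) (z _ (Or.inr (Or.inr (Or.inr (Or.inr rfl)))))
  refine ⟨c, hc, ?_⟩
  have e1 : p - 1 - 1 - 1 - 1 - 1 = p - 5 := by ring
  simp only [e1] at hc'
  linear_combination hc'

theorem rolle_zero (p r0 r1 r2 r3 r4 r5 : ℝ) (hp : 0 ≤ p) {a b : ℝ} (ha : 0 ≤ a) (hab : a < b)
    (za : a ^ p - (r0 + r1 * a + r2 * a ^ 2 + r3 * a ^ 3 + r4 * a ^ 4 + r5 * a ^ 5) = 0)
    (zb : b ^ p - (r0 + r1 * b + r2 * b ^ 2 + r3 * b ^ 3 + r4 * b ^ 4 + r5 * b ^ 5) = 0) :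
    ∃ c, a < c ∧ c < b ∧
      p * c ^ (p - 1) - (r1 + 2 * r2 * c + 3 * r3 * c ^ 2 + 4 * r4 * c ^ 3 + 5 * r5 * c ^ 4) = 0 := by
  have hcont : ContinuousOn (fun y : ℝ => y ^ p
      - (r0 + r1 * y + r2 * y ^ 2 + r3 * y ^ 3 + r4 * y ^ 4 + r5 * y ^ 5)) (Set.Icc a b) := by
    apply ContinuousOn.sub
    · exact (Real.continuous_rpow_const hp).continuousOn
    · fun_prop
  obtain ⟨c, hc1, hc2⟩ := exists_hasDerivAt_eq_zero
    (f := fun y : ℝ => y ^ p - (r0 + r1 * y + r2 * y ^ 2 + r3 * y ^ 3 + r4 * y ^ 4 + r5 * y ^ 5))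
    (f' := fun y : ℝ => p * y ^ (p - 1)
      - (r1 + 2 * r2 * y + 3 * r3 * y ^ 2 + 4 * r4 * y ^ 3 + 5 * r5 * y ^ 4)) hab hcont
    (by simp only [za, zb]) (fun x hx => by
      have hx0 : 0 < x := lt_of_le_of_lt ha hx.1
      have h1 := Real.hasDerivAt_rpow_const (p := p) (Or.inl hx0.ne')
      have h2 := hasDerivAt_poly r0 r1 r2 r3 r4 x
      have h3 : HasDerivAt (fun y : ℝ => r5 * y ^ 5) (r5 * (5 * x ^ 4)) x := by
        have := (hasDerivAt_pow 5 x).const_mul r5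
        norm_num at this ⊢
        exact this
      refine (h1.sub (h2.add h3)).congr_deriv ?_
      ring)
  exact ⟨c, hc1.1, hc1.2, hc2⟩

/-- the majorant for `1 ≤ p ≤ 2` -/
theorem dom_low (p q0 q1 q2 q3 q4 : ℝ) (hp1 : 1 ≤ p) (hp2 : p ≤ 2)
    (e1 : q0 + q1 + q2 + q3 + q4 = 1)
    (e2 : q0 + q1 * 2 + q2 * 2 ^ 2 + q3 * 2 ^ 3 + q4 * 2 ^ 4 = (2 : ℝ) ^ p)
    (d1 : q1 + 2 * q2 + 3 * q3 + 4 * q4 = p)
    (d2 : q1 + 2 * q2 * 2 + 3 * q3 * 2 ^ 2 + 4 * q4 * 2 ^ 3 = p * (2 : ℝ) ^ (p - 1))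
    (h0 : 0 ≤ q0) (x : ℝ) (hx : 0 ≤ x) :
    x ^ p ≤ q0 + q1 * x + q2 * x ^ 2 + q3 * x ^ 3 + q4 * x ^ 4 := by
  have hw : ∀ y : ℝ, (y - 1) ^ 2 * (y - 2) ^ 2 = y ^ 4 - 6 * y ^ 3 + 13 * y ^ 2 - 12 * y + 4 := by
    intro y
    ring
  rcases eq_or_lt_of_le hx with hx0 | hx0
  · rw [← hx0, Real.zero_rpow (by linarith)]
    linarith
  by_cases hx1 : x = 1
  · subst hx1
    rw [Real.one_rpow]
    linarith
  by_cases hx2 : x = 2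
  · subst hx2
    linarith
  have hwx : 0 < (x - 1) ^ 2 * (x - 2) ^ 2 := by
    have h1 : x - 1 ≠ 0 := sub_ne_zero.mpr hx1
    have h2 : x - 2 ≠ 0 := sub_ne_zero.mpr hx2
    positivity
  by_contra hcon
  rw [not_le] at hcon
  set s : ℝ := q0 / 4 with hs
  set K : ℝ := (x ^ p - (q0 + q1 * x + q2 * x ^ 2 + q3 * x ^ 3 + q4 * x ^ 4
    - s * ((x - 1) ^ 2 * (x - 2) ^ 2))) / (x * ((x - 1) ^ 2 * (x - 2) ^ 2)) with hK
  have hKpos : 0 < K := by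
    apply div_pos
    · have : 0 ≤ s * ((x - 1) ^ 2 * (x - 2) ^ 2) := mul_nonneg (by linarith) hwx.le
      linarith
    · positivity
  have hKx : K * (x * ((x - 1) ^ 2 * (x - 2) ^ 2)) = x ^ p - (q0 + q1 * x + q2 * x ^ 2
      + q3 * x ^ 3 + q4 * x ^ 4 - s * ((x - 1) ^ 2 * (x - 2) ^ 2)) := by
    rw [hK, div_mul_cancel₀]
    positivity
  rw [hw] at hKx
  -- the quintic
  set r0 : ℝ := q0 - 4 * s
  set r1 : ℝ := q1 + 12 * s + 4 * K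
  set r2 : ℝ := q2 - 13 * s - 12 * K
  set r3 : ℝ := q3 + 6 * s + 13 * K
  set r4 : ℝ := q4 - s - 6 * K
  have z0 : (0 : ℝ) ^ p - (r0 + r1 * 0 + r2 * 0 ^ 2 + r3 * 0 ^ 3 + r4 * 0 ^ 4 + K * 0 ^ 5) = 0 := by
    rw [Real.zero_rpow (by linarith)]
    simp only [r0, hs]
    ring
  have z1 : (1 : ℝ) ^ p - (r0 + r1 * 1 + r2 * 1 ^ 2 + r3 * 1 ^ 3 + r4 * 1 ^ 4 + K * 1 ^ 5) = 0 := by
    rw [Real.one_rpow]
    simp only [r0, r1, r2, r3, r4]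
    linear_combination -e1
  have z2 : (2 : ℝ) ^ p - (r0 + r1 * 2 + r2 * 2 ^ 2 + r3 * 2 ^ 3 + r4 * 2 ^ 4 + K * 2 ^ 5) = 0 := by
    simp only [r0, r1, r2, r3, r4]
    linear_combination -e2
  have zx : x ^ p - (r0 + r1 * x + r2 * x ^ 2 + r3 * x ^ 3 + r4 * x ^ 4 + K * x ^ 5) = 0 := by
    simp only [r0, r1, r2, r3, r4]
    linear_combination -hKx
  have y1 : p * (1 : ℝ) ^ (p - 1)
      - (r1 + 2 * r2 * 1 + 3 * r3 * 1 ^ 2 + 4 * r4 * 1 ^ 3 + 5 * K * 1 ^ 4) = 0 := by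
    rw [Real.one_rpow]
    simp only [r1, r2, r3, r4]
    linear_combination -d1
  have y2 : p * (2 : ℝ) ^ (p - 1)
      - (r1 + 2 * r2 * 2 + 3 * r3 * 2 ^ 2 + 4 * r4 * 2 ^ 3 + 5 * K * 2 ^ 4) = 0 := by
    simp only [r1, r2, r3, r4]
    linear_combination -d2
  have key : ∃ c : ℝ, 0 < c ∧ p * (p - 1) * (p - 2) * (p - 3) * (p - 4) * c ^ (p - 5) = 120 * K := by
    rcases lt_trichotomy x 1 with hlt | heq | hgt
    · obtain ⟨u, hu, hu', zu⟩ := rolle_zero p r0 r1 r2 r3 r4 K (by linarith) le_rfl hx0 z0 zx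
      obtain ⟨v, hv, hv', zv⟩ := rolle_zero p r0 r1 r2 r3 r4 K (by linarith) hx hlt zx z1
      obtain ⟨t, ht, ht', zt⟩ := rolle_zero p r0 r1 r2 r3 r4 K (by linarith) zero_le_one
        (by norm_num : (1 : ℝ) < 2) z1 z2
      refine five_zeros p r1 r2 r3 r4 K hu (hu'.trans hv) hv' ht ht' ?_
      rintro y (rfl | rfl | rfl | rfl | rfl) <;> assumption
    · exact absurd heq hx1
    · rcases lt_trichotomy x 2 with hlt | heq | hgt2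
      · obtain ⟨u, hu, hu', zu⟩ := rolle_zero p r0 r1 r2 r3 r4 K (by linarith) le_rfl
          zero_lt_one z0 z1
        obtain ⟨v, hv, hv', zv⟩ := rolle_zero p r0 r1 r2 r3 r4 K (by linarith) zero_le_one hgt z1 zx
        obtain ⟨t, ht, ht', zt⟩ := rolle_zero p r0 r1 r2 r3 r4 K (by linarith) hx hlt zx z2
        refine five_zeros p r1 r2 r3 r4 K hu hu' hv (hv'.trans ht) ht' ?_
        rintro y (rfl | rfl | rfl | rfl | rfl) <;> assumption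
      · exact absurd heq hx2
      · obtain ⟨u, hu, hu', zu⟩ := rolle_zero p r0 r1 r2 r3 r4 K (by linarith) le_rfl
          zero_lt_one z0 z1
        obtain ⟨v, hv, hv', zv⟩ := rolle_zero p r0 r1 r2 r3 r4 K (by linarith) zero_le_one
          (by norm_num : (1 : ℝ) < 2) z1 z2
        obtain ⟨t, ht, ht', zt⟩ := rolle_zero p r0 r1 r2 r3 r4 K (by linarith) zero_le_two hgt2 z2 zx
        refine five_zeros p r1 r2 r3 r4 K hu hu' hv hv' ht ?_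
        rintro y (rfl | rfl | rfl | rfl | rfl) <;> assumption
  obtain ⟨c, hc, hc'⟩ := key
  have hcp : 0 < c ^ (p - 5) := Real.rpow_pos_of_pos hc _
  have h5 : p * (p - 1) * (p - 2) * (p - 3) * (p - 4) ≤ 0 := by
    have a1 : 0 ≤ p * (p - 1) := mul_nonneg (by linarith) (by linarith)
    have a2 : 0 ≤ (3 - p) * (4 - p) := mul_nonneg (by linarith) (by linarith)
    have a3 : 0 ≤ (2 - p) := by linarith
    have := mul_nonneg (mul_nonneg a1 a3) a2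
    linarith
  nlinarith [mul_nonneg (neg_nonneg.mpr h5) hcp.le]

/-- the majorant for `2 ≤ p ≤ 3` -/
theorem dom_high (p q0 q1 q2 q3 q4 : ℝ) (hp1 : 2 ≤ p) (hp2 : p ≤ 3)
    (e1 : q0 + q1 + q2 + q3 + q4 = 1)
    (e2 : q0 + q1 * 2 + q2 * 2 ^ 2 + q3 * 2 ^ 3 + q4 * 2 ^ 4 = (2 : ℝ) ^ p)
    (d1 : q1 + 2 * q2 + 3 * q3 + 4 * q4 = p)
    (d2 : q1 + 2 * q2 * 2 + 3 * q3 * 2 ^ 2 + 4 * q4 * 2 ^ 3 = p * (2 : ℝ) ^ (p - 1))
    (h3 : (3 : ℝ) ^ p ≤ q0 + q1 * 3 + q2 * 3 ^ 2 + q3 * 3 ^ 3 + q4 * 3 ^ 4) (x : ℝ) (hx : 0 ≤ x)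
    (hx3 : x ≤ 3) :
    x ^ p ≤ q0 + q1 * x + q2 * x ^ 2 + q3 * x ^ 3 + q4 * x ^ 4 := by
  have hw : ∀ y : ℝ, (y - 1) ^ 2 * (y - 2) ^ 2 = y ^ 4 - 6 * y ^ 3 + 13 * y ^ 2 - 12 * y + 4 := by
    intro y
    ring
  rcases eq_or_lt_of_le hx3 with hx0 | hx0
  · rw [hx0]
    exact h3
  by_cases hx1 : x = 1
  · subst hx1
    rw [Real.one_rpow]
    linarith
  by_cases hx2 : x = 2
  · subst hx2
    linarith
  have hwx : 0 < (x - 1) ^ 2 * (x - 2) ^ 2 := by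
    have h1 : x - 1 ≠ 0 := sub_ne_zero.mpr hx1
    have h2 : x - 2 ≠ 0 := sub_ne_zero.mpr hx2
    positivity
  by_contra hcon
  rw [not_le] at hcon
  set s : ℝ := (q0 + q1 * 3 + q2 * 3 ^ 2 + q3 * 3 ^ 3 + q4 * 3 ^ 4 - (3 : ℝ) ^ p) / 4 with hs
  have hs0 : 0 ≤ s := by
    rw [hs]
    linarith
  set K : ℝ := (x ^ p - (q0 + q1 * x + q2 * x ^ 2 + q3 * x ^ 3 + q4 * x ^ 4
    - s * ((x - 1) ^ 2 * (x - 2) ^ 2))) / ((x - 3) * ((x - 1) ^ 2 * (x - 2) ^ 2)) with hK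
  have hden : (x - 3) * ((x - 1) ^ 2 * (x - 2) ^ 2) < 0 := mul_neg_of_neg_of_pos (by linarith) hwx
  have hKneg : K < 0 := by
    apply div_neg_of_pos_of_neg _ hden
    have : 0 ≤ s * ((x - 1) ^ 2 * (x - 2) ^ 2) := mul_nonneg hs0 hwx.le
    linarith
  have hKx : K * ((x - 3) * ((x - 1) ^ 2 * (x - 2) ^ 2)) = x ^ p - (q0 + q1 * x + q2 * x ^ 2
      + q3 * x ^ 3 + q4 * x ^ 4 - s * ((x - 1) ^ 2 * (x - 2) ^ 2)) := by
    rw [hK, div_mul_cancel₀ _ hden.ne]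
  rw [hw] at hKx
  -- the quintic
  set r0 : ℝ := q0 - 4 * s - 12 * K
  set r1 : ℝ := q1 + 12 * s + 40 * K
  set r2 : ℝ := q2 - 13 * s - 51 * K
  set r3 : ℝ := q3 + 6 * s + 31 * K
  set r4 : ℝ := q4 - s - 9 * K
  have z3 : (3 : ℝ) ^ p - (r0 + r1 * 3 + r2 * 3 ^ 2 + r3 * 3 ^ 3 + r4 * 3 ^ 4 + K * 3 ^ 5) = 0 := by
    simp only [r0, r1, r2, r3, r4]
    linear_combination 4 * hs
  have z1 : (1 : ℝ) ^ p - (r0 + r1 * 1 + r2 * 1 ^ 2 + r3 * 1 ^ 3 + r4 * 1 ^ 4 + K * 1 ^ 5) = 0 := by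
    rw [Real.one_rpow]
    simp only [r0, r1, r2, r3, r4]
    linear_combination -e1
  have z2 : (2 : ℝ) ^ p - (r0 + r1 * 2 + r2 * 2 ^ 2 + r3 * 2 ^ 3 + r4 * 2 ^ 4 + K * 2 ^ 5) = 0 := by
    simp only [r0, r1, r2, r3, r4]
    linear_combination -e2
  have zx : x ^ p - (r0 + r1 * x + r2 * x ^ 2 + r3 * x ^ 3 + r4 * x ^ 4 + K * x ^ 5) = 0 := by
    simp only [r0, r1, r2, r3, r4]
    linear_combination -hKx
  have y1 : p * (1 : ℝ) ^ (p - 1)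
      - (r1 + 2 * r2 * 1 + 3 * r3 * 1 ^ 2 + 4 * r4 * 1 ^ 3 + 5 * K * 1 ^ 4) = 0 := by
    rw [Real.one_rpow]
    simp only [r1, r2, r3, r4]
    linear_combination -d1
  have y2 : p * (2 : ℝ) ^ (p - 1)
      - (r1 + 2 * r2 * 2 + 3 * r3 * 2 ^ 2 + 4 * r4 * 2 ^ 3 + 5 * K * 2 ^ 4) = 0 := by
    simp only [r1, r2, r3, r4]
    linear_combination -d2
  have hp0 : 0 ≤ p := by linarith
  have key : ∃ c : ℝ, 0 < c ∧ p * (p - 1) * (p - 2) * (p - 3) * (p - 4) * c ^ (p - 5) = 120 * K := by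
    rcases lt_trichotomy x 1 with hlt | heq | hgt
    · obtain ⟨u, hu, hu', zu⟩ := rolle_zero p r0 r1 r2 r3 r4 K hp0 hx hlt zx z1
      obtain ⟨v, hv, hv', zv⟩ := rolle_zero p r0 r1 r2 r3 r4 K hp0 zero_le_one
        (by norm_num : (1 : ℝ) < 2) z1 z2
      obtain ⟨t, ht, ht', zt⟩ := rolle_zero p r0 r1 r2 r3 r4 K hp0 zero_le_two
        (by norm_num : (2 : ℝ) < 3) z2 z3
      refine five_zeros p r1 r2 r3 r4 K (lt_of_le_of_lt hx hu) hu' hv hv' ht ?_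
      rintro y (rfl | rfl | rfl | rfl | rfl) <;> assumption
    · exact absurd heq hx1
    · rcases lt_trichotomy x 2 with hlt | heq | hgt2
      · obtain ⟨u, hu, hu', zu⟩ := rolle_zero p r0 r1 r2 r3 r4 K hp0 zero_le_one hgt z1 zx
        obtain ⟨v, hv, hv', zv⟩ := rolle_zero p r0 r1 r2 r3 r4 K hp0 hx hlt zx z2
        obtain ⟨t, ht, ht', zt⟩ := rolle_zero p r0 r1 r2 r3 r4 K hp0 zero_le_two
          (by norm_num : (2 : ℝ) < 3) z2 z3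
        refine five_zeros p r1 r2 r3 r4 K zero_lt_one hu (hu'.trans hv) hv' ht ?_
        rintro y (rfl | rfl | rfl | rfl | rfl) <;> assumption
      · exact absurd heq hx2
      · obtain ⟨u, hu, hu', zu⟩ := rolle_zero p r0 r1 r2 r3 r4 K hp0 zero_le_one
          (by norm_num : (1 : ℝ) < 2) z1 z2
        obtain ⟨v, hv, hv', zv⟩ := rolle_zero p r0 r1 r2 r3 r4 K hp0 zero_le_two hgt2 z2 zx
        obtain ⟨t, ht, ht', zt⟩ := rolle_zero p r0 r1 r2 r3 r4 K hp0 hx hx0 zx z3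
        refine five_zeros p r1 r2 r3 r4 K zero_lt_one hu hu' hv (hv'.trans ht) ?_
        rintro y (rfl | rfl | rfl | rfl | rfl) <;> assumption
  obtain ⟨c, hc, hc'⟩ := key
  have hcp : 0 < c ^ (p - 5) := Real.rpow_pos_of_pos hc _
  have h5 : 0 ≤ p * (p - 1) * (p - 2) * (p - 3) * (p - 4) := by
    have a1 : 0 ≤ p * (p - 1) := mul_nonneg (by linarith) (by linarith)
    have a2 : 0 ≤ (3 - p) * (4 - p) := mul_nonneg (by linarith) (by linarith)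
    have a3 : 0 ≤ (p - 2) := by linarith
    have := mul_nonneg (mul_nonneg a1 a3) a2
    linarith
  nlinarith [mul_nonneg h5 hcp.le]

end Pool.Agent.H77Lp
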