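import Pool.Agent.H6Turan.Induct

set_option autoImplicit false
set_option linter.unusedSimpArgs false
set_option linter.unusedVariables false
set_option maxHeartbeats 4000000
set_option maxRecDepth 100000

/-!
# From tables to an inequality for the codegree moments

The tables `K` (four-vertex types) and `M` (two-vertex type) satisfy symmetry conditions that are
checked by evaluation; `phi` is a function of the codegree inside the six-tuple. The pointwise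
inequality is checked by `chk5`, and the sum over all six-tuples gives a polynomial inequality for
the codegrees.
-/

namespace Pool.Agent.H77Lp

open Pool.Agent.H6Turan

/-- two-level lookup: row `f`, entry `g` -/
def tb2 (T w m rw rm f g : ℕ) : ℕ := tb (tb T rw rm f) w m g

def cK01 (K : ℕ → ℕ → ℕ → ℕ) : Bool :=
  all2 fun b0 =>
  all2 fun b1 =>
  all2 fun b2 =>
  all2 fun b3 =>
  all2 fun f0 =>
  all2 fun f1 =>
  all2 fun f2 =>
  all2 fun f3 =>
  all2 fun f4 =>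
  all2 fun f5 =>
  all2 fun h0 =>
  all2 fun h1 =>
  all2 fun h2 =>
  all2 fun h3 =>
  all2 fun h4 =>
  all2 fun h5 =>
  Nat.beq (K (ix4 b0 b1 b3 b2) (ix6 f0 f2 f1 f4 f3 f5) (ix6 h0 h2 h1 h4 h3 h5)) (K (ix4 b0 b1 b2 b3) (ix6 f0 f1 f2 f3 f4 f5) (ix6 h0 h1 h2 h3 h4 h5))

def cK12 (K : ℕ → ℕ → ℕ → ℕ) : Bool :=
  all2 fun b0 =>
  all2 fun b1 =>
  all2 fun b2 =>
  all2 fun b3 =>
  all2 fun f0 =>
  all2 fun f1 =>
  all2 fun f2 =>
  all2 fun f3 =>
  all2 fun f4 =>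
  all2 fun f5 =>
  all2 fun h0 =>
  all2 fun h1 =>
  all2 fun h2 =>
  all2 fun h3 =>
  all2 fun h4 =>
  all2 fun h5 =>
  Nat.beq (K (ix4 b0 b2 b1 b3) (ix6 f1 f0 f2 f3 f5 f4) (ix6 h1 h0 h2 h3 h5 h4)) (K (ix4 b0 b1 b2 b3) (ix6 f0 f1 f2 f3 f4 f5) (ix6 h0 h1 h2 h3 h4 h5))

def cK23 (K : ℕ → ℕ → ℕ → ℕ) : Bool :=
  all2 fun b0 =>
  all2 fun b1 =>
  all2 fun b2 =>
  all2 fun b3 =>
  all2 fun f0 =>
  all2 fun f1 =>
  all2 fun f2 =>
  all2 fun f3 =>
  all2 fun f4 =>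
  all2 fun f5 =>
  all2 fun h0 =>
  all2 fun h1 =>
  all2 fun h2 =>
  all2 fun h3 =>
  all2 fun h4 =>
  all2 fun h5 =>
  Nat.beq (K (ix4 b1 b0 b2 b3) (ix6 f0 f3 f4 f1 f2 f5) (ix6 h0 h3 h4 h1 h2 h5)) (K (ix4 b0 b1 b2 b3) (ix6 f0 f1 f2 f3 f4 f5) (ix6 h0 h1 h2 h3 h4 h5))

def cK45 (K : ℕ → ℕ → ℕ → ℕ) : Bool := allLt (fun τ => allLt (fun f => allLt (fun f' =>
    Nat.beq (K τ f' f) (K τ f f')) 64) 64) 16

def cM01 (M : ℕ → ℕ → ℕ) : Bool :=
  all2 fun b0 =>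
  all2 fun b1 =>
  all2 fun b2 =>
  all2 fun b3 =>
  all2 fun h0 =>
  all2 fun h1 =>
  all2 fun h2 =>
  all2 fun h3 =>
  Nat.beq (M (ix4 b0 b1 b3 b2) (ix4 h0 h1 h3 h2)) (M (ix4 b0 b1 b2 b3) (ix4 h0 h1 h2 h3))

def cM23 (M : ℕ → ℕ → ℕ) : Bool :=
  all2 fun b0 =>
  all2 fun b1 =>
  all2 fun b2 =>
  all2 fun b3 =>
  all2 fun h0 =>
  all2 fun h1 =>
  all2 fun h2 =>
  all2 fun h3 =>
  Nat.beq (M (ix4 b1 b0 b2 b3) (ix4 h0 h1 h2 h3)) (M (ix4 b0 b1 b2 b3) (ix4 h0 h1 h2 h3))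

def cM45 (M : ℕ → ℕ → ℕ) : Bool :=
  all2 fun b0 =>
  all2 fun b1 =>
  all2 fun b2 =>
  all2 fun b3 =>
  all2 fun h0 =>
  all2 fun h1 =>
  all2 fun h2 =>
  all2 fun h3 =>
  Nat.beq (M (ix4 b0 b1 b2 b3) (ix4 h1 h0 h2 h3)) (M (ix4 b0 b1 b2 b3) (ix4 h0 h1 h2 h3))

def cMpp (M : ℕ → ℕ → ℕ) : Bool :=
  all2 fun b0 =>
  all2 fun b1 =>
  all2 fun b2 =>
  all2 fun b3 =>
  all2 fun h0 =>
  all2 fun h1 =>
  all2 fun h2 =>
  all2 fun h3 =>
  Nat.beq (M (ix4 h0 h1 h2 h3) (ix4 b0 b1 b2 b3)) (M (ix4 b0 b1 b2 b3) (ix4 h0 h1 h2 h3))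

variable {V : Type*}

theorem k01 (K : ℕ → ℕ → ℕ → ℕ) (hc : cK01 K = true) (g : V → V → V → ℕ)
    (hb : ∀ a b c, g a b c = 0 ∨ g a b c = 1) (hg : Symm3 g)
    (a b c d u v : V) : Kt K g b a c d u v = Kt K g a b c d u v := by
  have h := hc
  unfold cK01 at h
  have h := all2_spec h (hb a b c)
  have h := all2_spec h (hb a b d)
  have h := all2_spec h (hb a c d)
  have h := all2_spec h (hb b c d)
  have h := all2_spec h (hb a b u)
  have h := all2_spec h (hb a c u)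
  have h := all2_spec h (hb b c u)
  have h := all2_spec h (hb a d u)
  have h := all2_spec h (hb b d u)
  have h := all2_spec h (hb c d u)
  have h := all2_spec h (hb a b v)
  have h := all2_spec h (hb a c v)
  have h := all2_spec h (hb b c v)
  have h := all2_spec h (hb a d v)
  have h := all2_spec h (hb b d v)
  have h := all2_spec h (hb c d v)
  have h := Nat.eq_of_beq_eq_true h
  have r1 : ∀ z, g b a z = g a b z := fun _ => hg.s12 _ _ _
  have r2 : ∀ z, g z b a = g z a b := fun _ => hg.s23 _ _ _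
  simp only [Kt, r1, r2]
  exact h

theorem k12 (K : ℕ → ℕ → ℕ → ℕ) (hc : cK12 K = true) (g : V → V → V → ℕ)
    (hb : ∀ a b c, g a b c = 0 ∨ g a b c = 1) (hg : Symm3 g)
    (a b c d u v : V) : Kt K g a c b d u v = Kt K g a b c d u v := by
  have h := hc
  unfold cK12 at h
  have h := all2_spec h (hb a b c)
  have h := all2_spec h (hb a b d)
  have h := all2_spec h (hb a c d)
  have h := all2_spec h (hb b c d)
  have h := all2_spec h (hb a b u)
  have h := all2_spec h (hb a c u)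
  have h := all2_spec h (hb b c u)
  have h := all2_spec h (hb a d u)
  have h := all2_spec h (hb b d u)
  have h := all2_spec h (hb c d u)
  have h := all2_spec h (hb a b v)
  have h := all2_spec h (hb a c v)
  have h := all2_spec h (hb b c v)
  have h := all2_spec h (hb a d v)
  have h := all2_spec h (hb b d v)
  have h := all2_spec h (hb c d v)
  have h := Nat.eq_of_beq_eq_true h
  have r1 : ∀ z, g c b z = g b c z := fun _ => hg.s12 _ _ _
  have r2 : ∀ z, g z c b = g z b c := fun _ => hg.s23 _ _ _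
  simp only [Kt, r1, r2]
  exact h

theorem k23 (K : ℕ → ℕ → ℕ → ℕ) (hc : cK23 K = true) (g : V → V → V → ℕ)
    (hb : ∀ a b c, g a b c = 0 ∨ g a b c = 1) (hg : Symm3 g)
    (a b c d u v : V) : Kt K g a b d c u v = Kt K g a b c d u v := by
  have h := hc
  unfold cK23 at h
  have h := all2_spec h (hb a b c)
  have h := all2_spec h (hb a b d)
  have h := all2_spec h (hb a c d)
  have h := all2_spec h (hb b c d)
  have h := all2_spec h (hb a b u)
  have h := all2_spec h (hb a c u)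
  have h := all2_spec h (hb b c u)
  have h := all2_spec h (hb a d u)
  have h := all2_spec h (hb b d u)
  have h := all2_spec h (hb c d u)
  have h := all2_spec h (hb a b v)
  have h := all2_spec h (hb a c v)
  have h := all2_spec h (hb b c v)
  have h := all2_spec h (hb a d v)
  have h := all2_spec h (hb b d v)
  have h := all2_spec h (hb c d v)
  have h := Nat.eq_of_beq_eq_true h
  have r1 : ∀ z, g d c z = g c d z := fun _ => hg.s12 _ _ _
  have r2 : ∀ z, g z d c = g z c d := fun _ => hg.s23 _ _ _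
  simp only [Kt, r1, r2]
  exact h

theorem ix6_lt (g : V → V → V → ℕ) (hb : ∀ a b c, g a b c = 0 ∨ g a b c = 1) (a b c d u : V) :
    ix6 (g a b u) (g a c u) (g b c u) (g a d u) (g b d u) (g c d u) < 64 := by
  have h1 := hb a b u
  have h2 := hb a c u
  have h3 := hb b c u
  have h4 := hb a d u
  have h5 := hb b d u
  have h6 := hb c d u
  simp only [ix6, Nat.add_eq, Nat.mul_eq]
  omega

theorem ix4_lt (g : V → V → V → ℕ) (hb : ∀ a b c, g a b c = 0 ∨ g a b c = 1) (a b c d : V) :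
    ix4 (g a b c) (g a b d) (g a c d) (g b c d) < 16 := by
  have h1 := hb a b c
  have h2 := hb a b d
  have h3 := hb a c d
  have h4 := hb b c d
  simp only [ix4, Nat.add_eq, Nat.mul_eq]
  omega

theorem k45 (K : ℕ → ℕ → ℕ → ℕ) (hc : cK45 K = true) (g : V → V → V → ℕ)
    (hb : ∀ a b c, g a b c = 0 ∨ g a b c = 1)
    (a b c d u v : V) : Kt K g a b c d v u = Kt K g a b c d u v := by
  have h := allLt_spec (allLt_spec (allLt_spec hc _ (ix4_lt g hb a b c d))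
    _ (ix6_lt g hb a b c d u)) _ (ix6_lt g hb a b c d v)
  exact Nat.eq_of_beq_eq_true h

theorem m01 (M : ℕ → ℕ → ℕ) (hc : cM01 M = true) (g : V → V → V → ℕ)
    (hb : ∀ a b c, g a b c = 0 ∨ g a b c = 1) (hg : Symm3 g)
    (a b c d e f : V) : Mt M g b a c d e f = Mt M g a b c d e f := by
  have h := hc
  unfold cM01 at h
  have h := all2_spec h (hb a b c)
  have h := all2_spec h (hb a b d)
  have h := all2_spec h (hb a c d)
  have h := all2_spec h (hb b c d)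
  have h := all2_spec h (hb a b e)
  have h := all2_spec h (hb a b f)
  have h := all2_spec h (hb a e f)
  have h := all2_spec h (hb b e f)
  have h := Nat.eq_of_beq_eq_true h
  have r1 : ∀ z, g b a z = g a b z := fun _ => hg.s12 _ _ _
  have r2 : ∀ z, g z b a = g z a b := fun _ => hg.s23 _ _ _
  simp only [Mt, r1, r2]
  exact h

theorem m23 (M : ℕ → ℕ → ℕ) (hc : cM23 M = true) (g : V → V → V → ℕ)
    (hb : ∀ a b c, g a b c = 0 ∨ g a b c = 1) (hg : Symm3 g)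
    (a b c d e f : V) : Mt M g a b d c e f = Mt M g a b c d e f := by
  have h := hc
  unfold cM23 at h
  have h := all2_spec h (hb a b c)
  have h := all2_spec h (hb a b d)
  have h := all2_spec h (hb a c d)
  have h := all2_spec h (hb b c d)
  have h := all2_spec h (hb a b e)
  have h := all2_spec h (hb a b f)
  have h := all2_spec h (hb a e f)
  have h := all2_spec h (hb b e f)
  have h := Nat.eq_of_beq_eq_true h
  have r1 : ∀ z, g d c z = g c d z := fun _ => hg.s12 _ _ _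
  have r2 : ∀ z, g z d c = g z c d := fun _ => hg.s23 _ _ _
  simp only [Mt, r1, r2]
  exact h

theorem m45 (M : ℕ → ℕ → ℕ) (hc : cM45 M = true) (g : V → V → V → ℕ)
    (hb : ∀ a b c, g a b c = 0 ∨ g a b c = 1) (hg : Symm3 g)
    (a b c d e f : V) : Mt M g a b c d f e = Mt M g a b c d e f := by
  have h := hc
  unfold cM45 at h
  have h := all2_spec h (hb a b c)
  have h := all2_spec h (hb a b d)
  have h := all2_spec h (hb a c d)
  have h := all2_spec h (hb b c d)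
  have h := all2_spec h (hb a b e)
  have h := all2_spec h (hb a b f)
  have h := all2_spec h (hb a e f)
  have h := all2_spec h (hb b e f)
  have h := Nat.eq_of_beq_eq_true h
  have r1 : ∀ z, g f e z = g e f z := fun _ => hg.s12 _ _ _
  have r2 : ∀ z, g z f e = g z e f := fun _ => hg.s23 _ _ _
  simp only [Mt, r1, r2]
  exact h

theorem mpp (M : ℕ → ℕ → ℕ) (hc : cMpp M = true) (g : V → V → V → ℕ)
    (hb : ∀ a b c, g a b c = 0 ∨ g a b c = 1) (hg : Symm3 g)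
    (a b c d e f : V) : Mt M g a b e f c d = Mt M g a b c d e f := by
  have h := hc
  unfold cMpp at h
  have h := all2_spec h (hb a b c)
  have h := all2_spec h (hb a b d)
  have h := all2_spec h (hb a c d)
  have h := all2_spec h (hb b c d)
  have h := all2_spec h (hb a b e)
  have h := all2_spec h (hb a b f)
  have h := all2_spec h (hb a e f)
  have h := all2_spec h (hb b e f)
  have h := Nat.eq_of_beq_eq_true h
  exact h

/-- the pointwise check -/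
def goodG (K : ℕ → ℕ → ℕ → ℕ) (M : ℕ → ℕ → ℕ) (C0 : ℕ) (b012 b013 b023 b123 b014 b024 b124 b034 b134 b234 b015 b025 b125 b035 b135 b235 b045 b145 b245 b345 : ℕ) : Bool :=
  Nat.ble (Nat.add (KB K b012 b013 b023 b123 b014 b024 b124 b034 b134 b234 b015 b025 b125 b035 b135 b235 b045 b145 b245 b345)
    (MB M b012 b013 b023 b123 b014 b024 b124 b034 b134 b234 b015 b025 b125 b035 b135 b235 b045 b145 b245 b345)) C0

/-- the pointwise inequality -/
def PtG (K : ℕ → ℕ → ℕ → ℕ) (M : ℕ → ℕ → ℕ) (C0 : ℕ) (g : V → V → V → ℕ) (a b c d e f : V) : Prop :=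
  Nat.add (KS K g a b c d e f) (MS M g a b c d e f) ≤ C0

theorem good_sound (K : ℕ → ℕ → ℕ → ℕ) (M : ℕ → ℕ → ℕ) (C0 : ℕ) (g : V → V → V → ℕ)
    (hg : Symm3 g) (a b c d e f : V)
    (h : goodG K M C0 (g a b c) (g a b d) (g a c d) (g b c d) (g a b e) (g a c e) (g b c e) (g a d e) (g b d e) (g c d e) (g a b f) (g a c f) (g b c f) (g a d f) (g b d f) (g c d f) (g a e f) (g b e f) (g c e f) (g d e f) = true) :
    PtG K M C0 g a b c d e f := by
  unfold PtG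
  rw [KS_eq_KB K g hg, MS_eq_MB M g hg]
  unfold goodG at h
  exact Nat.le_of_ble_eq_true h

theorem Pt_swap0 (K : ℕ → ℕ → ℕ → ℕ) (M : ℕ → ℕ → ℕ) (C0 : ℕ)
    (c01 : cK01 K = true) (c12 : cK12 K = true) (c23 : cK23 K = true) (c45 : cK45 K = true)
    (d01 : cM01 M = true) (d23 : cM23 M = true) (d45 : cM45 M = true) (dpp : cMpp M = true)
    (g : V → V → V → ℕ) (hb : ∀ a b c, g a b c = 0 ∨ g a b c = 1) (hg : Symm3 g)
    (a b c d e f : V) (h : PtG K M C0 g b a c d e f) : PtG K M C0 g a b c d e f := by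
  unfold PtG at h ⊢
  rw [KS_swap0 K g (k01 K c01 g hb hg) (k12 K c12 g hb hg) (k23 K c23 g hb hg) (k45 K c45 g hb),
    MS_swap0 M g (m01 M d01 g hb hg) (m23 M d23 g hb hg) (m45 M d45 g hb hg)
      (mpp M dpp g hb hg)] at h
  exact h

theorem Pt_swap1 (K : ℕ → ℕ → ℕ → ℕ) (M : ℕ → ℕ → ℕ) (C0 : ℕ)
    (c01 : cK01 K = true) (c12 : cK12 K = true) (c23 : cK23 K = true) (c45 : cK45 K = true)
    (d01 : cM01 M = true) (d23 : cM23 M = true) (d45 : cM45 M = true) (dpp : cMpp M = true)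
    (g : V → V → V → ℕ) (hb : ∀ a b c, g a b c = 0 ∨ g a b c = 1) (hg : Symm3 g)
    (a b c d e f : V) (h : PtG K M C0 g a c b d e f) : PtG K M C0 g a b c d e f := by
  unfold PtG at h ⊢
  rw [KS_swap1 K g (k01 K c01 g hb hg) (k12 K c12 g hb hg) (k23 K c23 g hb hg) (k45 K c45 g hb),
    MS_swap1 M g (m01 M d01 g hb hg) (m23 M d23 g hb hg) (m45 M d45 g hb hg)
      (mpp M dpp g hb hg)] at h
  exact h

theorem Pt_swap2 (K : ℕ → ℕ → ℕ → ℕ) (M : ℕ → ℕ → ℕ) (C0 : ℕ)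
    (c01 : cK01 K = true) (c12 : cK12 K = true) (c23 : cK23 K = true) (c45 : cK45 K = true)
    (d01 : cM01 M = true) (d23 : cM23 M = true) (d45 : cM45 M = true) (dpp : cMpp M = true)
    (g : V → V → V → ℕ) (hb : ∀ a b c, g a b c = 0 ∨ g a b c = 1) (hg : Symm3 g)
    (a b c d e f : V) (h : PtG K M C0 g a b d c e f) : PtG K M C0 g a b c d e f := by
  unfold PtG at h ⊢
  rw [KS_swap2 K g (k01 K c01 g hb hg) (k12 K c12 g hb hg) (k23 K c23 g hb hg) (k45 K c45 g hb),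
    MS_swap2 M g (m01 M d01 g hb hg) (m23 M d23 g hb hg) (m45 M d45 g hb hg)
      (mpp M dpp g hb hg)] at h
  exact h

theorem Pt_swap3 (K : ℕ → ℕ → ℕ → ℕ) (M : ℕ → ℕ → ℕ) (C0 : ℕ)
    (c01 : cK01 K = true) (c12 : cK12 K = true) (c23 : cK23 K = true) (c45 : cK45 K = true)
    (d01 : cM01 M = true) (d23 : cM23 M = true) (d45 : cM45 M = true) (dpp : cMpp M = true)
    (g : V → V → V → ℕ) (hb : ∀ a b c, g a b c = 0 ∨ g a b c = 1) (hg : Symm3 g)
    (a b c d e f : V) (h : PtG K M C0 g a b c e d f) : PtG K M C0 g a b c d e f := by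
  unfold PtG at h ⊢
  rw [KS_swap3 K g (k01 K c01 g hb hg) (k12 K c12 g hb hg) (k23 K c23 g hb hg) (k45 K c45 g hb),
    MS_swap3 M g (m01 M d01 g hb hg) (m23 M d23 g hb hg) (m45 M d45 g hb hg)
      (mpp M dpp g hb hg)] at h
  exact h

theorem pointG (K : ℕ → ℕ → ℕ → ℕ) (M : ℕ → ℕ → ℕ) (C0 : ℕ)
    (c01 : cK01 K = true) (c12 : cK12 K = true) (c23 : cK23 K = true) (c45 : cK45 K = true)
    (d01 : cM01 M = true) (d23 : cM23 M = true) (d45 : cM45 M = true) (dpp : cMpp M = true)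
    (hgood : chk5 (goodG K M C0) = true)
    (g : V → V → V → ℕ) (hb : ∀ a b c, g a b c = 0 ∨ g a b c = 1) (hg : Symm3 g)
    (h4 : ∀ a b c d, ix4 (g a b c) (g a b d) (g a c d) (g b c d) ≠ 15) :
    ∀ a b c d e f, PtG K M C0 g a b c d e f :=
  chk5_sound (goodG K M C0) hgood g hb hg h4 (PtG K M C0 g)
    (Pt_swap0 K M C0 c01 c12 c23 c45 d01 d23 d45 dpp g hb hg)
    (Pt_swap1 K M C0 c01 c12 c23 c45 d01 d23 d45 dpp g hb hg)
    (Pt_swap2 K M C0 c01 c12 c23 c45 d01 d23 d45 dpp g hb hg)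
    (Pt_swap3 K M C0 c01 c12 c23 c45 d01 d23 d45 dpp g hb hg) (good_sound K M C0 g hg)

/-- number of ones among the two lowest bits -/
def lo (p : ℕ) : ℕ := Nat.add (Nat.land p 1) (Nat.land (Nat.shiftRight p 1) 1)

/-- the table `M` with a function of the codegree added -/
def MP (M : ℕ → ℕ → ℕ) (phi : ℕ → ℕ) (p q : ℕ) : ℕ := Nat.add (M p q) (phi (Nat.add (lo p) (lo q)))

theorem lo_ix4 {b0 b1 b2 b3 : ℕ} (h0 : b0 = 0 ∨ b0 = 1) (h1 : b1 = 0 ∨ b1 = 1)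
    (h2 : b2 = 0 ∨ b2 = 1) (h3 : b3 = 0 ∨ b3 = 1) : lo (ix4 b0 b1 b2 b3) = b0 + b1 := by
  rcases h0 with rfl | rfl <;> rcases h1 with rfl | rfl <;> rcases h2 with rfl | rfl <;>
    rcases h3 with rfl | rfl <;> rfl

/-- Newton expansion of a function of the sum of four bits -/
def newt (δ0 δ1 δ2 δ3 δ4 : ℤ) (x y z t : ℤ) : ℤ :=
  δ0 + δ1 * (x + y + z + t) + δ2 * (x * y + x * z + x * t + y * z + y * t + z * t)
    + δ3 * (x * y * z + x * y * t + x * z * t + y * z * t) + δ4 * (x * y * z * t)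

variable [Fintype V]

theorem sum_newt (δ0 δ1 δ2 δ3 δ4 : ℤ) (f : V → ℤ) :
    ∑ c, ∑ d, ∑ e, ∑ h, newt δ0 δ1 δ2 δ3 δ4 (f c) (f d) (f e) (f h)
      = δ0 * (Fintype.card V : ℤ) ^ 4 + 4 * δ1 * (Fintype.card V : ℤ) ^ 3 * (∑ c, f c)
        + 6 * δ2 * (Fintype.card V : ℤ) ^ 2 * (∑ c, f c) ^ 2
        + 4 * δ3 * (Fintype.card V : ℤ) * (∑ c, f c) ^ 3 + δ4 * (∑ c, f c) ^ 4 := by
  have hlin : ∀ A B : ℤ, ∑ c, (A + B * f c) = A * (Fintype.card V : ℤ) + B * ∑ c, f c := by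
    intro A B
    rw [Finset.sum_add_distrib, ← Finset.mul_sum]
    simp only [Finset.sum_const, Finset.card_univ, nsmul_eq_mul]
    ring
  have e1 : ∀ x y z : ℤ, ∑ h, newt δ0 δ1 δ2 δ3 δ4 x y z (f h)
      = (δ0 + δ1 * (x + y + z) + δ2 * (x * y + x * z + y * z) + δ3 * (x * y * z))
          * (Fintype.card V : ℤ)
        + (δ1 + δ2 * (x + y + z) + δ3 * (x * y + x * z + y * z) + δ4 * (x * y * z))
          * ∑ h, f h := by
    intro x y z
    rw [← hlin]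
    refine Finset.sum_congr rfl (fun h _ => ?_)
    unfold newt
    ring
  set n : ℤ := (Fintype.card V : ℤ) with hn
  set S : ℤ := ∑ h, f h with hS
  have e2 : ∀ x y : ℤ, ∑ e, ∑ h, newt δ0 δ1 δ2 δ3 δ4 x y (f e) (f h)
      = (δ0 * n + δ1 * S + (δ1 * n + δ2 * S) * (x + y) + (δ2 * n + δ3 * S) * (x * y)) * n
        + ((δ1 * n + δ2 * S) + (δ2 * n + δ3 * S) * (x + y) + (δ3 * n + δ4 * S) * (x * y)) * S := by
    intro x y
    rw [← hlin]
    refine Finset.sum_congr rfl (fun h _ => ?_)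
    rw [e1]
    ring
  have e3 : ∀ x : ℤ, ∑ d, ∑ e, ∑ h, newt δ0 δ1 δ2 δ3 δ4 x (f d) (f e) (f h)
      = ((δ0 * n + δ1 * S + (δ1 * n + δ2 * S) * x) * n
          + ((δ1 * n + δ2 * S) + (δ2 * n + δ3 * S) * x) * S) * n
        + (((δ1 * n + δ2 * S) + (δ2 * n + δ3 * S) * x) * n
          + ((δ2 * n + δ3 * S) + (δ3 * n + δ4 * S) * x) * S) * S := by
    intro x
    rw [← hlin]
    refine Finset.sum_congr rfl (fun h _ => ?_)
    rw [e2]
    ring
  have e4 : ∑ c, ∑ d, ∑ e, ∑ h, newt δ0 δ1 δ2 δ3 δ4 (f c) (f d) (f e) (f h)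
      = (((δ0 * n + δ1 * S) * n + (δ1 * n + δ2 * S) * S) * n
          + ((δ1 * n + δ2 * S) * n + (δ2 * n + δ3 * S) * S) * S) * n
        + (((δ1 * n + δ2 * S) * n + (δ2 * n + δ3 * S) * S) * n
          + ((δ2 * n + δ3 * S) * n + (δ3 * n + δ4 * S) * S) * S) * S := by
    rw [← hlin]
    refine Finset.sum_congr rfl (fun h _ => ?_)
    rw [e3]
    ring
  rw [e4]
  ring

theorem sum_phi (phi : ℕ → ℕ) (δ0 δ1 δ2 δ3 δ4 : ℤ)
    (hδ : ∀ x y z t : ℕ, (x = 0 ∨ x = 1) → (y = 0 ∨ y = 1) → (z = 0 ∨ z = 1) → (t = 0 ∨ t = 1) →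
      (phi (x + y + (z + t)) : ℤ) = newt δ0 δ1 δ2 δ3 δ4 x y z t)
    (g : V → V → V → ℕ) (hb : ∀ a b c, g a b c = 0 ∨ g a b c = 1) :
    ((∑ x : Fin 6 → V, phi (g (x 0) (x 1) (x 2) + g (x 0) (x 1) (x 3)
        + (g (x 0) (x 1) (x 4) + g (x 0) (x 1) (x 5))) : ℕ) : ℤ)
      = ∑ a, ∑ b, (δ0 * (Fintype.card V : ℤ) ^ 4
        + 4 * δ1 * (Fintype.card V : ℤ) ^ 3 * (∑ c, (g a b c : ℤ))
        + 6 * δ2 * (Fintype.card V : ℤ) ^ 2 * (∑ c, (g a b c : ℤ)) ^ 2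
        + 4 * δ3 * (Fintype.card V : ℤ) * (∑ c, (g a b c : ℤ)) ^ 3
        + δ4 * (∑ c, (g a b c : ℤ)) ^ 4) := by
  rw [sum_fin6 (fun a b c d e f => phi (g a b c + g a b d + (g a b e + g a b f)))]
  push_cast
  refine Finset.sum_congr rfl (fun a _ => Finset.sum_congr rfl (fun b _ => ?_))
  rw [← sum_newt]
  refine Finset.sum_congr rfl (fun c _ => Finset.sum_congr rfl (fun d _ =>
    Finset.sum_congr rfl (fun e _ => Finset.sum_congr rfl (fun f _ => ?_))))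
  exact hδ _ _ _ _ (hb a b c) (hb a b d) (hb a b e) (hb a b f)

theorem mainG (K : ℕ → ℕ → ℕ → ℕ) (M : ℕ → ℕ → ℕ) (phi : ℕ → ℕ) (off C0 : ℕ) (cM δ0 δ1 δ2 δ3 δ4 : ℤ)
    (c01 : cK01 K = true) (c12 : cK12 K = true) (c23 : cK23 K = true) (c45 : cK45 K = true)
    (d01 : cM01 (MP M phi) = true) (d23 : cM23 (MP M phi) = true) (d45 : cM45 (MP M phi) = true)
    (dpp : cMpp (MP M phi) = true)
    (hgood : chk5 (goodG K (MP M phi) C0) = true)
    (hK : ∀ (τ : ℕ) (F : V → ℕ),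
      (off : ℤ) * (Fintype.card V : ℤ) ^ 2 ≤ ∑ u, ∑ v, (K τ (F u) (F v) : ℤ))
    (hM : ∀ F : V × V → ℕ, (∀ u, F u < 16) →
      (off : ℤ) * (Fintype.card V : ℤ) ^ 4 ≤ ∑ u, ∑ v, (M (F u) (F v) : ℤ))
    (hδ : ∀ x y z t : ℕ, (x = 0 ∨ x = 1) → (y = 0 ∨ y = 1) → (z = 0 ∨ z = 1) → (t = 0 ∨ t = 1) →
      (phi (x + y + (z + t)) : ℤ) = newt δ0 δ1 δ2 δ3 δ4 x y z t)
    (hC : (C0 : ℤ) = 60 * off + 45 * cM)
    (g : V → V → V → ℕ) (hb : ∀ a b c, g a b c = 0 ∨ g a b c = 1) (hg : Symm3 g)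
    (h4 : ∀ a b c d, ix4 (g a b c) (g a b d) (g a c d) (g b c d) ≠ 15) :
    ∑ a, ∑ b, (δ0 * (Fintype.card V : ℤ) ^ 4
        + 4 * δ1 * (Fintype.card V : ℤ) ^ 3 * (∑ c, (g a b c : ℤ))
        + 6 * δ2 * (Fintype.card V : ℤ) ^ 2 * (∑ c, (g a b c : ℤ)) ^ 2
        + 4 * δ3 * (Fintype.card V : ℤ) * (∑ c, (g a b c : ℤ)) ^ 3
        + δ4 * (∑ c, (g a b c : ℤ)) ^ 4) ≤ cM * (Fintype.card V : ℤ) ^ 6 := by
  have hlt : ∀ a b c, g a b c < 2 := by
    intro a b c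
    rcases hb a b c with h | h <;> omega
  have hpt := pointG K (MP M phi) C0 c01 c12 c23 c45 d01 d23 d45 dpp hgood g hb hg h4
  have hsum : ∑ x : Fin 6 → V, (KS K g (x 0) (x 1) (x 2) (x 3) (x 4) (x 5)
      + MS (MP M phi) g (x 0) (x 1) (x 2) (x 3) (x 4) (x 5)) ≤ ∑ _x : Fin 6 → V, C0 := by
    refine Finset.sum_le_sum (fun x _ => ?_)
    have h := hpt (x 0) (x 1) (x 2) (x 3) (x 4) (x 5)
    unfold PtG at h
    exact h
  rw [Finset.sum_add_distrib, sum_KS, sum_MS] at hsum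
  have hc : ∑ _x : Fin 6 → V, C0 = C0 * Fintype.card V ^ 6 := by
    simp only [Finset.sum_const, Finset.card_univ, smul_eq_mul, Fintype.card_fun,
      Fintype.card_fin]
    ring
  rw [hc] at hsum
  have hK' := sum_Kt_ge K g hlt off (fun τ _ F _ => hK τ F)
  have hM' := sum_Mt_ge M g hlt off (fun F hF => hM F hF)
  have hMP : ∑ x : Fin 6 → V, Mt (MP M phi) g (x 0) (x 1) (x 2) (x 3) (x 4) (x 5)
      = ∑ x : Fin 6 → V, Mt M g (x 0) (x 1) (x 2) (x 3) (x 4) (x 5)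
        + ∑ x : Fin 6 → V, phi (g (x 0) (x 1) (x 2) + g (x 0) (x 1) (x 3)
        + (g (x 0) (x 1) (x 4) + g (x 0) (x 1) (x 5))) := by
    rw [← Finset.sum_add_distrib]
    refine Finset.sum_congr rfl (fun x _ => ?_)
    unfold Mt MP
    rw [lo_ix4 (hb _ _ _) (hb _ _ _) (hb _ _ _) (hb _ _ _),
      lo_ix4 (hb _ _ _) (hb _ _ _) (hb _ _ _) (hb _ _ _)]
    rfl
  rw [hMP] at hsum
  have hphi := sum_phi phi δ0 δ1 δ2 δ3 δ4 hδ g hb
  rw [← hphi]
  have hsum' : (15 : ℤ) * ((∑ x : Fin 6 → V, Kt K g (x 0) (x 1) (x 2) (x 3) (x 4) (x 5) : ℕ) : ℤ)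
      + 45 * (((∑ x : Fin 6 → V, Mt M g (x 0) (x 1) (x 2) (x 3) (x 4) (x 5) : ℕ) : ℤ)
        + ((∑ x : Fin 6 → V, phi (g (x 0) (x 1) (x 2) + g (x 0) (x 1) (x 3)
        + (g (x 0) (x 1) (x 4) + g (x 0) (x 1) (x 5))) : ℕ) : ℤ))
      ≤ (C0 : ℤ) * (Fintype.card V : ℤ) ^ 6 := by
    exact_mod_cast hsum
  rw [hC] at hsum'
  linarith

end Pool.Agent.H77Lp
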