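import Pool.Agent.H77Lp.Gen

set_option autoImplicit false
set_option linter.unusedSimpArgs false
set_option linter.unusedVariables false
set_option maxHeartbeats 4000000
set_option maxRecDepth 100000

/-!
# Certificates with a penalty

As in `Gen`, but the pointwise inequality may be violated by a bounded amount at six-tuples for
which an indicator `T` is nonzero in some order.
-/

namespace Pool.Agent.H77Lp

open Pool.Agent.H6Turan

variable {V : Type*}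

/-- the sum of `T` over all orders of the six-tuple -/
def JP (T : (Fin 6 → V) → ℕ) (x : Fin 6 → V) : ℕ :=
  ∑ σ : Equiv.Perm (Fin 6), T (fun i => x (σ i))

theorem JP_comp (T : (Fin 6 → V) → ℕ) (τ : Equiv.Perm (Fin 6)) (x : Fin 6 → V) :
    JP T (fun i => x (τ i)) = JP T x :=
  Fintype.sum_equiv (Equiv.mulLeft τ) _ _ (fun _ => rfl)

theorem JP_ge_one (T : (Fin 6 → V) → ℕ) (x : Fin 6 → V) (p : Fin 6 → Fin 6)
    (hp : Function.Bijective p) (h : T (fun i => x (p i)) = 1) : 1 ≤ JP T x := by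
  rw [← h]
  exact Finset.single_le_sum (f := fun σ : Equiv.Perm (Fin 6) => T (fun i => x (σ i)))
    (fun _ _ => Nat.zero_le _) (Finset.mem_univ (Equiv.ofBijective p hp))

theorem sum_JP [Fintype V] (T : (Fin 6 → V) → ℕ) :
    ∑ x : Fin 6 → V, JP T x = 720 * ∑ x : Fin 6 → V, T x := by
  unfold JP
  rw [Finset.sum_comm]
  have h : ∀ σ : Equiv.Perm (Fin 6), ∑ x : Fin 6 → V, T (fun i => x (σ i))
      = ∑ x : Fin 6 → V, T x := fun σ => sum_perm (fun x => T x) σ σ.bijective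
  simp only [h, Finset.sum_const, Finset.card_univ, Fintype.card_perm, Fintype.card_fin]
  rw [smul_eq_mul]
  rfl

/-- the pointwise check with penalty -/
def goodP (K : ℕ → ℕ → ℕ → ℕ) (M : ℕ → ℕ → ℕ) (C0 CC : ℕ)
    (any : ℕ → ℕ → ℕ → ℕ → ℕ → ℕ → ℕ → ℕ → ℕ → ℕ → ℕ → ℕ → ℕ → ℕ → ℕ → ℕ → ℕ → ℕ → ℕ → ℕ → Bool)
    (b012 b013 b023 b123 b014 b024 b124 b034 b134 b234 b015 b025 b125 b035 b135 b235 b045 b145 b245 b345 : ℕ) : Bool :=
  (Nat.ble (Nat.add (KB K b012 b013 b023 b123 b014 b024 b124 b034 b134 b234 b015 b025 b125 b035 b135 b235 b045 b145 b245 b345)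
    (MB M b012 b013 b023 b123 b014 b024 b124 b034 b134 b234 b015 b025 b125 b035 b135 b235 b045 b145 b245 b345)) C0) ||
  ((any b012 b013 b023 b123 b014 b024 b124 b034 b134 b234 b015 b025 b125 b035 b135 b235 b045 b145 b245 b345) &&
   (Nat.ble (Nat.add (KB K b012 b013 b023 b123 b014 b024 b124 b034 b134 b234 b015 b025 b125 b035 b135 b235 b045 b145 b245 b345)
    (MB M b012 b013 b023 b123 b014 b024 b124 b034 b134 b234 b015 b025 b125 b035 b135 b235 b045 b145 b245 b345)) (Nat.add C0 CC)))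

/-- the pointwise inequality with penalty -/
def PtP (K : ℕ → ℕ → ℕ → ℕ) (M : ℕ → ℕ → ℕ) (C0 CC1 : ℕ) (T : (Fin 6 → V) → ℕ)
    (g : V → V → V → ℕ) (a b c d e f : V) : Prop :=
  Nat.add (KS K g a b c d e f) (MS M g a b c d e f) ≤ C0 + CC1 * JP T ![a, b, c, d, e, f]

theorem goodP_sound (K : ℕ → ℕ → ℕ → ℕ) (M : ℕ → ℕ → ℕ) (C0 CC CC1 : ℕ)
    (any : ℕ → ℕ → ℕ → ℕ → ℕ → ℕ → ℕ → ℕ → ℕ → ℕ → ℕ → ℕ → ℕ → ℕ → ℕ → ℕ → ℕ → ℕ → ℕ → ℕ → Bool)
    (T : (Fin 6 → V) → ℕ) (g : V → V → V → ℕ) (hg : Symm3 g)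
    (hany : ∀ a b c d e f, any (g a b c) (g a b d) (g a c d) (g b c d) (g a b e) (g a c e) (g b c e) (g a d e) (g b d e) (g c d e) (g a b f) (g a c f) (g b c f) (g a d f) (g b d f) (g c d f) (g a e f) (g b e f) (g c e f) (g d e f) = true →
      CC ≤ CC1 * JP T ![a, b, c, d, e, f])
    (a b c d e f : V)
    (h : goodP K M C0 CC any (g a b c) (g a b d) (g a c d) (g b c d) (g a b e) (g a c e) (g b c e) (g a d e) (g b d e) (g c d e) (g a b f) (g a c f) (g b c f) (g a d f) (g b d f) (g c d f) (g a e f) (g b e f) (g c e f) (g d e f) = true) :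
    PtP K M C0 CC1 T g a b c d e f := by
  unfold PtP
  rw [KS_eq_KB K g hg, MS_eq_MB M g hg]
  unfold goodP at h
  rw [Bool.or_eq_true, Bool.and_eq_true] at h
  rcases h with h | ⟨h', h⟩
  · exact le_trans (Nat.le_of_ble_eq_true h) (Nat.le_add_right _ _)
  · exact le_trans (Nat.le_of_ble_eq_true h) (Nat.add_le_add_left (hany a b c d e f h') _)

theorem PtP_swap0 (K : ℕ → ℕ → ℕ → ℕ) (M : ℕ → ℕ → ℕ) (C0 CC1 : ℕ) (T : (Fin 6 → V) → ℕ)
    (c01 : cK01 K = true) (c12 : cK12 K = true) (c23 : cK23 K = true) (c45 : cK45 K = true)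
    (d01 : cM01 M = true) (d23 : cM23 M = true) (d45 : cM45 M = true) (dpp : cMpp M = true)
    (g : V → V → V → ℕ) (hb : ∀ a b c, g a b c = 0 ∨ g a b c = 1) (hg : Symm3 g)
    (a b c d e f : V) (h : PtP K M C0 CC1 T g b a c d e f) : PtP K M C0 CC1 T g a b c d e f := by
  unfold PtP at h ⊢
  rw [KS_swap0 K g (k01 K c01 g hb hg) (k12 K c12 g hb hg) (k23 K c23 g hb hg) (k45 K c45 g hb),
    MS_swap0 M g (m01 M d01 g hb hg) (m23 M d23 g hb hg) (m45 M d45 g hb hg)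
      (mpp M dpp g hb hg)] at h
  have hJ : JP T ![b, a, c, d, e, f] = JP T ![a, b, c, d, e, f] := by
    rw [← JP_comp T (Equiv.swap 0 1) ![a, b, c, d, e, f]]
    congr 1
    funext i
    fin_cases i <;> rfl
  rw [hJ] at h
  exact h

theorem PtP_swap1 (K : ℕ → ℕ → ℕ → ℕ) (M : ℕ → ℕ → ℕ) (C0 CC1 : ℕ) (T : (Fin 6 → V) → ℕ)
    (c01 : cK01 K = true) (c12 : cK12 K = true) (c23 : cK23 K = true) (c45 : cK45 K = true)
    (d01 : cM01 M = true) (d23 : cM23 M = true) (d45 : cM45 M = true) (dpp : cMpp M = true)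
    (g : V → V → V → ℕ) (hb : ∀ a b c, g a b c = 0 ∨ g a b c = 1) (hg : Symm3 g)
    (a b c d e f : V) (h : PtP K M C0 CC1 T g a c b d e f) : PtP K M C0 CC1 T g a b c d e f := by
  unfold PtP at h ⊢
  rw [KS_swap1 K g (k01 K c01 g hb hg) (k12 K c12 g hb hg) (k23 K c23 g hb hg) (k45 K c45 g hb),
    MS_swap1 M g (m01 M d01 g hb hg) (m23 M d23 g hb hg) (m45 M d45 g hb hg)
      (mpp M dpp g hb hg)] at h
  have hJ : JP T ![a, c, b, d, e, f] = JP T ![a, b, c, d, e, f] := by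
    rw [← JP_comp T (Equiv.swap 1 2) ![a, b, c, d, e, f]]
    congr 1
    funext i
    fin_cases i <;> rfl
  rw [hJ] at h
  exact h

theorem PtP_swap2 (K : ℕ → ℕ → ℕ → ℕ) (M : ℕ → ℕ → ℕ) (C0 CC1 : ℕ) (T : (Fin 6 → V) → ℕ)
    (c01 : cK01 K = true) (c12 : cK12 K = true) (c23 : cK23 K = true) (c45 : cK45 K = true)
    (d01 : cM01 M = true) (d23 : cM23 M = true) (d45 : cM45 M = true) (dpp : cMpp M = true)
    (g : V → V → V → ℕ) (hb : ∀ a b c, g a b c = 0 ∨ g a b c = 1) (hg : Symm3 g)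
    (a b c d e f : V) (h : PtP K M C0 CC1 T g a b d c e f) : PtP K M C0 CC1 T g a b c d e f := by
  unfold PtP at h ⊢
  rw [KS_swap2 K g (k01 K c01 g hb hg) (k12 K c12 g hb hg) (k23 K c23 g hb hg) (k45 K c45 g hb),
    MS_swap2 M g (m01 M d01 g hb hg) (m23 M d23 g hb hg) (m45 M d45 g hb hg)
      (mpp M dpp g hb hg)] at h
  have hJ : JP T ![a, b, d, c, e, f] = JP T ![a, b, c, d, e, f] := by
    rw [← JP_comp T (Equiv.swap 2 3) ![a, b, c, d, e, f]]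
    congr 1
    funext i
    fin_cases i <;> rfl
  rw [hJ] at h
  exact h

theorem PtP_swap3 (K : ℕ → ℕ → ℕ → ℕ) (M : ℕ → ℕ → ℕ) (C0 CC1 : ℕ) (T : (Fin 6 → V) → ℕ)
    (c01 : cK01 K = true) (c12 : cK12 K = true) (c23 : cK23 K = true) (c45 : cK45 K = true)
    (d01 : cM01 M = true) (d23 : cM23 M = true) (d45 : cM45 M = true) (dpp : cMpp M = true)
    (g : V → V → V → ℕ) (hb : ∀ a b c, g a b c = 0 ∨ g a b c = 1) (hg : Symm3 g)
    (a b c d e f : V) (h : PtP K M C0 CC1 T g a b c e d f) : PtP K M C0 CC1 T g a b c d e f := by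
  unfold PtP at h ⊢
  rw [KS_swap3 K g (k01 K c01 g hb hg) (k12 K c12 g hb hg) (k23 K c23 g hb hg) (k45 K c45 g hb),
    MS_swap3 M g (m01 M d01 g hb hg) (m23 M d23 g hb hg) (m45 M d45 g hb hg)
      (mpp M dpp g hb hg)] at h
  have hJ : JP T ![a, b, c, e, d, f] = JP T ![a, b, c, d, e, f] := by
    rw [← JP_comp T (Equiv.swap 3 4) ![a, b, c, d, e, f]]
    congr 1
    funext i
    fin_cases i <;> rfl
  rw [hJ] at h
  exact h

theorem pointP (K : ℕ → ℕ → ℕ → ℕ) (M : ℕ → ℕ → ℕ) (C0 CC CC1 : ℕ)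
    (any : ℕ → ℕ → ℕ → ℕ → ℕ → ℕ → ℕ → ℕ → ℕ → ℕ → ℕ → ℕ → ℕ → ℕ → ℕ → ℕ → ℕ → ℕ → ℕ → ℕ → Bool)
    (T : (Fin 6 → V) → ℕ)
    (c01 : cK01 K = true) (c12 : cK12 K = true) (c23 : cK23 K = true) (c45 : cK45 K = true)
    (d01 : cM01 M = true) (d23 : cM23 M = true) (d45 : cM45 M = true) (dpp : cMpp M = true)
    (hgood : chk5 (goodP K M C0 CC any) = true)
    (g : V → V → V → ℕ) (hb : ∀ a b c, g a b c = 0 ∨ g a b c = 1) (hg : Symm3 g)
    (h4 : ∀ a b c d, ix4 (g a b c) (g a b d) (g a c d) (g b c d) ≠ 15)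
    (hany : ∀ a b c d e f, any (g a b c) (g a b d) (g a c d) (g b c d) (g a b e) (g a c e) (g b c e) (g a d e) (g b d e) (g c d e) (g a b f) (g a c f) (g b c f) (g a d f) (g b d f) (g c d f) (g a e f) (g b e f) (g c e f) (g d e f) = true →
      CC ≤ CC1 * JP T ![a, b, c, d, e, f]) :
    ∀ a b c d e f, PtP K M C0 CC1 T g a b c d e f :=
  chk5_sound (goodP K M C0 CC any) hgood g hb hg h4 (PtP K M C0 CC1 T g)
    (PtP_swap0 K M C0 CC1 T c01 c12 c23 c45 d01 d23 d45 dpp g hb hg)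
    (PtP_swap1 K M C0 CC1 T c01 c12 c23 c45 d01 d23 d45 dpp g hb hg)
    (PtP_swap2 K M C0 CC1 T c01 c12 c23 c45 d01 d23 d45 dpp g hb hg)
    (PtP_swap3 K M C0 CC1 T c01 c12 c23 c45 d01 d23 d45 dpp g hb hg)
    (goodP_sound K M C0 CC CC1 any T g hg hany)

variable [Fintype V]

/-- the density bound with penalty -/
theorem mainP (K : ℕ → ℕ → ℕ → ℕ) (M : ℕ → ℕ → ℕ) (phi : ℕ → ℕ) (off C0 CC CC1 : ℕ) (cM δ1 : ℤ)
    (any : ℕ → ℕ → ℕ → ℕ → ℕ → ℕ → ℕ → ℕ → ℕ → ℕ → ℕ → ℕ → ℕ → ℕ → ℕ → ℕ → ℕ → ℕ → ℕ → ℕ → Bool)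
    (T : (Fin 6 → V) → ℕ)
    (c01 : cK01 K = true) (c12 : cK12 K = true) (c23 : cK23 K = true) (c45 : cK45 K = true)
    (d01 : cM01 (MP M phi) = true) (d23 : cM23 (MP M phi) = true) (d45 : cM45 (MP M phi) = true)
    (dpp : cMpp (MP M phi) = true)
    (hgood : chk5 (goodP K (MP M phi) C0 CC any) = true)
    (hK : ∀ (τ : ℕ) (F : V → ℕ),
      (off : ℤ) * (Fintype.card V : ℤ) ^ 2 ≤ ∑ u, ∑ v, (K τ (F u) (F v) : ℤ))
    (hM : ∀ F : V × V → ℕ, (∀ u, F u < 16) →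
      (off : ℤ) * (Fintype.card V : ℤ) ^ 4 ≤ ∑ u, ∑ v, (M (F u) (F v) : ℤ))
    (hδ : ∀ x y z t : ℕ, (x = 0 ∨ x = 1) → (y = 0 ∨ y = 1) → (z = 0 ∨ z = 1) → (t = 0 ∨ t = 1) →
      (phi (x + y + (z + t)) : ℤ) = newt 0 δ1 0 0 0 x y z t)
    (hC : (C0 : ℤ) = 60 * off + 45 * cM) (hcM : 9 * cM = 20 * δ1) (hCC : (CC1 : ℤ) = 36 * δ1)
    (hδ1 : 0 < δ1)
    (g : V → V → V → ℕ) (hb : ∀ a b c, g a b c = 0 ∨ g a b c = 1) (hg : Symm3 g)
    (h4 : ∀ a b c d, ix4 (g a b c) (g a b d) (g a c d) (g b c d) ≠ 15)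
    (hany : ∀ a b c d e f, any (g a b c) (g a b d) (g a c d) (g b c d) (g a b e) (g a c e) (g b c e) (g a d e) (g b d e) (g c d e) (g a b f) (g a c f) (g b c f) (g a d f) (g b d f) (g c d f) (g a e f) (g b e f) (g c e f) (g d e f) = true →
      CC ≤ CC1 * JP T ![a, b, c, d, e, f]) :
    9 * ((Fintype.card V : ℤ) ^ 3 * (EE g : ℤ)) ≤ 5 * (Fintype.card V : ℤ) ^ 6
      + 1296 * ((∑ x : Fin 6 → V, T x : ℕ) : ℤ) := by
  have hlt : ∀ a b c, g a b c < 2 := by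
    intro a b c
    rcases hb a b c with h | h <;> omega
  have hpt := pointP K (MP M phi) C0 CC CC1 any T c01 c12 c23 c45 d01 d23 d45 dpp hgood g hb hg h4
    hany
  have hsum : ∑ x : Fin 6 → V, (KS K g (x 0) (x 1) (x 2) (x 3) (x 4) (x 5)
      + MS (MP M phi) g (x 0) (x 1) (x 2) (x 3) (x 4) (x 5))
      ≤ ∑ x : Fin 6 → V, (C0 + CC1 * JP T x) := by
    refine Finset.sum_le_sum (fun x _ => ?_)
    have h := hpt (x 0) (x 1) (x 2) (x 3) (x 4) (x 5)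
    unfold PtP at h
    have hx : ![x 0, x 1, x 2, x 3, x 4, x 5] = x := by
      funext i
      fin_cases i <;> rfl
    rw [hx] at h
    exact h
  rw [Finset.sum_add_distrib, sum_KS, sum_MS, Finset.sum_add_distrib, ← Finset.mul_sum,
    sum_JP] at hsum
  have hc : ∑ _x : Fin 6 → V, C0 = C0 * Fintype.card V ^ 6 := by
    simp only [Finset.sum_const, Finset.card_univ, smul_eq_mul, Fintype.card_fun,
      Fintype.card_fin]
    ring
  rw [hc] at hsum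
  have hK' := sum_Kt_ge K g hlt off (fun τ _ F _ => hK τ F)
  have hM' := sum_Mt_ge M g hlt off (fun F hF => hM F hF)
  have hMP : ∑ x : Fin 6 → V, Mt (MP M phi) g (x 0) (x 1) (x 2) (x 3) (x 4) (x 5)
      = ∑ x : Fin 6 → V, Mt M g (x 0) (x 1) (x 2) (x 3) (x 4) (x 5)
        + ∑ x : Fin 6 → V, phi (g (x 0) (x 1) (x 2) + g (x 0) (x 1) (x 3)
        + (g (x 0) (x 1) (x 4) + g (x 0) (x 1) (x 5))) := by
    rw [← Finset.sum_add_distrib]
    refine Finset.sum_congr rfl (fun x _ => ?_)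
    unfold Mt MP
    rw [lo_ix4 (hb _ _ _) (hb _ _ _) (hb _ _ _) (hb _ _ _),
      lo_ix4 (hb _ _ _) (hb _ _ _) (hb _ _ _) (hb _ _ _)]
    rfl
  rw [hMP] at hsum
  have hphi := sum_phi phi 0 δ1 0 0 0 hδ g hb
  have hphi2 : ((∑ x : Fin 6 → V, phi (g (x 0) (x 1) (x 2) + g (x 0) (x 1) (x 3)
        + (g (x 0) (x 1) (x 4) + g (x 0) (x 1) (x 5))) : ℕ) : ℤ)
      = 4 * δ1 * ((Fintype.card V : ℤ) ^ 3 * (EE g : ℤ)) := by
    rw [hphi]
    have e : (EE g : ℤ) = ∑ a, ∑ b, ∑ c, (g a b c : ℤ) := by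
      unfold EE
      push_cast
      rfl
    rw [e, Finset.mul_sum, Finset.mul_sum]
    refine Finset.sum_congr rfl (fun a _ => ?_)
    rw [Finset.mul_sum, Finset.mul_sum]
    refine Finset.sum_congr rfl (fun b _ => ?_)
    ring
  set N : ℤ := ((∑ x : Fin 6 → V, T x : ℕ) : ℤ) with hN
  have hsum' : (15 : ℤ) * ((∑ x : Fin 6 → V, Kt K g (x 0) (x 1) (x 2) (x 3) (x 4) (x 5) : ℕ) : ℤ)
      + 45 * (((∑ x : Fin 6 → V, Mt M g (x 0) (x 1) (x 2) (x 3) (x 4) (x 5) : ℕ) : ℤ)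
        + ((∑ x : Fin 6 → V, phi (g (x 0) (x 1) (x 2) + g (x 0) (x 1) (x 3)
        + (g (x 0) (x 1) (x 4) + g (x 0) (x 1) (x 5))) : ℕ) : ℤ))
      ≤ (C0 : ℤ) * (Fintype.card V : ℤ) ^ 6 + (CC1 : ℤ) * (720 * N) := by
    rw [hN]
    exact_mod_cast hsum
  rw [hphi2, hC, hCC] at hsum'
  have h1 : 20 * (δ1 * (9 * ((Fintype.card V : ℤ) ^ 3 * (EE g : ℤ))))
      ≤ 20 * (δ1 * (5 * (Fintype.card V : ℤ) ^ 6 + 1296 * N)) := by
    have h2 : 9 * cM * (Fintype.card V : ℤ) ^ 6 = 20 * δ1 * (Fintype.card V : ℤ) ^ 6 := by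
      rw [hcM]
    linarith
  have h2 := le_of_mul_le_mul_left h1 (by norm_num)
  exact le_of_mul_le_mul_left h2 hδ1

end Pool.Agent.H77Lp
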