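import Pool.Agent.H77Lp.LinkJ

set_option autoImplicit false
set_option linter.unusedSimpArgs false
set_option linter.unusedVariables false
set_option maxHeartbeats 4000000
set_option maxRecDepth 100000

/-!
# Certificate with a penalty for the link graph with code 63 (generated file)
-/

namespace Pool.Agent.H77Lp.L63

open Pool.Agent.H6Turan Pool.Agent.H77Lp

def rmM : ℕ := 0xffffffffffffffffffffffffffffffffffffffffffffffffffff

def TM : ℕ := 0x8004002001000800400200100080040020010008004002001000800467a33d0d8731412209101273141220910127673f29f94fdc800467a33d0d8731412209101273141220910127673f29f94fdc80043621b121c68643f21f91f868643f21f91f87823f29f951448003989cc4d0ccad3a61d30c228753a19d0cd0c8f33f29f94dc080041220910fc74c42d2169156743416a0b50d87ca40020010c680041220910fc74c42d2169156743416a0b50d87ca40020010c6800404a0251f8611455a2ad3f068643621b12f479442421212648003989cc4d0c8753a19d0cd0ccad3a61d30c228f33f29f94dc080041220910fc743416a0b50d874c42d21691567ca40020010c680041220910fc743416a0b50d874c42d21691567ca40020010c6800404a0251f868643621b12f4611455a2ad3f079442421212648003b39d9cf048f33e51f28f288f33e51f28f288a24002000f948003f29f94fca7e540020010907e54002001090800428a14507e8003f29f94fca7e540020010907e54002001090800428a14507e8003f71fb91446e0431a18d2646e0431a18d2647ca41fa0fd1d4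

def off : ℕ := 4096

def KN (_ _ _ : ℕ) : ℕ := off

/-- table for the two-vertex type, shifted by `off` -/
def MN (p q : ℕ) : ℕ := tb2 TM 13 8191 208 rmM p q

/-- the function of the codegree -/
def phi (d : ℕ) : ℕ := Nat.mul 225 d

def C0 : ℕ := 268260

def CC1 : ℕ := 8100

def CC : ℕ := 194400

/-- the codes of the graphs isomorphic to the graph with code 63 -/
def MASK : ℕ := 0x8000000000000000

/-! ### positive semidefiniteness of `TM` -/

def idxM (i : ℕ) : ℕ := tb 0xdcb98754310 4 15 i

def MM (f f' : ℕ) : ℤ := (tb2 TM 13 8191 208 rmM f f' : ℤ) - 4096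

def ZM (i j : ℕ) : ℤ := MM (idxM i) (idxM j)

def LTM : ℕ := 0x87d81275580c82479b86d7dd5c27807ca8008677b685b8af7b586e8266f36659e2800800a417e86ac4ed6af8f7a6a9294a780080080087b86c7b47ec75d7a476492680080080080092f84f72574e7807bfb8e800800800800800c1e8a66bfa6a9294a78008008008008008008c688f7a47649268008008008008008008009a67807bfb8e800800800800800800800800a1e85575f8008008008008008008008008009628bb800800800800800800800800800800ab1

def LRM : ℕ := 0xfffffffffffffffffffffffffffffffff

def LM (i t : ℕ) : ℤ :=
  if i < t then 0 else (tb2 LTM 12 4095 132 LRM i t : ℤ) - 2048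

def posM (f : ℕ) : ℕ := tb 0xfca2892071c6144103081040 6 63 f

def usM (f : ℕ) : List (ℕ × ℤ) :=
  if posM f = 63 then [] else [(posM f, 1)]

theorem chkUM : allLt (fun f => allLt (fun f' =>
    decide (MM f f' = sp ZM (usM f) (usM f'))) 16) 16 = true := by decide +kernel

theorem chkIM : allLt (fun f => (usM f).all (fun p => decide (p.1 < 11))) 16 = true := by
  decide +kernel

theorem chkSM : allLt (fun f => allLt (fun f' => decide (ZM f f' = ZM f' f)) 11) 11 = true := by
  decide +kernel

theorem chkPM : psdChk 11 1024 ZM LM = true := by decide +kernel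

theorem psdM {ι : Type*} [Fintype ι] (F : ι → ℕ) (hF : ∀ u, F u < 16) :
    0 ≤ ∑ u : ι, ∑ v : ι, MM (F u) (F v) := by
  refine sum_psd 11 ZM ?_ (Uf usM) MM F ?_
  · intro y
    refine psdChk_sound 11 1024 (by norm_num) ZM LM ?_ ?_ chkPM y
    · intro i t h
      unfold LM
      rw [if_pos h]
    · intro i hi j hj
      exact of_decide_eq_true (allLt_spec (allLt_spec chkSM i hi) j hj)
  · intro u v
    rw [of_decide_eq_true (allLt_spec (allLt_spec chkUM (F u) (hF u)) (F v) (hF v))]
    refine (sum_sp 11 ZM _ _ (fun p hp => ?_) (fun p hp => ?_)).symm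
    · exact of_decide_eq_true (List.all_eq_true.mp (allLt_spec chkIM (F u) (hF u)) p hp)
    · exact of_decide_eq_true (List.all_eq_true.mp (allLt_spec chkIM (F v) (hF v)) p hp)

/-! ### the checks -/

theorem c01 : cK01 KN = true := cK01_const off

theorem c12 : cK12 KN = true := cK12_const off

theorem c23 : cK23 KN = true := cK23_const off

theorem c45 : cK45 KN = true := cK45_const off

theorem d01 : cM01 (MP MN phi) = true := by decide +kernel

theorem d23 : cM23 (MP MN phi) = true := by decide +kernel

theorem d45 : cM45 (MP MN phi) = true := by decide +kernel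

theorem dpp : cMpp (MP MN phi) = true := by decide +kernel

theorem hA : chkA 63 MASK 24 = true := by decide +kernel

theorem good : chk5 (goodP KN (MP MN phi) C0 CC (anyL MASK)) = true := by decide +kernel

theorem hphi (x y z t : ℕ) (hx : x = 0 ∨ x = 1) (hy : y = 0 ∨ y = 1) (hz : z = 0 ∨ z = 1)
    (ht : t = 0 ∨ t = 1) :
    (phi (x + y + (z + t)) : ℤ) = newt 0 225 0 0 0 x y z t := by
  rcases hx with rfl | rfl <;> rcases hy with rfl | rfl <;> rcases hz with rfl | rfl <;>
    rcases ht with rfl | rfl <;> rfl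

variable {V : Type*} [Fintype V]

theorem hK (τ : ℕ) (F : V → ℕ) :
    (off : ℤ) * (Fintype.card V : ℤ) ^ 2 ≤ ∑ u, ∑ v, (KN τ (F u) (F v) : ℤ) := by
  unfold KN
  simp only [Finset.sum_const, Finset.card_univ, nsmul_eq_mul]
  exact le_of_eq (by ring)

theorem hM (F : V × V → ℕ) (hF : ∀ u, F u < 16) :
    (off : ℤ) * (Fintype.card V : ℤ) ^ 4 ≤ ∑ u, ∑ v, (MN (F u) (F v) : ℤ) := by
  have h := psdM F hF
  have e : ∀ u v : V × V, (MN (F u) (F v) : ℤ) = MM (F u) (F v) + (off : ℤ) := by
    intro u v
    unfold MN MM off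
    push_cast
    ring
  simp only [e, Finset.sum_add_distrib]
  have hconst : ∑ _u : V × V, ∑ _v : V × V, (off : ℤ) = (off : ℤ) * (Fintype.card V : ℤ) ^ 4 := by
    simp only [Finset.sum_const, Finset.card_univ, nsmul_eq_mul, Fintype.card_prod]
    push_cast
    ring
  rw [hconst]
  linarith

/-- the density bound with the number of copies of the graph with code 63 in the links -/
theorem main (g : V → V → V → ℕ) (hb : ∀ a b c, g a b c = 0 ∨ g a b c = 1) (hg : Symm3 g)
    (h4 : ∀ a b c d, ix4 (g a b c) (g a b d) (g a c d) (g b c d) ≠ 15) :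
    9 * ((Fintype.card V : ℤ) ^ 3 * (EE g : ℤ)) ≤ 5 * (Fintype.card V : ℤ) ^ 6
      + 1296 * ((∑ x : Fin 6 → V, TL 63 g x : ℕ) : ℤ) := by
  refine mainP KN MN phi off C0 CC CC1 500 225 (anyL MASK) (TL 63 g) c01 c12 c23 c45 d01 d23 d45 dpp
    good hK hM hphi (by norm_num [C0, off]) (by norm_num) (by norm_num [CC1]) (by norm_num)
    g hb hg h4 ?_
  intro a b c d e f h
  have h1 := anyL_sound 63 MASK 24 hA g hb hg a b c d e f h
  have h2 : CC = CC1 * 24 := rfl
  rw [h2]
  exact Nat.mul_le_mul_left _ h1

end Pool.Agent.H77Lp.L63
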