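import Pool.Agent.H77Lp.GenP

set_option autoImplicit false
set_option linter.unusedSimpArgs false
set_option linter.unusedVariables false
set_option maxHeartbeats 4000000
set_option maxRecDepth 100000

/-!
# Penalties for four-vertex graphs in the links (partly generated file)
-/

namespace Pool.Agent.H77Lp

open Pool.Agent.H6Turan

theorem all2_const (b : Bool) : all2 (fun _ => b) = b := by cases b <;> rfl

theorem beq_self' (k : ℕ) : Nat.beq k k = true := by
  induction k with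
  | zero => rfl
  | succ k ih => exact ih

theorem allLt_const (n : ℕ) : allLt (fun _ => true) n = true := by
  induction n with
  | zero => rfl
  | succ n ih => rw [allLt, ih]; rfl

theorem cK01_const (k : ℕ) : cK01 (fun _ _ _ => k) = true := by
  simp only [cK01, beq_self', all2_const]

theorem cK12_const (k : ℕ) : cK12 (fun _ _ _ => k) = true := by
  simp only [cK12, beq_self', all2_const]

theorem cK23_const (k : ℕ) : cK23 (fun _ _ _ => k) = true := by
  simp only [cK23, beq_self', all2_const]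

theorem cK45_const (k : ℕ) : cK45 (fun _ _ _ => k) = true := by
  simp only [cK45, beq_self', allLt_const]

variable {V : Type*}

/-- the code of the link of `v` on `a, b, c, d` -/
def lk (g : V → V → V → ℕ) (v a b c d : V) : ℕ :=
  ix6 (g v a b) (g v a c) (g v b c) (g v a d) (g v b d) (g v c d)

/-- indicator of the event that the link of `x 0` has code `c` on `x 1, x 2, x 3, x 4` -/
def TL (c : ℕ) (g : V → V → V → ℕ) (x : Fin 6 → V) : ℕ :=
  cond (Nat.beq (lk g (x 0) (x 1) (x 2) (x 3) (x 4)) c) 1 0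

/-- the symmetric matrix with given entries -/
def Bm (b0 b1 b2 b3 b4 b5 : ℕ) : Fin 4 → Fin 4 → ℕ :=
  ![![0, b0, b1, b3], ![b0, 0, b2, b4], ![b1, b2, 0, b5], ![b3, b4, b5, 0]]

/-- the code after a permutation of the four vertices -/
def pcode (B : Fin 4 → Fin 4 → ℕ) (ρ : Equiv.Perm (Fin 4)) : ℕ :=
  ix6 (B (ρ 0) (ρ 1)) (B (ρ 0) (ρ 2)) (B (ρ 1) (ρ 2)) (B (ρ 0) (ρ 3)) (B (ρ 1) (ρ 3)) (B (ρ 2) (ρ 3))

/-- the number of permutations that give the code `c` -/
def cntL (c b0 b1 b2 b3 b4 b5 : ℕ) : ℕ :=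
  ∑ ρ : Equiv.Perm (Fin 4), cond (Nat.beq (pcode (Bm b0 b1 b2 b3 b4 b5) ρ) c) 1 0

/-- every code in the mask is turned into the code `c` by at least `A` permutations -/
def chkA (c MASK A : ℕ) : Bool :=
  all2 fun b0 =>
  all2 fun b1 =>
  all2 fun b2 =>
  all2 fun b3 =>
  all2 fun b4 =>
  all2 fun b5 =>
  (Nat.beq (tb MASK 1 1 (ix6 b0 b1 b2 b3 b4 b5)) 0) || (Nat.ble A (cntL c b0 b1 b2 b3 b4 b5))

theorem Bm_eq (g : V → V → V → ℕ) (hg : Symm3 g) (v : V) (z : Fin 4 → V) (i j : Fin 4) (h : i ≠ j) :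
    g v (z i) (z j) = Bm (g v (z 0) (z 1)) (g v (z 0) (z 2)) (g v (z 1) (z 2)) (g v (z 0) (z 3))
      (g v (z 1) (z 3)) (g v (z 2) (z 3)) i j := by
  have s : ∀ i j, g v (z i) (z j) = g v (z j) (z i) := fun i j => hg.s23 _ _ _
  fin_cases i <;> fin_cases j <;> first
    | exact absurd rfl h
    | rfl
    | exact s _ _

/-- the position of a link vertex -/
def ps (i : Fin 4) : Fin 6 := ⟨i.val + 1, by omega⟩

theorem exists_ext : ∃ E : Equiv.Perm (Fin 4) → Equiv.Perm (Fin 6), Function.Injective E ∧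
    (∀ ρ, E ρ 0 = 0) ∧ ∀ ρ i, E ρ (ps i) = ps (ρ i) := by
  have hinj : Function.Injective ps := by
    intro i j h
    have := congrArg Fin.val h
    unfold ps at this
    apply Fin.ext
    simpa using this
  have himg : ∀ (ρ : Equiv.Perm (Fin 4)) (i : Fin 4),
      ρ.viaFintypeEmbedding ⟨ps, hinj⟩ (ps i) = ps (ρ i) := fun ρ i =>
    Equiv.Perm.viaFintypeEmbedding_apply_image ρ ⟨ps, hinj⟩ i
  refine ⟨fun ρ => ρ.viaFintypeEmbedding ⟨ps, hinj⟩, ?_, ?_, himg⟩
  · intro ρ ρ' h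
    ext i
    have h1 := himg ρ i
    have h2 : ρ.viaFintypeEmbedding ⟨ps, hinj⟩ = ρ'.viaFintypeEmbedding ⟨ps, hinj⟩ := h
    rw [h2, himg ρ' i] at h1
    exact congrArg Fin.val (hinj h1).symm
  · intro ρ
    refine Equiv.Perm.viaFintypeEmbedding_apply_notMem_range ρ ⟨ps, hinj⟩ ?_
    rintro ⟨i, hi⟩
    have := congrArg Fin.val hi
    exact absurd this (Nat.succ_ne_zero _)

theorem JP_link (c MASK A : ℕ) (hA : chkA c MASK A = true) (g : V → V → V → ℕ)
    (hb : ∀ a b c, g a b c = 0 ∨ g a b c = 1) (hg : Symm3 g) (x : Fin 6 → V)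
    (hx : Nat.beq (tb MASK 1 1 (lk g (x 0) (x 1) (x 2) (x 3) (x 4))) 1 = true) :
    A ≤ JP (TL c g) x := by
  classical
  obtain ⟨E, hEinj, hE0, hE⟩ := exists_ext
  have h1 : ∑ ρ : Equiv.Perm (Fin 4), TL c g (fun i => x (E ρ i)) ≤ JP (TL c g) x := by
    unfold JP
    have e : ∑ σ ∈ (Finset.univ : Finset (Equiv.Perm (Fin 4))).image E, TL c g (fun i => x (σ i))
        = ∑ ρ : Equiv.Perm (Fin 4), TL c g (fun i => x (E ρ i)) :=
      Finset.sum_image (fun a _ b _ h => hEinj h)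
    rw [← e]
    exact Finset.sum_le_sum_of_subset (Finset.subset_univ _)
  have hz : ∃ z : Fin 4 → V, ∀ i, z i = x (ps i) := ⟨fun i => x (ps i), fun _ => rfl⟩
  obtain ⟨z, hz⟩ := hz
  have z0 : x 1 = z 0 := (hz 0).symm
  have z1 : x 2 = z 1 := (hz 1).symm
  have z2 : x 3 = z 2 := (hz 2).symm
  have z3 : x 4 = z 3 := (hz 3).symm
  rw [z0, z1, z2, z3] at hx
  obtain ⟨v, hv⟩ : ∃ v, v = x 0 := ⟨_, rfl⟩
  rw [← hv] at hx
  have h2 : ∀ ρ : Equiv.Perm (Fin 4), TL c g (fun i => x (E ρ i))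
      = cond (Nat.beq (pcode (Bm (g v (z 0) (z 1)) (g v (z 0) (z 2)) (g v (z 1) (z 2))
        (g v (z 0) (z 3)) (g v (z 1) (z 3)) (g v (z 2) (z 3))) ρ) c) 1 0 := by
    intro ρ
    have e1 : x (E ρ 1) = z (ρ 0) := by
      rw [hz]
      exact congrArg x (hE ρ 0)
    have e2 : x (E ρ 2) = z (ρ 1) := by
      rw [hz]
      exact congrArg x (hE ρ 1)
    have e3 : x (E ρ 3) = z (ρ 2) := by
      rw [hz]
      exact congrArg x (hE ρ 2)
    have e4 : x (E ρ 4) = z (ρ 3) := by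
      rw [hz]
      exact congrArg x (hE ρ 3)
    have ne : ∀ i j : Fin 4, i ≠ j → ρ i ≠ ρ j := fun i j h h' => h (ρ.injective h')
    unfold TL lk pcode
    simp only [hE0, e1, e2, e3, e4, ← hv]
    rw [Bm_eq g hg v z _ _ (ne 0 1 (by decide)), Bm_eq g hg v z _ _ (ne 0 2 (by decide)),
      Bm_eq g hg v z _ _ (ne 1 2 (by decide)), Bm_eq g hg v z _ _ (ne 0 3 (by decide)),
      Bm_eq g hg v z _ _ (ne 1 3 (by decide)), Bm_eq g hg v z _ _ (ne 2 3 (by decide))]
  have h3 := hA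
  unfold chkA at h3
  have h3 := all2_spec h3 (hb v (z 0) (z 1))
  have h3 := all2_spec h3 (hb v (z 0) (z 2))
  have h3 := all2_spec h3 (hb v (z 1) (z 2))
  have h3 := all2_spec h3 (hb v (z 0) (z 3))
  have h3 := all2_spec h3 (hb v (z 1) (z 3))
  have h3 := all2_spec h3 (hb v (z 2) (z 3))
  rw [Bool.or_eq_true] at h3
  have hx' : tb MASK 1 1 (ix6 (g v (z 0) (z 1)) (g v (z 0) (z 2)) (g v (z 1) (z 2))
        (g v (z 0) (z 3)) (g v (z 1) (z 3)) (g v (z 2) (z 3))) = 1 :=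
    Nat.eq_of_beq_eq_true hx
  rcases h3 with h3 | h3
  · exfalso
    have := Nat.eq_of_beq_eq_true h3
    rw [hx'] at this
    exact absurd this (by norm_num)
  · refine le_trans (Nat.le_of_ble_eq_true h3) (le_trans (le_of_eq ?_) h1)
    unfold cntL
    exact Finset.sum_congr rfl (fun ρ _ => (h2 ρ).symm)

/-- the link of some vertex has a code from the mask on some four other vertices -/
def anyL (MASK b012 b013 b023 b123 b014 b024 b124 b034 b134 b234 b015 b025 b125 b035 b135 b235 b045 b145 b245 b345 : ℕ) : Bool :=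
  (Nat.beq (tb MASK 1 1 (ix6 b023 b024 b034 b025 b035 b045)) 1) ||
  ((Nat.beq (tb MASK 1 1 (ix6 b013 b014 b034 b015 b035 b045)) 1) ||
  ((Nat.beq (tb MASK 1 1 (ix6 b012 b014 b024 b015 b025 b045)) 1) ||
  ((Nat.beq (tb MASK 1 1 (ix6 b012 b013 b023 b015 b025 b035)) 1) ||
  ((Nat.beq (tb MASK 1 1 (ix6 b012 b013 b023 b014 b024 b034)) 1) ||
  ((Nat.beq (tb MASK 1 1 (ix6 b123 b124 b134 b125 b135 b145)) 1) ||
  ((Nat.beq (tb MASK 1 1 (ix6 b013 b014 b134 b015 b135 b145)) 1) ||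
  ((Nat.beq (tb MASK 1 1 (ix6 b012 b014 b124 b015 b125 b145)) 1) ||
  ((Nat.beq (tb MASK 1 1 (ix6 b012 b013 b123 b015 b125 b135)) 1) ||
  ((Nat.beq (tb MASK 1 1 (ix6 b012 b013 b123 b014 b124 b134)) 1) ||
  ((Nat.beq (tb MASK 1 1 (ix6 b123 b124 b234 b125 b235 b245)) 1) ||
  ((Nat.beq (tb MASK 1 1 (ix6 b023 b024 b234 b025 b235 b245)) 1) ||
  ((Nat.beq (tb MASK 1 1 (ix6 b012 b024 b124 b025 b125 b245)) 1) ||
  ((Nat.beq (tb MASK 1 1 (ix6 b012 b023 b123 b025 b125 b235)) 1) ||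
  ((Nat.beq (tb MASK 1 1 (ix6 b012 b023 b123 b024 b124 b234)) 1) ||
  ((Nat.beq (tb MASK 1 1 (ix6 b123 b134 b234 b135 b235 b345)) 1) ||
  ((Nat.beq (tb MASK 1 1 (ix6 b023 b034 b234 b035 b235 b345)) 1) ||
  ((Nat.beq (tb MASK 1 1 (ix6 b013 b034 b134 b035 b135 b345)) 1) ||
  ((Nat.beq (tb MASK 1 1 (ix6 b013 b023 b123 b035 b135 b235)) 1) ||
  ((Nat.beq (tb MASK 1 1 (ix6 b013 b023 b123 b034 b134 b234)) 1) ||
  ((Nat.beq (tb MASK 1 1 (ix6 b124 b134 b234 b145 b245 b345)) 1) ||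
  ((Nat.beq (tb MASK 1 1 (ix6 b024 b034 b234 b045 b245 b345)) 1) ||
  ((Nat.beq (tb MASK 1 1 (ix6 b014 b034 b134 b045 b145 b345)) 1) ||
  ((Nat.beq (tb MASK 1 1 (ix6 b014 b024 b124 b045 b145 b245)) 1) ||
  ((Nat.beq (tb MASK 1 1 (ix6 b014 b024 b124 b034 b134 b234)) 1) ||
  ((Nat.beq (tb MASK 1 1 (ix6 b125 b135 b235 b145 b245 b345)) 1) ||
  ((Nat.beq (tb MASK 1 1 (ix6 b025 b035 b235 b045 b245 b345)) 1) ||
  ((Nat.beq (tb MASK 1 1 (ix6 b015 b035 b135 b045 b145 b345)) 1) ||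
  ((Nat.beq (tb MASK 1 1 (ix6 b015 b025 b125 b045 b145 b245)) 1) ||
  (Nat.beq (tb MASK 1 1 (ix6 b015 b025 b125 b035 b135 b235)) 1)))))))))))))))))))))))))))))

theorem anyL_0 (c MASK A : ℕ) (hA : chkA c MASK A = true) (g : V → V → V → ℕ)
    (hb : ∀ a b c, g a b c = 0 ∨ g a b c = 1) (hg : Symm3 g) (a b c' d e f : V)
    (h : Nat.beq (tb MASK 1 1 (ix6 (g a c' d) (g a c' e) (g a d e) (g a c' f) (g a d f) (g a e f))) 1 = true) :
    A ≤ JP (TL c g) ![a, b, c', d, e, f] := by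
  have hp : Function.Bijective (![0, 2, 3, 4, 5, 1] : Fin 6 → Fin 6) := by decide
  rw [← JP_comp (TL c g) (Equiv.ofBijective _ hp) ![a, b, c', d, e, f]]
  refine JP_link c MASK A hA g hb hg _ ?_
  show Nat.beq (tb MASK 1 1 (ix6 (g a c' d) (g a c' e) (g a d e) (g a c' f) (g a d f) (g a e f))) 1 = true
  exact h

theorem anyL_1 (c MASK A : ℕ) (hA : chkA c MASK A = true) (g : V → V → V → ℕ)
    (hb : ∀ a b c, g a b c = 0 ∨ g a b c = 1) (hg : Symm3 g) (a b c' d e f : V)
    (h : Nat.beq (tb MASK 1 1 (ix6 (g a b d) (g a b e) (g a d e) (g a b f) (g a d f) (g a e f))) 1 = true) :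
    A ≤ JP (TL c g) ![a, b, c', d, e, f] := by
  have hp : Function.Bijective (![0, 1, 3, 4, 5, 2] : Fin 6 → Fin 6) := by decide
  rw [← JP_comp (TL c g) (Equiv.ofBijective _ hp) ![a, b, c', d, e, f]]
  refine JP_link c MASK A hA g hb hg _ ?_
  show Nat.beq (tb MASK 1 1 (ix6 (g a b d) (g a b e) (g a d e) (g a b f) (g a d f) (g a e f))) 1 = true
  exact h

theorem anyL_2 (c MASK A : ℕ) (hA : chkA c MASK A = true) (g : V → V → V → ℕ)
    (hb : ∀ a b c, g a b c = 0 ∨ g a b c = 1) (hg : Symm3 g) (a b c' d e f : V)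
    (h : Nat.beq (tb MASK 1 1 (ix6 (g a b c') (g a b e) (g a c' e) (g a b f) (g a c' f) (g a e f))) 1 = true) :
    A ≤ JP (TL c g) ![a, b, c', d, e, f] := by
  have hp : Function.Bijective (![0, 1, 2, 4, 5, 3] : Fin 6 → Fin 6) := by decide
  rw [← JP_comp (TL c g) (Equiv.ofBijective _ hp) ![a, b, c', d, e, f]]
  refine JP_link c MASK A hA g hb hg _ ?_
  show Nat.beq (tb MASK 1 1 (ix6 (g a b c') (g a b e) (g a c' e) (g a b f) (g a c' f) (g a e f))) 1 = true
  exact h

theorem anyL_3 (c MASK A : ℕ) (hA : chkA c MASK A = true) (g : V → V → V → ℕ)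
    (hb : ∀ a b c, g a b c = 0 ∨ g a b c = 1) (hg : Symm3 g) (a b c' d e f : V)
    (h : Nat.beq (tb MASK 1 1 (ix6 (g a b c') (g a b d) (g a c' d) (g a b f) (g a c' f) (g a d f))) 1 = true) :
    A ≤ JP (TL c g) ![a, b, c', d, e, f] := by
  have hp : Function.Bijective (![0, 1, 2, 3, 5, 4] : Fin 6 → Fin 6) := by decide
  rw [← JP_comp (TL c g) (Equiv.ofBijective _ hp) ![a, b, c', d, e, f]]
  refine JP_link c MASK A hA g hb hg _ ?_
  show Nat.beq (tb MASK 1 1 (ix6 (g a b c') (g a b d) (g a c' d) (g a b f) (g a c' f) (g a d f))) 1 = true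
  exact h

theorem anyL_4 (c MASK A : ℕ) (hA : chkA c MASK A = true) (g : V → V → V → ℕ)
    (hb : ∀ a b c, g a b c = 0 ∨ g a b c = 1) (hg : Symm3 g) (a b c' d e f : V)
    (h : Nat.beq (tb MASK 1 1 (ix6 (g a b c') (g a b d) (g a c' d) (g a b e) (g a c' e) (g a d e))) 1 = true) :
    A ≤ JP (TL c g) ![a, b, c', d, e, f] := by
  have hp : Function.Bijective (![0, 1, 2, 3, 4, 5] : Fin 6 → Fin 6) := by decide
  rw [← JP_comp (TL c g) (Equiv.ofBijective _ hp) ![a, b, c', d, e, f]]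
  refine JP_link c MASK A hA g hb hg _ ?_
  show Nat.beq (tb MASK 1 1 (ix6 (g a b c') (g a b d) (g a c' d) (g a b e) (g a c' e) (g a d e))) 1 = true
  exact h

theorem anyL_5 (c MASK A : ℕ) (hA : chkA c MASK A = true) (g : V → V → V → ℕ)
    (hb : ∀ a b c, g a b c = 0 ∨ g a b c = 1) (hg : Symm3 g) (a b c' d e f : V)
    (h : Nat.beq (tb MASK 1 1 (ix6 (g b c' d) (g b c' e) (g b d e) (g b c' f) (g b d f) (g b e f))) 1 = true) :
    A ≤ JP (TL c g) ![a, b, c', d, e, f] := by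
  have hp : Function.Bijective (![1, 2, 3, 4, 5, 0] : Fin 6 → Fin 6) := by decide
  rw [← JP_comp (TL c g) (Equiv.ofBijective _ hp) ![a, b, c', d, e, f]]
  refine JP_link c MASK A hA g hb hg _ ?_
  show Nat.beq (tb MASK 1 1 (ix6 (g b c' d) (g b c' e) (g b d e) (g b c' f) (g b d f) (g b e f))) 1 = true
  exact h

theorem anyL_6 (c MASK A : ℕ) (hA : chkA c MASK A = true) (g : V → V → V → ℕ)
    (hb : ∀ a b c, g a b c = 0 ∨ g a b c = 1) (hg : Symm3 g) (a b c' d e f : V)
    (h : Nat.beq (tb MASK 1 1 (ix6 (g a b d) (g a b e) (g b d e) (g a b f) (g b d f) (g b e f))) 1 = true) :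
    A ≤ JP (TL c g) ![a, b, c', d, e, f] := by
  have hp : Function.Bijective (![1, 0, 3, 4, 5, 2] : Fin 6 → Fin 6) := by decide
  rw [← JP_comp (TL c g) (Equiv.ofBijective _ hp) ![a, b, c', d, e, f]]
  refine JP_link c MASK A hA g hb hg _ ?_
  show Nat.beq (tb MASK 1 1 (ix6 (g b a d) (g b a e) (g b d e) (g b a f) (g b d f) (g b e f))) 1 = true
  have q0 : g b a d = g a b d := hg.s12 a b d
  have q1 : g b a e = g a b e := hg.s12 a b e
  have q3 : g b a f = g a b f := hg.s12 a b f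
  rw [q0, q1, q3]
  exact h

theorem anyL_7 (c MASK A : ℕ) (hA : chkA c MASK A = true) (g : V → V → V → ℕ)
    (hb : ∀ a b c, g a b c = 0 ∨ g a b c = 1) (hg : Symm3 g) (a b c' d e f : V)
    (h : Nat.beq (tb MASK 1 1 (ix6 (g a b c') (g a b e) (g b c' e) (g a b f) (g b c' f) (g b e f))) 1 = true) :
    A ≤ JP (TL c g) ![a, b, c', d, e, f] := by
  have hp : Function.Bijective (![1, 0, 2, 4, 5, 3] : Fin 6 → Fin 6) := by decide
  rw [← JP_comp (TL c g) (Equiv.ofBijective _ hp) ![a, b, c', d, e, f]]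
  refine JP_link c MASK A hA g hb hg _ ?_
  show Nat.beq (tb MASK 1 1 (ix6 (g b a c') (g b a e) (g b c' e) (g b a f) (g b c' f) (g b e f))) 1 = true
  have q0 : g b a c' = g a b c' := hg.s12 a b c'
  have q1 : g b a e = g a b e := hg.s12 a b e
  have q3 : g b a f = g a b f := hg.s12 a b f
  rw [q0, q1, q3]
  exact h

theorem anyL_8 (c MASK A : ℕ) (hA : chkA c MASK A = true) (g : V → V → V → ℕ)
    (hb : ∀ a b c, g a b c = 0 ∨ g a b c = 1) (hg : Symm3 g) (a b c' d e f : V)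
    (h : Nat.beq (tb MASK 1 1 (ix6 (g a b c') (g a b d) (g b c' d) (g a b f) (g b c' f) (g b d f))) 1 = true) :
    A ≤ JP (TL c g) ![a, b, c', d, e, f] := by
  have hp : Function.Bijective (![1, 0, 2, 3, 5, 4] : Fin 6 → Fin 6) := by decide
  rw [← JP_comp (TL c g) (Equiv.ofBijective _ hp) ![a, b, c', d, e, f]]
  refine JP_link c MASK A hA g hb hg _ ?_
  show Nat.beq (tb MASK 1 1 (ix6 (g b a c') (g b a d) (g b c' d) (g b a f) (g b c' f) (g b d f))) 1 = true
  have q0 : g b a c' = g a b c' := hg.s12 a b c'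
  have q1 : g b a d = g a b d := hg.s12 a b d
  have q3 : g b a f = g a b f := hg.s12 a b f
  rw [q0, q1, q3]
  exact h

theorem anyL_9 (c MASK A : ℕ) (hA : chkA c MASK A = true) (g : V → V → V → ℕ)
    (hb : ∀ a b c, g a b c = 0 ∨ g a b c = 1) (hg : Symm3 g) (a b c' d e f : V)
    (h : Nat.beq (tb MASK 1 1 (ix6 (g a b c') (g a b d) (g b c' d) (g a b e) (g b c' e) (g b d e))) 1 = true) :
    A ≤ JP (TL c g) ![a, b, c', d, e, f] := by
  have hp : Function.Bijective (![1, 0, 2, 3, 4, 5] : Fin 6 → Fin 6) := by decide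
  rw [← JP_comp (TL c g) (Equiv.ofBijective _ hp) ![a, b, c', d, e, f]]
  refine JP_link c MASK A hA g hb hg _ ?_
  show Nat.beq (tb MASK 1 1 (ix6 (g b a c') (g b a d) (g b c' d) (g b a e) (g b c' e) (g b d e))) 1 = true
  have q0 : g b a c' = g a b c' := hg.s12 a b c'
  have q1 : g b a d = g a b d := hg.s12 a b d
  have q3 : g b a e = g a b e := hg.s12 a b e
  rw [q0, q1, q3]
  exact h

theorem anyL_10 (c MASK A : ℕ) (hA : chkA c MASK A = true) (g : V → V → V → ℕ)
    (hb : ∀ a b c, g a b c = 0 ∨ g a b c = 1) (hg : Symm3 g) (a b c' d e f : V)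
    (h : Nat.beq (tb MASK 1 1 (ix6 (g b c' d) (g b c' e) (g c' d e) (g b c' f) (g c' d f) (g c' e f))) 1 = true) :
    A ≤ JP (TL c g) ![a, b, c', d, e, f] := by
  have hp : Function.Bijective (![2, 1, 3, 4, 5, 0] : Fin 6 → Fin 6) := by decide
  rw [← JP_comp (TL c g) (Equiv.ofBijective _ hp) ![a, b, c', d, e, f]]
  refine JP_link c MASK A hA g hb hg _ ?_
  show Nat.beq (tb MASK 1 1 (ix6 (g c' b d) (g c' b e) (g c' d e) (g c' b f) (g c' d f) (g c' e f))) 1 = true
  have q0 : g c' b d = g b c' d := hg.s12 b c' d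
  have q1 : g c' b e = g b c' e := hg.s12 b c' e
  have q3 : g c' b f = g b c' f := hg.s12 b c' f
  rw [q0, q1, q3]
  exact h

theorem anyL_11 (c MASK A : ℕ) (hA : chkA c MASK A = true) (g : V → V → V → ℕ)
    (hb : ∀ a b c, g a b c = 0 ∨ g a b c = 1) (hg : Symm3 g) (a b c' d e f : V)
    (h : Nat.beq (tb MASK 1 1 (ix6 (g a c' d) (g a c' e) (g c' d e) (g a c' f) (g c' d f) (g c' e f))) 1 = true) :
    A ≤ JP (TL c g) ![a, b, c', d, e, f] := by
  have hp : Function.Bijective (![2, 0, 3, 4, 5, 1] : Fin 6 → Fin 6) := by decide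
  rw [← JP_comp (TL c g) (Equiv.ofBijective _ hp) ![a, b, c', d, e, f]]
  refine JP_link c MASK A hA g hb hg _ ?_
  show Nat.beq (tb MASK 1 1 (ix6 (g c' a d) (g c' a e) (g c' d e) (g c' a f) (g c' d f) (g c' e f))) 1 = true
  have q0 : g c' a d = g a c' d := hg.s12 a c' d
  have q1 : g c' a e = g a c' e := hg.s12 a c' e
  have q3 : g c' a f = g a c' f := hg.s12 a c' f
  rw [q0, q1, q3]
  exact h

theorem anyL_12 (c MASK A : ℕ) (hA : chkA c MASK A = true) (g : V → V → V → ℕ)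
    (hb : ∀ a b c, g a b c = 0 ∨ g a b c = 1) (hg : Symm3 g) (a b c' d e f : V)
    (h : Nat.beq (tb MASK 1 1 (ix6 (g a b c') (g a c' e) (g b c' e) (g a c' f) (g b c' f) (g c' e f))) 1 = true) :
    A ≤ JP (TL c g) ![a, b, c', d, e, f] := by
  have hp : Function.Bijective (![2, 0, 1, 4, 5, 3] : Fin 6 → Fin 6) := by decide
  rw [← JP_comp (TL c g) (Equiv.ofBijective _ hp) ![a, b, c', d, e, f]]
  refine JP_link c MASK A hA g hb hg _ ?_
  show Nat.beq (tb MASK 1 1 (ix6 (g c' a b) (g c' a e) (g c' b e) (g c' a f) (g c' b f) (g c' e f))) 1 = true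
  have q0 : g c' a b = g a b c' := (hg.s12 a c' b).trans (hg.s23 a b c')
  have q1 : g c' a e = g a c' e := hg.s12 a c' e
  have q2 : g c' b e = g b c' e := hg.s12 b c' e
  have q3 : g c' a f = g a c' f := hg.s12 a c' f
  have q4 : g c' b f = g b c' f := hg.s12 b c' f
  rw [q0, q1, q2, q3, q4]
  exact h

theorem anyL_13 (c MASK A : ℕ) (hA : chkA c MASK A = true) (g : V → V → V → ℕ)
    (hb : ∀ a b c, g a b c = 0 ∨ g a b c = 1) (hg : Symm3 g) (a b c' d e f : V)
    (h : Nat.beq (tb MASK 1 1 (ix6 (g a b c') (g a c' d) (g b c' d) (g a c' f) (g b c' f) (g c' d f))) 1 = true) :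
    A ≤ JP (TL c g) ![a, b, c', d, e, f] := by
  have hp : Function.Bijective (![2, 0, 1, 3, 5, 4] : Fin 6 → Fin 6) := by decide
  rw [← JP_comp (TL c g) (Equiv.ofBijective _ hp) ![a, b, c', d, e, f]]
  refine JP_link c MASK A hA g hb hg _ ?_
  show Nat.beq (tb MASK 1 1 (ix6 (g c' a b) (g c' a d) (g c' b d) (g c' a f) (g c' b f) (g c' d f))) 1 = true
  have q0 : g c' a b = g a b c' := (hg.s12 a c' b).trans (hg.s23 a b c')
  have q1 : g c' a d = g a c' d := hg.s12 a c' d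
  have q2 : g c' b d = g b c' d := hg.s12 b c' d
  have q3 : g c' a f = g a c' f := hg.s12 a c' f
  have q4 : g c' b f = g b c' f := hg.s12 b c' f
  rw [q0, q1, q2, q3, q4]
  exact h

theorem anyL_14 (c MASK A : ℕ) (hA : chkA c MASK A = true) (g : V → V → V → ℕ)
    (hb : ∀ a b c, g a b c = 0 ∨ g a b c = 1) (hg : Symm3 g) (a b c' d e f : V)
    (h : Nat.beq (tb MASK 1 1 (ix6 (g a b c') (g a c' d) (g b c' d) (g a c' e) (g b c' e) (g c' d e))) 1 = true) :
    A ≤ JP (TL c g) ![a, b, c', d, e, f] := by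
  have hp : Function.Bijective (![2, 0, 1, 3, 4, 5] : Fin 6 → Fin 6) := by decide
  rw [← JP_comp (TL c g) (Equiv.ofBijective _ hp) ![a, b, c', d, e, f]]
  refine JP_link c MASK A hA g hb hg _ ?_
  show Nat.beq (tb MASK 1 1 (ix6 (g c' a b) (g c' a d) (g c' b d) (g c' a e) (g c' b e) (g c' d e))) 1 = true
  have q0 : g c' a b = g a b c' := (hg.s12 a c' b).trans (hg.s23 a b c')
  have q1 : g c' a d = g a c' d := hg.s12 a c' d
  have q2 : g c' b d = g b c' d := hg.s12 b c' d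
  have q3 : g c' a e = g a c' e := hg.s12 a c' e
  have q4 : g c' b e = g b c' e := hg.s12 b c' e
  rw [q0, q1, q2, q3, q4]
  exact h

theorem anyL_15 (c MASK A : ℕ) (hA : chkA c MASK A = true) (g : V → V → V → ℕ)
    (hb : ∀ a b c, g a b c = 0 ∨ g a b c = 1) (hg : Symm3 g) (a b c' d e f : V)
    (h : Nat.beq (tb MASK 1 1 (ix6 (g b c' d) (g b d e) (g c' d e) (g b d f) (g c' d f) (g d e f))) 1 = true) :
    A ≤ JP (TL c g) ![a, b, c', d, e, f] := by
  have hp : Function.Bijective (![3, 1, 2, 4, 5, 0] : Fin 6 → Fin 6) := by decide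
  rw [← JP_comp (TL c g) (Equiv.ofBijective _ hp) ![a, b, c', d, e, f]]
  refine JP_link c MASK A hA g hb hg _ ?_
  show Nat.beq (tb MASK 1 1 (ix6 (g d b c') (g d b e) (g d c' e) (g d b f) (g d c' f) (g d e f))) 1 = true
  have q0 : g d b c' = g b c' d := (hg.s12 b d c').trans (hg.s23 b c' d)
  have q1 : g d b e = g b d e := hg.s12 b d e
  have q2 : g d c' e = g c' d e := hg.s12 c' d e
  have q3 : g d b f = g b d f := hg.s12 b d f
  have q4 : g d c' f = g c' d f := hg.s12 c' d f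
  rw [q0, q1, q2, q3, q4]
  exact h

theorem anyL_16 (c MASK A : ℕ) (hA : chkA c MASK A = true) (g : V → V → V → ℕ)
    (hb : ∀ a b c, g a b c = 0 ∨ g a b c = 1) (hg : Symm3 g) (a b c' d e f : V)
    (h : Nat.beq (tb MASK 1 1 (ix6 (g a c' d) (g a d e) (g c' d e) (g a d f) (g c' d f) (g d e f))) 1 = true) :
    A ≤ JP (TL c g) ![a, b, c', d, e, f] := by
  have hp : Function.Bijective (![3, 0, 2, 4, 5, 1] : Fin 6 → Fin 6) := by decide
  rw [← JP_comp (TL c g) (Equiv.ofBijective _ hp) ![a, b, c', d, e, f]]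
  refine JP_link c MASK A hA g hb hg _ ?_
  show Nat.beq (tb MASK 1 1 (ix6 (g d a c') (g d a e) (g d c' e) (g d a f) (g d c' f) (g d e f))) 1 = true
  have q0 : g d a c' = g a c' d := (hg.s12 a d c').trans (hg.s23 a c' d)
  have q1 : g d a e = g a d e := hg.s12 a d e
  have q2 : g d c' e = g c' d e := hg.s12 c' d e
  have q3 : g d a f = g a d f := hg.s12 a d f
  have q4 : g d c' f = g c' d f := hg.s12 c' d f
  rw [q0, q1, q2, q3, q4]
  exact h

theorem anyL_17 (c MASK A : ℕ) (hA : chkA c MASK A = true) (g : V → V → V → ℕ)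
    (hb : ∀ a b c, g a b c = 0 ∨ g a b c = 1) (hg : Symm3 g) (a b c' d e f : V)
    (h : Nat.beq (tb MASK 1 1 (ix6 (g a b d) (g a d e) (g b d e) (g a d f) (g b d f) (g d e f))) 1 = true) :
    A ≤ JP (TL c g) ![a, b, c', d, e, f] := by
  have hp : Function.Bijective (![3, 0, 1, 4, 5, 2] : Fin 6 → Fin 6) := by decide
  rw [← JP_comp (TL c g) (Equiv.ofBijective _ hp) ![a, b, c', d, e, f]]
  refine JP_link c MASK A hA g hb hg _ ?_
  show Nat.beq (tb MASK 1 1 (ix6 (g d a b) (g d a e) (g d b e) (g d a f) (g d b f) (g d e f))) 1 = true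
  have q0 : g d a b = g a b d := (hg.s12 a d b).trans (hg.s23 a b d)
  have q1 : g d a e = g a d e := hg.s12 a d e
  have q2 : g d b e = g b d e := hg.s12 b d e
  have q3 : g d a f = g a d f := hg.s12 a d f
  have q4 : g d b f = g b d f := hg.s12 b d f
  rw [q0, q1, q2, q3, q4]
  exact h

theorem anyL_18 (c MASK A : ℕ) (hA : chkA c MASK A = true) (g : V → V → V → ℕ)
    (hb : ∀ a b c, g a b c = 0 ∨ g a b c = 1) (hg : Symm3 g) (a b c' d e f : V)
    (h : Nat.beq (tb MASK 1 1 (ix6 (g a b d) (g a c' d) (g b c' d) (g a d f) (g b d f) (g c' d f))) 1 = true) :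
    A ≤ JP (TL c g) ![a, b, c', d, e, f] := by
  have hp : Function.Bijective (![3, 0, 1, 2, 5, 4] : Fin 6 → Fin 6) := by decide
  rw [← JP_comp (TL c g) (Equiv.ofBijective _ hp) ![a, b, c', d, e, f]]
  refine JP_link c MASK A hA g hb hg _ ?_
  show Nat.beq (tb MASK 1 1 (ix6 (g d a b) (g d a c') (g d b c') (g d a f) (g d b f) (g d c' f))) 1 = true
  have q0 : g d a b = g a b d := (hg.s12 a d b).trans (hg.s23 a b d)
  have q1 : g d a c' = g a c' d := (hg.s12 a d c').trans (hg.s23 a c' d)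
  have q2 : g d b c' = g b c' d := (hg.s12 b d c').trans (hg.s23 b c' d)
  have q3 : g d a f = g a d f := hg.s12 a d f
  have q4 : g d b f = g b d f := hg.s12 b d f
  have q5 : g d c' f = g c' d f := hg.s12 c' d f
  rw [q0, q1, q2, q3, q4, q5]
  exact h

theorem anyL_19 (c MASK A : ℕ) (hA : chkA c MASK A = true) (g : V → V → V → ℕ)
    (hb : ∀ a b c, g a b c = 0 ∨ g a b c = 1) (hg : Symm3 g) (a b c' d e f : V)
    (h : Nat.beq (tb MASK 1 1 (ix6 (g a b d) (g a c' d) (g b c' d) (g a d e) (g b d e) (g c' d e))) 1 = true) :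
    A ≤ JP (TL c g) ![a, b, c', d, e, f] := by
  have hp : Function.Bijective (![3, 0, 1, 2, 4, 5] : Fin 6 → Fin 6) := by decide
  rw [← JP_comp (TL c g) (Equiv.ofBijective _ hp) ![a, b, c', d, e, f]]
  refine JP_link c MASK A hA g hb hg _ ?_
  show Nat.beq (tb MASK 1 1 (ix6 (g d a b) (g d a c') (g d b c') (g d a e) (g d b e) (g d c' e))) 1 = true
  have q0 : g d a b = g a b d := (hg.s12 a d b).trans (hg.s23 a b d)
  have q1 : g d a c' = g a c' d := (hg.s12 a d c').trans (hg.s23 a c' d)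
  have q2 : g d b c' = g b c' d := (hg.s12 b d c').trans (hg.s23 b c' d)
  have q3 : g d a e = g a d e := hg.s12 a d e
  have q4 : g d b e = g b d e := hg.s12 b d e
  have q5 : g d c' e = g c' d e := hg.s12 c' d e
  rw [q0, q1, q2, q3, q4, q5]
  exact h

theorem anyL_20 (c MASK A : ℕ) (hA : chkA c MASK A = true) (g : V → V → V → ℕ)
    (hb : ∀ a b c, g a b c = 0 ∨ g a b c = 1) (hg : Symm3 g) (a b c' d e f : V)
    (h : Nat.beq (tb MASK 1 1 (ix6 (g b c' e) (g b d e) (g c' d e) (g b e f) (g c' e f) (g d e f))) 1 = true) :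
    A ≤ JP (TL c g) ![a, b, c', d, e, f] := by
  have hp : Function.Bijective (![4, 1, 2, 3, 5, 0] : Fin 6 → Fin 6) := by decide
  rw [← JP_comp (TL c g) (Equiv.ofBijective _ hp) ![a, b, c', d, e, f]]
  refine JP_link c MASK A hA g hb hg _ ?_
  show Nat.beq (tb MASK 1 1 (ix6 (g e b c') (g e b d) (g e c' d) (g e b f) (g e c' f) (g e d f))) 1 = true
  have q0 : g e b c' = g b c' e := (hg.s12 b e c').trans (hg.s23 b c' e)
  have q1 : g e b d = g b d e := (hg.s12 b e d).trans (hg.s23 b d e)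
  have q2 : g e c' d = g c' d e := (hg.s12 c' e d).trans (hg.s23 c' d e)
  have q3 : g e b f = g b e f := hg.s12 b e f
  have q4 : g e c' f = g c' e f := hg.s12 c' e f
  have q5 : g e d f = g d e f := hg.s12 d e f
  rw [q0, q1, q2, q3, q4, q5]
  exact h

theorem anyL_21 (c MASK A : ℕ) (hA : chkA c MASK A = true) (g : V → V → V → ℕ)
    (hb : ∀ a b c, g a b c = 0 ∨ g a b c = 1) (hg : Symm3 g) (a b c' d e f : V)
    (h : Nat.beq (tb MASK 1 1 (ix6 (g a c' e) (g a d e) (g c' d e) (g a e f) (g c' e f) (g d e f))) 1 = true) :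
    A ≤ JP (TL c g) ![a, b, c', d, e, f] := by
  have hp : Function.Bijective (![4, 0, 2, 3, 5, 1] : Fin 6 → Fin 6) := by decide
  rw [← JP_comp (TL c g) (Equiv.ofBijective _ hp) ![a, b, c', d, e, f]]
  refine JP_link c MASK A hA g hb hg _ ?_
  show Nat.beq (tb MASK 1 1 (ix6 (g e a c') (g e a d) (g e c' d) (g e a f) (g e c' f) (g e d f))) 1 = true
  have q0 : g e a c' = g a c' e := (hg.s12 a e c').trans (hg.s23 a c' e)
  have q1 : g e a d = g a d e := (hg.s12 a e d).trans (hg.s23 a d e)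
  have q2 : g e c' d = g c' d e := (hg.s12 c' e d).trans (hg.s23 c' d e)
  have q3 : g e a f = g a e f := hg.s12 a e f
  have q4 : g e c' f = g c' e f := hg.s12 c' e f
  have q5 : g e d f = g d e f := hg.s12 d e f
  rw [q0, q1, q2, q3, q4, q5]
  exact h

theorem anyL_22 (c MASK A : ℕ) (hA : chkA c MASK A = true) (g : V → V → V → ℕ)
    (hb : ∀ a b c, g a b c = 0 ∨ g a b c = 1) (hg : Symm3 g) (a b c' d e f : V)
    (h : Nat.beq (tb MASK 1 1 (ix6 (g a b e) (g a d e) (g b d e) (g a e f) (g b e f) (g d e f))) 1 = true) :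
    A ≤ JP (TL c g) ![a, b, c', d, e, f] := by
  have hp : Function.Bijective (![4, 0, 1, 3, 5, 2] : Fin 6 → Fin 6) := by decide
  rw [← JP_comp (TL c g) (Equiv.ofBijective _ hp) ![a, b, c', d, e, f]]
  refine JP_link c MASK A hA g hb hg _ ?_
  show Nat.beq (tb MASK 1 1 (ix6 (g e a b) (g e a d) (g e b d) (g e a f) (g e b f) (g e d f))) 1 = true
  have q0 : g e a b = g a b e := (hg.s12 a e b).trans (hg.s23 a b e)
  have q1 : g e a d = g a d e := (hg.s12 a e d).trans (hg.s23 a d e)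
  have q2 : g e b d = g b d e := (hg.s12 b e d).trans (hg.s23 b d e)
  have q3 : g e a f = g a e f := hg.s12 a e f
  have q4 : g e b f = g b e f := hg.s12 b e f
  have q5 : g e d f = g d e f := hg.s12 d e f
  rw [q0, q1, q2, q3, q4, q5]
  exact h

theorem anyL_23 (c MASK A : ℕ) (hA : chkA c MASK A = true) (g : V → V → V → ℕ)
    (hb : ∀ a b c, g a b c = 0 ∨ g a b c = 1) (hg : Symm3 g) (a b c' d e f : V)
    (h : Nat.beq (tb MASK 1 1 (ix6 (g a b e) (g a c' e) (g b c' e) (g a e f) (g b e f) (g c' e f))) 1 = true) :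
    A ≤ JP (TL c g) ![a, b, c', d, e, f] := by
  have hp : Function.Bijective (![4, 0, 1, 2, 5, 3] : Fin 6 → Fin 6) := by decide
  rw [← JP_comp (TL c g) (Equiv.ofBijective _ hp) ![a, b, c', d, e, f]]
  refine JP_link c MASK A hA g hb hg _ ?_
  show Nat.beq (tb MASK 1 1 (ix6 (g e a b) (g e a c') (g e b c') (g e a f) (g e b f) (g e c' f))) 1 = true
  have q0 : g e a b = g a b e := (hg.s12 a e b).trans (hg.s23 a b e)
  have q1 : g e a c' = g a c' e := (hg.s12 a e c').trans (hg.s23 a c' e)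
  have q2 : g e b c' = g b c' e := (hg.s12 b e c').trans (hg.s23 b c' e)
  have q3 : g e a f = g a e f := hg.s12 a e f
  have q4 : g e b f = g b e f := hg.s12 b e f
  have q5 : g e c' f = g c' e f := hg.s12 c' e f
  rw [q0, q1, q2, q3, q4, q5]
  exact h

theorem anyL_24 (c MASK A : ℕ) (hA : chkA c MASK A = true) (g : V → V → V → ℕ)
    (hb : ∀ a b c, g a b c = 0 ∨ g a b c = 1) (hg : Symm3 g) (a b c' d e f : V)
    (h : Nat.beq (tb MASK 1 1 (ix6 (g a b e) (g a c' e) (g b c' e) (g a d e) (g b d e) (g c' d e))) 1 = true) :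
    A ≤ JP (TL c g) ![a, b, c', d, e, f] := by
  have hp : Function.Bijective (![4, 0, 1, 2, 3, 5] : Fin 6 → Fin 6) := by decide
  rw [← JP_comp (TL c g) (Equiv.ofBijective _ hp) ![a, b, c', d, e, f]]
  refine JP_link c MASK A hA g hb hg _ ?_
  show Nat.beq (tb MASK 1 1 (ix6 (g e a b) (g e a c') (g e b c') (g e a d) (g e b d) (g e c' d))) 1 = true
  have q0 : g e a b = g a b e := (hg.s12 a e b).trans (hg.s23 a b e)
  have q1 : g e a c' = g a c' e := (hg.s12 a e c').trans (hg.s23 a c' e)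
  have q2 : g e b c' = g b c' e := (hg.s12 b e c').trans (hg.s23 b c' e)
  have q3 : g e a d = g a d e := (hg.s12 a e d).trans (hg.s23 a d e)
  have q4 : g e b d = g b d e := (hg.s12 b e d).trans (hg.s23 b d e)
  have q5 : g e c' d = g c' d e := (hg.s12 c' e d).trans (hg.s23 c' d e)
  rw [q0, q1, q2, q3, q4, q5]
  exact h

theorem anyL_25 (c MASK A : ℕ) (hA : chkA c MASK A = true) (g : V → V → V → ℕ)
    (hb : ∀ a b c, g a b c = 0 ∨ g a b c = 1) (hg : Symm3 g) (a b c' d e f : V)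
    (h : Nat.beq (tb MASK 1 1 (ix6 (g b c' f) (g b d f) (g c' d f) (g b e f) (g c' e f) (g d e f))) 1 = true) :
    A ≤ JP (TL c g) ![a, b, c', d, e, f] := by
  have hp : Function.Bijective (![5, 1, 2, 3, 4, 0] : Fin 6 → Fin 6) := by decide
  rw [← JP_comp (TL c g) (Equiv.ofBijective _ hp) ![a, b, c', d, e, f]]
  refine JP_link c MASK A hA g hb hg _ ?_
  show Nat.beq (tb MASK 1 1 (ix6 (g f b c') (g f b d) (g f c' d) (g f b e) (g f c' e) (g f d e))) 1 = true
  have q0 : g f b c' = g b c' f := (hg.s12 b f c').trans (hg.s23 b c' f)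
  have q1 : g f b d = g b d f := (hg.s12 b f d).trans (hg.s23 b d f)
  have q2 : g f c' d = g c' d f := (hg.s12 c' f d).trans (hg.s23 c' d f)
  have q3 : g f b e = g b e f := (hg.s12 b f e).trans (hg.s23 b e f)
  have q4 : g f c' e = g c' e f := (hg.s12 c' f e).trans (hg.s23 c' e f)
  have q5 : g f d e = g d e f := (hg.s12 d f e).trans (hg.s23 d e f)
  rw [q0, q1, q2, q3, q4, q5]
  exact h

theorem anyL_26 (c MASK A : ℕ) (hA : chkA c MASK A = true) (g : V → V → V → ℕ)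
    (hb : ∀ a b c, g a b c = 0 ∨ g a b c = 1) (hg : Symm3 g) (a b c' d e f : V)
    (h : Nat.beq (tb MASK 1 1 (ix6 (g a c' f) (g a d f) (g c' d f) (g a e f) (g c' e f) (g d e f))) 1 = true) :
    A ≤ JP (TL c g) ![a, b, c', d, e, f] := by
  have hp : Function.Bijective (![5, 0, 2, 3, 4, 1] : Fin 6 → Fin 6) := by decide
  rw [← JP_comp (TL c g) (Equiv.ofBijective _ hp) ![a, b, c', d, e, f]]
  refine JP_link c MASK A hA g hb hg _ ?_
  show Nat.beq (tb MASK 1 1 (ix6 (g f a c') (g f a d) (g f c' d) (g f a e) (g f c' e) (g f d e))) 1 = true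
  have q0 : g f a c' = g a c' f := (hg.s12 a f c').trans (hg.s23 a c' f)
  have q1 : g f a d = g a d f := (hg.s12 a f d).trans (hg.s23 a d f)
  have q2 : g f c' d = g c' d f := (hg.s12 c' f d).trans (hg.s23 c' d f)
  have q3 : g f a e = g a e f := (hg.s12 a f e).trans (hg.s23 a e f)
  have q4 : g f c' e = g c' e f := (hg.s12 c' f e).trans (hg.s23 c' e f)
  have q5 : g f d e = g d e f := (hg.s12 d f e).trans (hg.s23 d e f)
  rw [q0, q1, q2, q3, q4, q5]
  exact h

theorem anyL_27 (c MASK A : ℕ) (hA : chkA c MASK A = true) (g : V → V → V → ℕ)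
    (hb : ∀ a b c, g a b c = 0 ∨ g a b c = 1) (hg : Symm3 g) (a b c' d e f : V)
    (h : Nat.beq (tb MASK 1 1 (ix6 (g a b f) (g a d f) (g b d f) (g a e f) (g b e f) (g d e f))) 1 = true) :
    A ≤ JP (TL c g) ![a, b, c', d, e, f] := by
  have hp : Function.Bijective (![5, 0, 1, 3, 4, 2] : Fin 6 → Fin 6) := by decide
  rw [← JP_comp (TL c g) (Equiv.ofBijective _ hp) ![a, b, c', d, e, f]]
  refine JP_link c MASK A hA g hb hg _ ?_
  show Nat.beq (tb MASK 1 1 (ix6 (g f a b) (g f a d) (g f b d) (g f a e) (g f b e) (g f d e))) 1 = true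
  have q0 : g f a b = g a b f := (hg.s12 a f b).trans (hg.s23 a b f)
  have q1 : g f a d = g a d f := (hg.s12 a f d).trans (hg.s23 a d f)
  have q2 : g f b d = g b d f := (hg.s12 b f d).trans (hg.s23 b d f)
  have q3 : g f a e = g a e f := (hg.s12 a f e).trans (hg.s23 a e f)
  have q4 : g f b e = g b e f := (hg.s12 b f e).trans (hg.s23 b e f)
  have q5 : g f d e = g d e f := (hg.s12 d f e).trans (hg.s23 d e f)
  rw [q0, q1, q2, q3, q4, q5]
  exact h

theorem anyL_28 (c MASK A : ℕ) (hA : chkA c MASK A = true) (g : V → V → V → ℕ)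
    (hb : ∀ a b c, g a b c = 0 ∨ g a b c = 1) (hg : Symm3 g) (a b c' d e f : V)
    (h : Nat.beq (tb MASK 1 1 (ix6 (g a b f) (g a c' f) (g b c' f) (g a e f) (g b e f) (g c' e f))) 1 = true) :
    A ≤ JP (TL c g) ![a, b, c', d, e, f] := by
  have hp : Function.Bijective (![5, 0, 1, 2, 4, 3] : Fin 6 → Fin 6) := by decide
  rw [← JP_comp (TL c g) (Equiv.ofBijective _ hp) ![a, b, c', d, e, f]]
  refine JP_link c MASK A hA g hb hg _ ?_
  show Nat.beq (tb MASK 1 1 (ix6 (g f a b) (g f a c') (g f b c') (g f a e) (g f b e) (g f c' e))) 1 = true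
  have q0 : g f a b = g a b f := (hg.s12 a f b).trans (hg.s23 a b f)
  have q1 : g f a c' = g a c' f := (hg.s12 a f c').trans (hg.s23 a c' f)
  have q2 : g f b c' = g b c' f := (hg.s12 b f c').trans (hg.s23 b c' f)
  have q3 : g f a e = g a e f := (hg.s12 a f e).trans (hg.s23 a e f)
  have q4 : g f b e = g b e f := (hg.s12 b f e).trans (hg.s23 b e f)
  have q5 : g f c' e = g c' e f := (hg.s12 c' f e).trans (hg.s23 c' e f)
  rw [q0, q1, q2, q3, q4, q5]
  exact h

theorem anyL_29 (c MASK A : ℕ) (hA : chkA c MASK A = true) (g : V → V → V → ℕ)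
    (hb : ∀ a b c, g a b c = 0 ∨ g a b c = 1) (hg : Symm3 g) (a b c' d e f : V)
    (h : Nat.beq (tb MASK 1 1 (ix6 (g a b f) (g a c' f) (g b c' f) (g a d f) (g b d f) (g c' d f))) 1 = true) :
    A ≤ JP (TL c g) ![a, b, c', d, e, f] := by
  have hp : Function.Bijective (![5, 0, 1, 2, 3, 4] : Fin 6 → Fin 6) := by decide
  rw [← JP_comp (TL c g) (Equiv.ofBijective _ hp) ![a, b, c', d, e, f]]
  refine JP_link c MASK A hA g hb hg _ ?_
  show Nat.beq (tb MASK 1 1 (ix6 (g f a b) (g f a c') (g f b c') (g f a d) (g f b d) (g f c' d))) 1 = true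
  have q0 : g f a b = g a b f := (hg.s12 a f b).trans (hg.s23 a b f)
  have q1 : g f a c' = g a c' f := (hg.s12 a f c').trans (hg.s23 a c' f)
  have q2 : g f b c' = g b c' f := (hg.s12 b f c').trans (hg.s23 b c' f)
  have q3 : g f a d = g a d f := (hg.s12 a f d).trans (hg.s23 a d f)
  have q4 : g f b d = g b d f := (hg.s12 b f d).trans (hg.s23 b d f)
  have q5 : g f c' d = g c' d f := (hg.s12 c' f d).trans (hg.s23 c' d f)
  rw [q0, q1, q2, q3, q4, q5]
  exact h

theorem anyL_sound (c MASK A : ℕ) (hA : chkA c MASK A = true) (g : V → V → V → ℕ)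
    (hb : ∀ a b c, g a b c = 0 ∨ g a b c = 1) (hg : Symm3 g) (a b c' d e f : V)
    (h : anyL MASK (g a b c') (g a b d) (g a c' d) (g b c' d) (g a b e) (g a c' e) (g b c' e) (g a d e) (g b d e) (g c' d e) (g a b f) (g a c' f) (g b c' f) (g a d f) (g b d f) (g c' d f) (g a e f) (g b e f) (g c' e f) (g d e f) = true) :
    A ≤ JP (TL c g) ![a, b, c', d, e, f] := by
  unfold anyL at h
  rw [Bool.or_eq_true] at h
  rcases h with h | h
  · exact anyL_0 c MASK A hA g hb hg a b c' d e f h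
  rw [Bool.or_eq_true] at h
  rcases h with h | h
  · exact anyL_1 c MASK A hA g hb hg a b c' d e f h
  rw [Bool.or_eq_true] at h
  rcases h with h | h
  · exact anyL_2 c MASK A hA g hb hg a b c' d e f h
  rw [Bool.or_eq_true] at h
  rcases h with h | h
  · exact anyL_3 c MASK A hA g hb hg a b c' d e f h
  rw [Bool.or_eq_true] at h
  rcases h with h | h
  · exact anyL_4 c MASK A hA g hb hg a b c' d e f h
  rw [Bool.or_eq_true] at h
  rcases h with h | h
  · exact anyL_5 c MASK A hA g hb hg a b c' d e f h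
  rw [Bool.or_eq_true] at h
  rcases h with h | h
  · exact anyL_6 c MASK A hA g hb hg a b c' d e f h
  rw [Bool.or_eq_true] at h
  rcases h with h | h
  · exact anyL_7 c MASK A hA g hb hg a b c' d e f h
  rw [Bool.or_eq_true] at h
  rcases h with h | h
  · exact anyL_8 c MASK A hA g hb hg a b c' d e f h
  rw [Bool.or_eq_true] at h
  rcases h with h | h
  · exact anyL_9 c MASK A hA g hb hg a b c' d e f h
  rw [Bool.or_eq_true] at h
  rcases h with h | h
  · exact anyL_10 c MASK A hA g hb hg a b c' d e f h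
  rw [Bool.or_eq_true] at h
  rcases h with h | h
  · exact anyL_11 c MASK A hA g hb hg a b c' d e f h
  rw [Bool.or_eq_true] at h
  rcases h with h | h
  · exact anyL_12 c MASK A hA g hb hg a b c' d e f h
  rw [Bool.or_eq_true] at h
  rcases h with h | h
  · exact anyL_13 c MASK A hA g hb hg a b c' d e f h
  rw [Bool.or_eq_true] at h
  rcases h with h | h
  · exact anyL_14 c MASK A hA g hb hg a b c' d e f h
  rw [Bool.or_eq_true] at h
  rcases h with h | h
  · exact anyL_15 c MASK A hA g hb hg a b c' d e f h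
  rw [Bool.or_eq_true] at h
  rcases h with h | h
  · exact anyL_16 c MASK A hA g hb hg a b c' d e f h
  rw [Bool.or_eq_true] at h
  rcases h with h | h
  · exact anyL_17 c MASK A hA g hb hg a b c' d e f h
  rw [Bool.or_eq_true] at h
  rcases h with h | h
  · exact anyL_18 c MASK A hA g hb hg a b c' d e f h
  rw [Bool.or_eq_true] at h
  rcases h with h | h
  · exact anyL_19 c MASK A hA g hb hg a b c' d e f h
  rw [Bool.or_eq_true] at h
  rcases h with h | h
  · exact anyL_20 c MASK A hA g hb hg a b c' d e f h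
  rw [Bool.or_eq_true] at h
  rcases h with h | h
  · exact anyL_21 c MASK A hA g hb hg a b c' d e f h
  rw [Bool.or_eq_true] at h
  rcases h with h | h
  · exact anyL_22 c MASK A hA g hb hg a b c' d e f h
  rw [Bool.or_eq_true] at h
  rcases h with h | h
  · exact anyL_23 c MASK A hA g hb hg a b c' d e f h
  rw [Bool.or_eq_true] at h
  rcases h with h | h
  · exact anyL_24 c MASK A hA g hb hg a b c' d e f h
  rw [Bool.or_eq_true] at h
  rcases h with h | h
  · exact anyL_25 c MASK A hA g hb hg a b c' d e f h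
  rw [Bool.or_eq_true] at h
  rcases h with h | h
  · exact anyL_26 c MASK A hA g hb hg a b c' d e f h
  rw [Bool.or_eq_true] at h
  rcases h with h | h
  · exact anyL_27 c MASK A hA g hb hg a b c' d e f h
  rw [Bool.or_eq_true] at h
  rcases h with h | h
  · exact anyL_28 c MASK A hA g hb hg a b c' d e f h
  exact anyL_29 c MASK A hA g hb hg a b c' d e f h

end Pool.Agent.H77Lp
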