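import Pool.Agent.H77Lp.Cert
import Pool.Agent.H77Lp.Dom
import Pool.Agent.H77Lp.Coef

set_option autoImplicit false

/-!
# The bound for the `p`-th powers of the codegrees
-/

namespace Pool.Agent.H77Lp

open Pool.Agent.H6Turan

theorem major_low (p σ : ℝ) (hp1 : 1 ≤ p) (hp2 : p ≤ 2)
    (hσ : 0 ≤ 1 + 5 * ((2 : ℝ) ^ p - 1) - 4 * p - p * (2 : ℝ) ^ p + 4 * σ) (x : ℝ) (hx : 0 ≤ x) :
    x ^ p ≤ 1 + (((2 : ℝ) ^ p - 1) * (-2 * x ^ 3 + 9 * x ^ 2 - 12 * x + 5)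
      + p * (x ^ 3 - 5 * x ^ 2 + 8 * x - 4)
      + p * (2 : ℝ) ^ p / 2 * (x ^ 3 - 4 * x ^ 2 + 5 * x - 2)
      + σ * (x ^ 4 - 6 * x ^ 3 + 13 * x ^ 2 - 12 * x + 4)) := by
  have e : (2 : ℝ) ^ (p - 1) = (2 : ℝ) ^ p / 2 := by
    rw [Real.rpow_sub_one (by norm_num)]
  set X : ℝ := (2 : ℝ) ^ p with hX
  have h := dom_low p (1 + 5 * (X - 1) - 4 * p - p * X + 4 * σ)
    (-12 * (X - 1) + 8 * p + 5 * (p * X / 2) - 12 * σ)
    (9 * (X - 1) - 5 * p - 4 * (p * X / 2) + 13 * σ)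
    (-2 * (X - 1) + p + p * X / 2 - 6 * σ) σ hp1 hp2 (by ring) (by rw [← hX]; ring)
    (by ring) (by rw [e]; ring) hσ x hx
  refine le_trans h (le_of_eq ?_)
  ring

theorem major_high (p σ : ℝ) (hp1 : 2 ≤ p) (hp2 : p ≤ 3)
    (hσ : (3 : ℝ) ^ p ≤ 1 - 4 * ((2 : ℝ) ^ p - 1) + 2 * p + 2 * (p * (2 : ℝ) ^ p) + 4 * σ)
    (x : ℝ) (hx : 0 ≤ x) (hx3 : x ≤ 3) :
    x ^ p ≤ 1 + (((2 : ℝ) ^ p - 1) * (-2 * x ^ 3 + 9 * x ^ 2 - 12 * x + 5)
      + p * (x ^ 3 - 5 * x ^ 2 + 8 * x - 4)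
      + p * (2 : ℝ) ^ p / 2 * (x ^ 3 - 4 * x ^ 2 + 5 * x - 2)
      + σ * (x ^ 4 - 6 * x ^ 3 + 13 * x ^ 2 - 12 * x + 4)) := by
  have e : (2 : ℝ) ^ (p - 1) = (2 : ℝ) ^ p / 2 := by
    rw [Real.rpow_sub_one (by norm_num)]
  set X : ℝ := (2 : ℝ) ^ p with hX
  have h := dom_high p (1 + 5 * (X - 1) - 4 * p - p * X + 4 * σ)
    (-12 * (X - 1) + 8 * p + 5 * (p * X / 2) - 12 * σ)
    (9 * (X - 1) - 5 * p - 4 * (p * X / 2) + 13 * σ)
    (-2 * (X - 1) + p + p * X / 2 - 6 * σ) σ hp1 hp2 (by ring) (by rw [← hX]; ring)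
    (by ring) (by rw [e]; ring) (le_trans hσ (le_of_eq (by ring))) x hx hx3
  refine le_trans h (le_of_eq ?_)
  ring

variable {V : Type*} [Fintype V]

theorem xg_nonneg (g : V → V → V → ℕ) (a b : V) : 0 ≤ xg g a b := by
  unfold xg
  positivity

theorem xg_le (g : V → V → V → ℕ) (hb : ∀ a b c, g a b c = 0 ∨ g a b c = 1)
    (hV : 0 < Fintype.card V) (a b : V) : xg g a b ≤ 3 := by
  have hn : (0 : ℝ) < (Fintype.card V : ℝ) := Nat.cast_pos.mpr hV
  have h : cdg g a b ≤ Fintype.card V := by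
    unfold cdg
    calc ∑ c, g a b c ≤ ∑ _c : V, 1 :=
          Finset.sum_le_sum (fun c _ => by rcases hb a b c with h | h <;> omega)
      _ = Fintype.card V := by simp
  have hR : (cdg g a b : ℝ) ≤ (Fintype.card V : ℝ) := by exact_mod_cast h
  unfold xg
  rw [div_le_iff₀ hn]
  linarith

/-- the unconditional bound, `3 / 2 ≤ p ≤ 29 / 10` -/
theorem main_high (g : V → V → V → ℕ) (hb : ∀ a b c, g a b c = 0 ∨ g a b c = 1) (hg : Symm3 g)
    (h4 : ∀ a b c d, ix4 (g a b c) (g a b d) (g a c d) (g b c d) ≠ 15)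
    (hV : 0 < Fintype.card V) (p : ℝ) (hp1 : 3 / 2 ≤ p) (hp2 : p ≤ 29 / 10) :
    ∑ a, ∑ b, xg g a b ^ p ≤ (1 + 2 * (2 : ℝ) ^ p) / 3 * (Fintype.card V : ℝ) ^ 2 := by
  have hA := certA g hb hg h4 hV
  have hVv := certV g hb hg h4 hV
  have hB := certB g hb hg h4 hV
  have kA := aA p hp1 hp2
  have kV := aV p hp1 hp2
  have kB := aB p hp1 hp2
  set X : ℝ := (2 : ℝ) ^ p with hX
  set αA : ℝ := (12850 + 10000 * p + (-12850) * X + 2500 * (p * X)) / 1157 with hαA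
  set αV : ℝ := (-4340894 + (-2620000) * p + 4340894 * X + (-944250) * (p * X)) / 262639 with hαV
  set αB : ℝ := (1161305 + 350000 * p + (-1161305) * X + 376750 * (p * X)) / 262639 with hαB
  have pA : 0 ≤ αA := div_nonneg (by linarith) (by norm_num)
  have pV : 0 ≤ αV := div_nonneg (by linarith) (by norm_num)
  have pB : 0 ≤ αB := div_nonneg (by linarith) (by norm_num)
  have i1 : αA + αV + αB = X - 1 := by
    rw [hαA, hαV, hαB]
    ring
  have i2 : 8207 / 10000 * αA + 67 / 100 * αV + 443 / 1000 * αB = p := by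
    rw [hαA, hαV, hαB]
    ring
  have i3 : 29 / 25 * αA + 123 / 100 * αV + 421 / 250 * αB = p * X / 2 := by
    rw [hαA, hαV, hαB]
    ring
  have hpt : ∀ a b : V, xg g a b ^ p ≤ 1 + (αA * Qh (8207 / 10000) (29 / 25) (69 / 5000) (xg g a b)
      + αV * Qh (67 / 100) (123 / 100) (29 / 200) (xg g a b)
      + αB * Qh (443 / 1000) (421 / 250) 0 (xg g a b)) := by
    intro a b
    have h0 := xg_nonneg g a b
    have h3 := xg_le g hb hV a b
    have hm : xg g a b ^ p ≤ 1 + ((X - 1) * (-2 * xg g a b ^ 3 + 9 * xg g a b ^ 2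
          - 12 * xg g a b + 5) + p * (xg g a b ^ 3 - 5 * xg g a b ^ 2 + 8 * xg g a b - 4)
        + p * X / 2 * (xg g a b ^ 3 - 4 * xg g a b ^ 2 + 5 * xg g a b - 2)
        + (69 / 5000 * αA + 29 / 200 * αV) * (xg g a b ^ 4 - 6 * xg g a b ^ 3
          + 13 * xg g a b ^ 2 - 12 * xg g a b + 4)) := by
      rcases le_total p 2 with h2 | h2
      · have kL := lvA p hp1 h2
        refine major_low p _ (by linarith) h2 ?_ _ h0
        rw [← hX] at kL ⊢
        rw [hαA, hαV]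
        linarith
      · have kL := lvB p h2 hp2
        refine major_high p _ h2 (by linarith) ?_ _ h0 h3
        rw [← hX] at kL ⊢
        rw [hαA, hαV]
        linarith
    refine le_trans hm (le_of_eq ?_)
    rw [← i1, ← i3, ← i2]
    unfold Qh
    ring
  have hsum : ∑ a, ∑ b, xg g a b ^ p ≤ ∑ a : V, ∑ b : V,
      (1 + (αA * Qh (8207 / 10000) (29 / 25) (69 / 5000) (xg g a b)
      + αV * Qh (67 / 100) (123 / 100) (29 / 200) (xg g a b)
      + αB * Qh (443 / 1000) (421 / 250) 0 (xg g a b))) :=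
    Finset.sum_le_sum (fun a _ => Finset.sum_le_sum (fun b _ => hpt a b))
  simp only [Finset.sum_add_distrib, ← Finset.mul_sum, Finset.sum_const, Finset.card_univ,
    nsmul_eq_mul, mul_one] at hsum
  have t1 := mul_le_mul_of_nonneg_left hA pA
  have t2 := mul_le_mul_of_nonneg_left hVv pV
  have t3 := mul_le_mul_of_nonneg_left hB pB
  have t4 : αA * (2 / 3 * (Fintype.card V : ℝ) ^ 2) + αV * (2 / 3 * (Fintype.card V : ℝ) ^ 2)
      + αB * (2 / 3 * (Fintype.card V : ℝ) ^ 2) = (X - 1) * (2 / 3 * (Fintype.card V : ℝ) ^ 2) := by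
    rw [← i1]
    ring
  have t5 : (1 + 2 * X) / 3 * (Fintype.card V : ℝ) ^ 2 = (Fintype.card V : ℝ) * (Fintype.card V : ℝ)
      + (X - 1) * (2 / 3 * (Fintype.card V : ℝ) ^ 2) := by ring
  rw [t5]
  linarith

/-- the bound with an error term for the density, `1 ≤ p ≤ 3 / 2` -/
theorem main_low (g : V → V → V → ℕ) (hb : ∀ a b c, g a b c = 0 ∨ g a b c = 1) (hg : Symm3 g)
    (h4 : ∀ a b c d, ix4 (g a b c) (g a b d) (g a c d) (g b c d) ≠ 15)
    (hV : 0 < Fintype.card V) (W : ℝ) (hW : 0 ≤ W)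
    (hmain : 9 * ((Fintype.card V : ℝ) ^ 3 * (EE g : ℝ)) ≤ 5 * (Fintype.card V : ℝ) ^ 6
      + 1296 * W)
    (p : ℝ) (hp1 : 1 ≤ p) (hp2 : p ≤ 3 / 2) :
    ∑ a, ∑ b, xg g a b ^ p ≤ (1 + 2 * (2 : ℝ) ^ p) / 3 * (Fintype.card V : ℝ) ^ 2
      + 144 * (3 : ℝ) ^ p * W / (Fintype.card V : ℝ) ^ 4 := by
  have hn : (0 : ℝ) < (Fintype.card V : ℝ) := Nat.cast_pos.mpr hV
  have hVv := certV g hb hg h4 hV
  have hB := certB g hb hg h4 hV
  have kO := bO p hp1 hp2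
  have kV := bV p hp1 hp2
  have kB := bB p hp1 hp2
  have kL := bL p hp1 hp2
  have kK := bK p hp1 hp2
  set n : ℝ := (Fintype.card V : ℝ) with hn'
  -- the density inequality
  have hO : ∑ a, ∑ b, (xg g a b - 1) ≤ 2 / 3 * n ^ 2 + 432 * W / n ^ 4 := by
    have hR : 9 * (n ^ 3 * (EE g : ℝ)) ≤ 5 * n ^ 6 + 1296 * W := hmain
    have e1 : ∑ a, ∑ b, (xg g a b - 1) = 3 * (EE g : ℝ) / n - n * n := by
      have : (EE g : ℝ) = ∑ a, ∑ b, (cdg g a b : ℝ) := by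
        unfold EE cdg
        push_cast
        rfl
      rw [this]
      simp only [Finset.sum_sub_distrib, Finset.sum_const, Finset.card_univ, nsmul_eq_mul, mul_one]
      rw [← hn']
      congr 1
      rw [Finset.mul_sum, Finset.sum_div]
      refine Finset.sum_congr rfl (fun a _ => ?_)
      rw [Finset.mul_sum, Finset.sum_div]
      rfl
    rw [e1]
    have e2 : 3 * (EE g : ℝ) / n = 3 * (9 * (n ^ 3 * (EE g : ℝ))) / (9 * n ^ 4) := by
      field_simp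
    have e3 : 3 * (9 * (n ^ 3 * (EE g : ℝ))) / (9 * n ^ 4)
        ≤ 3 * (5 * n ^ 6 + 1296 * W) / (9 * n ^ 4) := by
      apply div_le_div_of_nonneg_right _ (by positivity)
      linarith
    have e4 : 3 * (5 * n ^ 6 + 1296 * W) / (9 * n ^ 4)
        = 5 / 3 * n ^ 2 + 432 * W / n ^ 4 := by
      field_simp
      ring
    rw [e2]
    nlinarith
  set X : ℝ := (2 : ℝ) ^ p with hX
  set αO : ℝ := (257 + 200 * p + (-257) * X + 50 * (p * X)) / 43 with hαO
  set αV : ℝ := (-124100 + (-68400) * p + 124100 * X + (-27850) * (p * X)) / 9761 with hαV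
  set αB : ℝ := (56000 + 23000 * p + (-56000) * X + 16500 * (p * X)) / 9761 with hαB
  have pO : 0 ≤ αO := div_nonneg (by linarith) (by norm_num)
  have pV : 0 ≤ αV := div_nonneg (by linarith) (by norm_num)
  have pB : 0 ≤ αB := div_nonneg (by linarith) (by norm_num)
  have i1 : αO + αV + αB = X - 1 := by
    rw [hαO, hαV, hαB]
    ring
  have i2 : αO + 67 / 100 * αV + 443 / 1000 * αB = p := by
    rw [hαO, hαV, hαB]
    ring
  have i3 : αO + 123 / 100 * αV + 421 / 250 * αB = p * X / 2 := by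
    rw [hαO, hαV, hαB]
    ring
  have hpt : ∀ a b : V, xg g a b ^ p ≤ 1 + (αO * (xg g a b - 1)
      + αV * Qh (67 / 100) (123 / 100) (29 / 200) (xg g a b)
      + αB * Qh (443 / 1000) (421 / 250) 0 (xg g a b)) := by
    intro a b
    have h0 := xg_nonneg g a b
    have hm : xg g a b ^ p ≤ 1 + ((X - 1) * (-2 * xg g a b ^ 3 + 9 * xg g a b ^ 2
          - 12 * xg g a b + 5) + p * (xg g a b ^ 3 - 5 * xg g a b ^ 2 + 8 * xg g a b - 4)
        + p * X / 2 * (xg g a b ^ 3 - 4 * xg g a b ^ 2 + 5 * xg g a b - 2)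
        + (29 / 200 * αV) * (xg g a b ^ 4 - 6 * xg g a b ^ 3
          + 13 * xg g a b ^ 2 - 12 * xg g a b + 4)) := by
      refine major_low p _ hp1 (by linarith) ?_ _ h0
      rw [← hX, hαV]
      linarith
    refine le_trans hm (le_of_eq ?_)
    rw [← i1, ← i3, ← i2]
    unfold Qh
    ring
  have hsum : ∑ a, ∑ b, xg g a b ^ p ≤ ∑ a : V, ∑ b : V,
      (1 + (αO * (xg g a b - 1)
      + αV * Qh (67 / 100) (123 / 100) (29 / 200) (xg g a b)
      + αB * Qh (443 / 1000) (421 / 250) 0 (xg g a b))) :=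
    Finset.sum_le_sum (fun a _ => Finset.sum_le_sum (fun b _ => hpt a b))
  have hsplit : ∑ a : V, ∑ b : V, (1 + (αO * (xg g a b - 1)
      + αV * Qh (67 / 100) (123 / 100) (29 / 200) (xg g a b)
      + αB * Qh (443 / 1000) (421 / 250) 0 (xg g a b)))
      = n * n + (αO * ∑ a, ∑ b, (xg g a b - 1)
        + αV * ∑ a, ∑ b, Qh (67 / 100) (123 / 100) (29 / 200) (xg g a b)
        + αB * ∑ a, ∑ b, Qh (443 / 1000) (421 / 250) 0 (xg g a b)) := by
    have : ∀ f : V → V → ℝ, ∀ c : ℝ, ∑ a, ∑ b, c * f a b = c * ∑ a, ∑ b, f a b := by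
      intro f c
      rw [Finset.mul_sum]
      refine Finset.sum_congr rfl (fun a _ => ?_)
      rw [Finset.mul_sum]
    rw [← this, ← this, ← this]
    simp only [Finset.sum_add_distrib, Finset.sum_const, Finset.card_univ, nsmul_eq_mul, mul_one]
    rw [← hn']
  rw [hsplit] at hsum
  have t1 := mul_le_mul_of_nonneg_left hO pO
  have t2 := mul_le_mul_of_nonneg_left hVv pV
  have t3 := mul_le_mul_of_nonneg_left hB pB
  have t4 : αO * (2 / 3 * n ^ 2) + αV * (2 / 3 * n ^ 2)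
      + αB * (2 / 3 * n ^ 2) = (X - 1) * (2 / 3 * n ^ 2) := by
    rw [← i1]
    ring
  have t5 : (1 + 2 * X) / 3 * n ^ 2 = n * n + (X - 1) * (2 / 3 * n ^ 2) := by ring
  -- the coefficient of the pattern
  have t6 : αO ≤ X / 2 := by
    rw [hαO, div_le_iff₀ (by norm_num)]
    linarith
  have t7 : X / 2 ≤ (3 : ℝ) ^ p / 3 := by
    have h1 : X / 2 = (2 : ℝ) ^ (p - 1) := by
      rw [Real.rpow_sub_one (by norm_num)]
    have h2 : (3 : ℝ) ^ p / 3 = (3 : ℝ) ^ (p - 1) := by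
      rw [Real.rpow_sub_one (by norm_num)]
    rw [h1, h2]
    exact Real.rpow_le_rpow (by norm_num) (by norm_num) (by linarith)
  have hN : 0 ≤ W / n ^ 4 := by positivity
  have t8 : αO * (432 * W / n ^ 4) ≤ 144 * (3 : ℝ) ^ p * W / n ^ 4 := by
    have h1 : αO * (432 * W / n ^ 4) = (432 * αO) * (W / n ^ 4) := by ring
    have h2 : 144 * (3 : ℝ) ^ p * W / n ^ 4 = (144 * (3 : ℝ) ^ p) * (W / n ^ 4) := by
      ring
    rw [h1, h2]
    exact mul_le_mul_of_nonneg_right (by linarith) hN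
  rw [mul_add] at t1
  rw [t5]
  linarith

end Pool.Agent.H77Lp
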