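import Pool.Agent.H77Lp.DataL

set_option autoImplicit false
set_option linter.unusedSimpArgs false
set_option linter.unusedVariables false
set_option maxHeartbeats 4000000
set_option maxRecDepth 100000

/-!
# The checks for one certificate (generated file)
-/

namespace Pool.Agent.H77Lp.L

open Pool.Agent.H6Turan Pool.Agent.H77Lp

theorem c01 : cK01 KN = true := by decide +kernel

theorem c12 : cK12 KN = true := by decide +kernel

theorem c23 : cK23 KN = true := by decide +kernel

theorem c45 : cK45 KN = true := by decide +kernel

theorem d01 : cM01 (MP MN phi) = true := by decide +kernel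

theorem d23 : cM23 (MP MN phi) = true := by decide +kernel

theorem d45 : cM45 (MP MN phi) = true := by decide +kernel

theorem dpp : cMpp (MP MN phi) = true := by decide +kernel

theorem good : chk5 (goodG KN (MP MN phi) C0) = true := by decide +kernel

theorem hphi (x y z t : ℕ) (hx : x = 0 ∨ x = 1) (hy : y = 0 ∨ y = 1) (hz : z = 0 ∨ z = 1)
    (ht : t = 0 ∨ t = 1) :
    (phi (x + y + (z + t)) : ℤ) = newt (0) (9000000) (6000000) (0) (0) x y z t := by
  rcases hx with rfl | rfl <;> rcases hy with rfl | rfl <;> rcases hz with rfl | rfl <;>
    rcases ht with rfl | rfl <;> rfl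

variable {V : Type*} [Fintype V]

theorem hK (τ : ℕ) (F : V → ℕ) :
    (off : ℤ) * (Fintype.card V : ℤ) ^ 2 ≤ ∑ u, ∑ v, (KN τ (F u) (F v) : ℤ) := by
  have hconst : ∑ _u : V, ∑ _v : V, (off : ℤ) = (off : ℤ) * (Fintype.card V : ℤ) ^ 2 := by
    simp only [Finset.sum_const, Finset.card_univ, nsmul_eq_mul]
    ring
  by_cases h1 : ty τ = 1
  · have h := psd0 (fun u => rho τ (F u)) (fun u => rho_lt τ (F u))
    have e : ∀ u v : V, (KN τ (F u) (F v) : ℤ) = M0 (rho τ (F u)) (rho τ (F v)) + (off : ℤ) := by
      intro u v
      have : KN τ (F u) (F v)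
          = tb2 T0 31 2147483647 1984 rm (rho τ (F u)) (rho τ (F v)) := by
        unfold KN
        rw [h1]
        rfl
      rw [this]
      unfold M0 off
      push_cast
      ring
    simp only [e, Finset.sum_add_distrib]
    rw [hconst]
    linarith
  · by_cases h2 : ty τ = 2
    · have h := psd1 (fun u => rho τ (F u)) (fun u => rho_lt τ (F u))
      have e : ∀ u v : V, (KN τ (F u) (F v) : ℤ) = M1 (rho τ (F u)) (rho τ (F v)) + (off : ℤ) := by
        intro u v
        have : KN τ (F u) (F v)
            = tb2 T1 31 2147483647 1984 rm (rho τ (F u)) (rho τ (F v)) := by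
          unfold KN
          rw [h2]
          rfl
        rw [this]
        unfold M1 off
        push_cast
        ring
      simp only [e, Finset.sum_add_distrib]
      rw [hconst]
      linarith
    · by_cases h3 : ty τ = 3
      · have h := psd3 (fun u => rho τ (F u)) (fun u => rho_lt τ (F u))
        have e : ∀ u v : V, (KN τ (F u) (F v) : ℤ) = M3 (rho τ (F u)) (rho τ (F v)) + (off : ℤ) := by
          intro u v
          have : KN τ (F u) (F v)
              = tb2 T3 31 2147483647 1984 rm (rho τ (F u)) (rho τ (F v)) := by
            unfold KN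
            rw [h3]
            rfl
          rw [this]
          unfold M3 off
          push_cast
          ring
        simp only [e, Finset.sum_add_distrib]
        rw [hconst]
        linarith
      · by_cases h4 : ty τ = 4
        · have h := psd7 (fun u => rho τ (F u)) (fun u => rho_lt τ (F u))
          have e : ∀ u v : V, (KN τ (F u) (F v) : ℤ) = M7 (rho τ (F u)) (rho τ (F v)) + (off : ℤ) := by
            intro u v
            have : KN τ (F u) (F v)
                = tb2 T7 31 2147483647 1984 rm (rho τ (F u)) (rho τ (F v)) := by
              unfold KN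
              rw [h4]
              rfl
            rw [this]
            unfold M7 off
            push_cast
            ring
          simp only [e, Finset.sum_add_distrib]
          rw [hconst]
          linarith
        · have e : ∀ u v : V, (KN τ (F u) (F v) : ℤ) = (off : ℤ) := by
            intro u v
            have a1 : Nat.beq (ty τ) 1 = false := by
              rw [Bool.eq_false_iff]
              intro h
              exact h1 (Nat.eq_of_beq_eq_true h)
            have a2 : Nat.beq (ty τ) 2 = false := by
              rw [Bool.eq_false_iff]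
              intro h
              exact h2 (Nat.eq_of_beq_eq_true h)
            have a3 : Nat.beq (ty τ) 3 = false := by
              rw [Bool.eq_false_iff]
              intro h
              exact h3 (Nat.eq_of_beq_eq_true h)
            have a4 : Nat.beq (ty τ) 4 = false := by
              rw [Bool.eq_false_iff]
              intro h
              exact h4 (Nat.eq_of_beq_eq_true h)
            have : KN τ (F u) (F v) = off := by
              unfold KN
              rw [a1, a2, a3, a4]
              rfl
            rw [this]
          simp only [e]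
          rw [hconst]

theorem hM (F : V × V → ℕ) (hF : ∀ u, F u < 16) :
    (off : ℤ) * (Fintype.card V : ℤ) ^ 4 ≤ ∑ u, ∑ v, (MN (F u) (F v) : ℤ) := by
  have h := psdM F hF
  have e : ∀ u v : V × V, (MN (F u) (F v) : ℤ) = MM (F u) (F v) + (off : ℤ) := by
    intro u v
    unfold MN MM off
    push_cast
    ring
  simp only [e, Finset.sum_add_distrib]
  have hconst : ∑ _u : V × V, ∑ _v : V × V, (off : ℤ) = (off : ℤ) * (Fintype.card V : ℤ) ^ 4 := by
    simp only [Finset.sum_const, Finset.card_univ, nsmul_eq_mul, Fintype.card_prod]
    push_cast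
    ring
  rw [hconst]
  linarith

theorem main (g : V → V → V → ℕ) (hb : ∀ a b c, g a b c = 0 ∨ g a b c = 1) (hg : Symm3 g)
    (h4 : ∀ a b c d, ix4 (g a b c) (g a b d) (g a c d) (g b c d) ≠ 15) :
    ∑ a, ∑ b, ((0) * (Fintype.card V : ℤ) ^ 4
        + 4 * (9000000) * (Fintype.card V : ℤ) ^ 3 * (∑ c, (g a b c : ℤ))
        + 6 * (6000000) * (Fintype.card V : ℤ) ^ 2 * (∑ c, (g a b c : ℤ)) ^ 2
        + 4 * (0) * (Fintype.card V : ℤ) * (∑ c, (g a b c : ℤ)) ^ 3
        + (0) * (∑ c, (g a b c : ℤ)) ^ 4) ≤ 32000000 * (Fintype.card V : ℤ) ^ 6 :=
  mainG KN MN phi off C0 32000000 (0) (9000000) (6000000) (0) (0) c01 c12 c23 c45 d01 d23 d45 dpp good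
    hK hM hphi (by norm_num [C0, off]) g hb hg h4

end Pool.Agent.H77Lp.L
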